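import Pool.Agent.Lib.SW.Spec
import Pool.Agent.Lib.LP.PER
import Pool.Agent.Lib.LP.CONT

/-! # SW, module CAU: the power series of `ζ L(χ₁) L(χ₂) L(χ₁χ₂) - λ/(s-1)` at `2` -/

set_option autoImplicit false

noncomputable section

namespace Pool.Agent.Lib.SW

open ArithmeticFunction DirichletCharacter MeasureTheory
open Pool.Agent.Lib.LP (specPER specCON)

namespace CAUM

/-- a crude bound for `L(s, χ)` -/
theorem L_le {q : ℕ} [NeZero q] (χ : DirichletCharacter ℂ q) (hχ : χ ≠ 1) {s : ℂ}
    (hs : 0 < s.re) : ‖χ.LFunction s‖ ≤ ‖s‖ * (q / s.re) := by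
  rw [specCON specPER q χ hχ s hs, norm_mul]
  apply mul_le_mul_of_nonneg_left _ (norm_nonneg s)
  have hlt : -s.re - 1 < -1 := by linarith
  have hint : IntegrableOn (fun u : ℝ => (q : ℝ) * u ^ (-s.re - 1)) (Set.Ioi 1) :=
    (integrableOn_Ioi_rpow_of_lt hlt one_pos).const_mul _
  have hval : ∫ u in Set.Ioi (1 : ℝ), (q : ℝ) * u ^ (-s.re - 1) = q / s.re := by
    rw [integral_const_mul, integral_Ioi_rpow_of_lt hlt one_pos]
    have e : -s.re - 1 + 1 = -s.re := by ring
    rw [e, Real.one_rpow, neg_div_neg_eq]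
    ring
  rw [← hval]
  apply norm_integral_le_of_norm_le hint
  filter_upwards [ae_restrict_mem measurableSet_Ioi] with u hu
  have hu0 : (0 : ℝ) < u := lt_trans one_pos hu
  rw [norm_mul, Complex.norm_cpow_eq_rpow_re_of_pos hu0]
  have hre : (-(s + 1)).re = -s.re - 1 := by simp; ring
  rw [hre]
  exact mul_le_mul_of_nonneg_right (specPER q χ hχ _) (Real.rpow_nonneg hu0.le _)

/-- uniqueness of the coefficients of a power series at `2` -/
theorem coeff_unique {f : ℂ → ℂ} {a a' : ℕ → ℂ} {r : ℝ} (hr : 0 < r)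
    (h : ∀ s : ℂ, ‖s - 2‖ < r → HasSum (fun m : ℕ => a m * (2 - s) ^ m) (f s))
    (h' : ∀ s : ℂ, ‖s - 2‖ < r → HasSum (fun m : ℕ => a' m * (2 - s) ^ m) (f s)) :
    a = a' := by
  have key : ∀ c : ℕ → ℂ, (∀ s : ℂ, ‖s - 2‖ < r → HasSum (fun m : ℕ => c m * (2 - s) ^ m) (f s)) →
      HasFPowerSeriesAt f (FormalMultilinearSeries.ofScalars ℂ (fun m => (-1) ^ m * c m)) 2 := by
    intro c hc
    rw [hasFPowerSeriesAt_iff']
    have h1 : ∀ᶠ z : ℂ in nhds 2, ‖z - 2‖ < r := by
      have := Metric.ball_mem_nhds (2 : ℂ) hr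
      filter_upwards [this] with z hz
      rwa [Metric.mem_ball, dist_eq_norm] at hz
    filter_upwards [h1] with z hz
    have h2 := hc z hz
    have e0 : (fun m : ℕ => (z - 2) ^ m •
        (FormalMultilinearSeries.ofScalars ℂ (fun m => (-1) ^ m * c m)).coeff m) =
        fun m : ℕ => c m * (2 - z) ^ m := by
      funext m
      rw [FormalMultilinearSeries.coeff_ofScalars, smul_eq_mul]
      have e : (2 : ℂ) - z = (-1) * (z - 2) := by ring
      rw [e, mul_pow]
      ring
    rw [e0]
    exact h2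
  have h3 := (key a h).eq_formalMultilinearSeries (key a' h')
  funext m
  have h4 := congrArg (fun p : FormalMultilinearSeries ℂ ℂ ℂ => p.coeff m) h3
  simp only [FormalMultilinearSeries.coeff_ofScalars] at h4
  exact mul_left_cancel₀ (pow_ne_zero m (by norm_num)) h4

end CAUM

open CAUM in
/-- **Module CAU**. -/
theorem specCAU (hZET : SpecZET) (hTAY : SpecTAY) : SpecCAU := by
  intro q _ χ₁ χ₂ h1 h2 h12 hs1 hs2
  have h3 : χ₁ * χ₂ ≠ 1 := by
    intro h
    apply h12
    have : χ₂ * χ₂ = 1 := by rw [← sq, hs2]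
    calc χ₁ = χ₁ * χ₂ * χ₂ := by rw [mul_assoc, this, mul_one]
      _ = χ₂ := by rw [h, one_mul]
  obtain ⟨Z, hZd, hZe, hZb⟩ := hZET
  obtain ⟨b, hb0, hb1, hb⟩ := hTAY q χ₁ χ₂ hs1 hs2
  set H : ℂ → ℂ := fun s => χ₁.LFunction s * χ₂.LFunction s * (χ₁ * χ₂).LFunction s with hH
  have hHd : Differentiable ℂ H :=
    ((differentiable_LFunction h1).mul (differentiable_LFunction h2)).mul
      (differentiable_LFunction h3)
  refine ⟨b, hb0, hb1, H 1, rfl, ?_⟩
  set lam : ℂ := H 1 with hlam
  -- the regular part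
  set g : ℂ → ℂ := fun s => Z s * H s + dslope H 1 s with hg
  have hds : Differentiable ℂ (dslope H 1) := by
    rw [← differentiableOn_univ]
    exact (Complex.differentiableOn_dslope Filter.univ_mem).2 hHd.differentiableOn
  have hgd : ∀ s : ℂ, 0 < s.re → DifferentiableAt ℂ g s := fun s hs =>
    ((hZd s hs).mul (hHd s)).add (hds s)
  have hge : ∀ s : ℂ, 0 < s.re → s ≠ 1 → g s = E4 χ₁ χ₂ s - lam / (s - 1) := by
    intro s hs hs1
    have hne : s - 1 ≠ 0 := sub_ne_zero.2 hs1
    have e1 : E4 χ₁ χ₂ s = riemannZeta s * H s := by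
      simp only [E4, hH]
      ring
    rw [e1, hZe s hs hs1, hg]
    simp only [dslope_of_ne _ hs1, slope_def_field]
    rw [← hlam]
    field_simp
    ring
  have hre : ∀ s : ℂ, ‖s - 2‖ ≤ 3 / 2 → 2 - ‖s - 2‖ ≤ s.re := by
    intro s _
    have h4 := (Complex.abs_re_le_norm (s - 2))
    have h5 := neg_abs_le (s - 2).re
    simp at h4 h5
    linarith
  -- the power series with the coefficients `b m - lam`
  have hser1 : ∀ s : ℂ, ‖s - 2‖ < 1 →
      HasSum (fun m : ℕ => ((b m : ℂ) - lam) * (2 - s) ^ m) (g s) := by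
    intro s hs
    have hs' : ‖2 - s‖ < 1 := by rw [norm_sub_rev]; exact hs
    have hre' := hre s (by linarith)
    have hs1 : s ≠ 1 := by
      intro h
      rw [h] at hs
      norm_num at hs
    rw [hge s (by linarith) hs1]
    have h4 := hb s hs
    have h5 := (hasSum_geometric_of_norm_lt_one hs').mul_left lam
    have h6 := h4.sub h5
    have e0 : (fun m : ℕ => ((b m : ℂ) - lam) * (2 - s) ^ m) =
        fun m : ℕ => (b m : ℂ) * (2 - s) ^ m - lam * (2 - s) ^ m := by
      funext m
      ring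
    have e1 : (1 : ℂ) - (2 - s) = s - 1 := by ring
    rw [e1] at h6
    rw [e0, div_eq_mul_inv]
    exact h6
  -- the Taylor series
  have hdiff : DifferentiableOn ℂ g (Metric.ball 2 (3 / 2)) := by
    intro s hs
    rw [Metric.mem_ball, dist_eq_norm] at hs
    have hre' := hre s hs.le
    exact (hgd s (by linarith)).differentiableWithinAt
  have hser2 : ∀ s : ℂ, ‖s - 2‖ < 3 / 2 →
      HasSum (fun m : ℕ => ((-1) ^ m * ((m.factorial : ℂ)⁻¹ * iteratedDeriv m g 2)) *
        (2 - s) ^ m) (g s) := by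
    intro s hs
    have h4 := Complex.hasSum_taylorSeries_on_ball hdiff (z := s)
      (by rw [Metric.mem_ball, dist_eq_norm]; exact hs)
    have e0 : (fun m : ℕ => ((-1) ^ m * ((m.factorial : ℂ)⁻¹ * iteratedDeriv m g 2)) *
        (2 - s) ^ m) =
        fun m : ℕ => (m.factorial : ℂ)⁻¹ • (s - 2) ^ m • iteratedDeriv m g 2 := by
      funext m
      have e : (2 : ℂ) - s = (-1) * (s - 2) := by ring
      rw [e, mul_pow, smul_eq_mul, smul_eq_mul]
      have e2 : ((-1 : ℂ) ^ m) * ((-1) ^ m) = 1 := by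
        rw [← mul_pow]
        norm_num
      linear_combination ((m.factorial : ℂ)⁻¹ * iteratedDeriv m g 2 * (s - 2) ^ m) * e2
    rw [e0]
    exact h4
  have hcoef := coeff_unique one_pos hser1 (fun s hs => hser2 s (by linarith))
  constructor
  · intro m
    have h4 := congrFun hcoef m
    rw [h4, norm_mul, norm_pow, norm_neg, norm_one, one_pow, one_mul, norm_mul, norm_inv,
      Complex.norm_natCast]
    have hq0 : (0 : ℝ) ≤ q := Nat.cast_nonneg q
    have hbound := Complex.norm_iteratedDeriv_le_of_forall_mem_sphere_norm_le (c := (2 : ℂ))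
      (R := 4 / 3) (C := 1128 * (q : ℝ) ^ 3) (f := g) m (by norm_num)
      (by
        apply DifferentiableOn.diffContOnCl
        intro s hs
        rw [closure_ball _ (by norm_num), Metric.mem_closedBall, dist_eq_norm] at hs
        have hre' := hre s (by linarith)
        exact (hgd s (by linarith)).differentiableWithinAt)
      (by
        intro s hs
        rw [Metric.mem_sphere, dist_eq_norm] at hs
        have hre' := hre s (by linarith)
        have hre2 : 2 / 3 ≤ s.re := by linarith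
        have hs0 : 0 < s.re := by linarith
        have hns : ‖s‖ ≤ 10 / 3 := by
          calc ‖s‖ = ‖(s - 2) + 2‖ := by ring_nf
            _ ≤ ‖s - 2‖ + ‖(2 : ℂ)‖ := norm_add_le _ _
            _ = 10 / 3 := by rw [hs]; norm_num
        have hn1 : 1 / 3 ≤ ‖s - 1‖ := by
          have : ‖s - 2‖ ≤ ‖s - 1‖ + ‖(-1 : ℂ)‖ := by
            calc ‖s - 2‖ = ‖(s - 1) + (-1)‖ := by ring_nf
              _ ≤ ‖s - 1‖ + ‖(-1 : ℂ)‖ := norm_add_le _ _
          rw [hs] at this
          simp at this
          linarith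
        have hs1 : s ≠ 1 := by
          intro h
          rw [h] at hn1
          norm_num at hn1
        have hLs : ∀ χ : DirichletCharacter ℂ q, χ ≠ 1 → ‖χ.LFunction s‖ ≤ 5 * q := by
          intro χ hχ
          refine (L_le χ hχ hs0).trans ?_
          calc ‖s‖ * (q / s.re) ≤ 10 / 3 * (q / (2 / 3)) := by gcongr
            _ = 5 * q := by ring
        have hL1 : ∀ χ : DirichletCharacter ℂ q, χ ≠ 1 → ‖χ.LFunction 1‖ ≤ q := by
          intro χ hχ
          have := L_le χ hχ (s := 1) (by simp)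
          simpa using this
        have hHs : ‖H s‖ ≤ 125 * (q : ℝ) ^ 3 := by
          rw [hH]
          simp only [norm_mul]
          calc ‖χ₁.LFunction s‖ * ‖χ₂.LFunction s‖ * ‖(χ₁ * χ₂).LFunction s‖
              ≤ (5 * q) * (5 * q) * (5 * q) := by
                gcongr
                · exact hLs _ h1
                · exact hLs _ h2
                · exact hLs _ h3
            _ = 125 * (q : ℝ) ^ 3 := by ring
        have hH1 : ‖lam‖ ≤ (q : ℝ) ^ 3 := by
          rw [hlam, hH]
          simp only [norm_mul]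
          calc ‖χ₁.LFunction 1‖ * ‖χ₂.LFunction 1‖ * ‖(χ₁ * χ₂).LFunction 1‖
              ≤ q * q * q := by
                gcongr
                · exact hL1 _ h1
                · exact hL1 _ h2
                · exact hL1 _ h3
            _ = (q : ℝ) ^ 3 := by ring
        have hinv : 1 / ‖s - 1‖ ≤ 3 := by
          rw [div_le_iff₀ (by linarith)]
          linarith
        have hze : ‖riemannZeta s‖ ≤ 9 := by
          rw [hZe s hs0 hs1]
          have h5 := hZb s hs0
          have h6 : ‖s‖ / s.re ≤ 5 := by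
            rw [div_le_iff₀ hs0]
            linarith
          calc ‖1 / (s - 1) + Z s‖ ≤ ‖1 / (s - 1)‖ + ‖Z s‖ := norm_add_le _ _
            _ = 1 / ‖s - 1‖ + ‖Z s‖ := by rw [norm_div, norm_one]
            _ ≤ 9 := by linarith
        rw [hge s hs0 hs1]
        have e1 : E4 χ₁ χ₂ s = riemannZeta s * H s := by
          simp only [E4, hH]
          ring
        calc ‖E4 χ₁ χ₂ s - lam / (s - 1)‖ ≤ ‖E4 χ₁ χ₂ s‖ + ‖lam / (s - 1)‖ := norm_sub_le _ _
          _ = ‖riemannZeta s‖ * ‖H s‖ + ‖lam‖ * (1 / ‖s - 1‖) := by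
              rw [e1, norm_mul, norm_div]
              ring
          _ ≤ 9 * (125 * (q : ℝ) ^ 3) + (q : ℝ) ^ 3 * 3 := by
              gcongr
          _ = 1128 * (q : ℝ) ^ 3 := by ring)
    have hfac : (0 : ℝ) < (m.factorial : ℝ) := by exact_mod_cast m.factorial_pos
    calc (m.factorial : ℝ)⁻¹ * ‖iteratedDeriv m g 2‖
        ≤ (m.factorial : ℝ)⁻¹ * (m.factorial * (1128 * (q : ℝ) ^ 3) / (4 / 3) ^ m) := by
          gcongr
      _ = 1128 * (q : ℝ) ^ 3 * (3 / 4) ^ m := by
          have e : ((3 : ℝ) / 4) ^ m = 1 / (4 / 3) ^ m := by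
            rw [← one_div_pow]
            norm_num
          rw [e]
          field_simp
  · intro s hs hs1
    have hre' := hre s (by linarith)
    rw [← hge s (by linarith) hs1]
    have h4 := hser2 s (by linarith)
    have e0 : (fun m : ℕ => ((b m : ℂ) - lam) * (2 - s) ^ m) =
        fun m : ℕ => ((-1) ^ m * ((m.factorial : ℂ)⁻¹ * iteratedDeriv m g 2)) *
        (2 - s) ^ m := by
      funext m
      rw [congrFun hcoef m]
    rw [e0]
    exact h4

end Pool.Agent.Lib.SW
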