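import Pool.Agent.Lib.SW.Spec

/-! # SW, module DBE (helper82): bounds for `L` and `L'` near the line `σ = 1` -/

set_option autoImplicit false

noncomputable section

namespace Pool.Agent.Lib.SW

open ArithmeticFunction DirichletCharacter MeasureTheory
open Pool.Agent.Lib.LP (G F)

theorem specDBE (hUBE : SpecUBE) : SpecDBE := by
  intro T hT q _ χ hχ hq s him hs1 hs2
  have hT0 : 0 < T := by linarith
  have h2T : 1 / (2 * T) ≤ 1 / 2000 := by
    rw [div_le_div_iff₀ (by positivity) (by norm_num)]
    linarith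
  have h2T0 : 0 < 1 / (2 * T) := by positivity
  have h1T : 2 * (1 / (2 * T)) = 1 / T := by
    field_simp
  have hE : 1 ≤ Real.exp T := Real.one_le_exp hT0.le
  -- the bound on the disc
  have key : ∀ z : ℂ, ‖z - s‖ ≤ 1 / (2 * T) → ‖χ.LFunction z‖ ≤ T ^ 2 := by
    intro z hz
    have hre : |(z - s).re| ≤ 1 / (2 * T) := (Complex.abs_re_le_norm _).trans hz
    have hre2 := abs_le.1 hre
    rw [Complex.sub_re] at hre2
    have him2 : |(z - s).im| ≤ 1 / (2 * T) := (Complex.abs_im_le_norm _).trans hz
    rw [Complex.sub_im] at him2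
    have h3 : |z.im| ≤ 2 * Real.exp T + 1 := by
      have h4 : |z.im| ≤ |z.im - s.im| + |s.im| := by
        have := abs_add_le (z.im - s.im) s.im
        rwa [sub_add_cancel] at this
      linarith
    exact hUBE T hT q χ hχ hq z h3 (by linarith [hre2.1]) (by linarith [hre2.2])
  constructor
  · exact key s (by rw [sub_self, norm_zero]; exact h2T0.le)
  · have hc := Complex.norm_deriv_le_of_forall_mem_sphere_norm_le (c := s) (R := 1 / (2 * T))
      (C := T ^ 2) (f := χ.LFunction) h2T0
      (differentiable_LFunction hχ).diffContOnCl (fun z hz => key z (by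
        rw [← dist_eq_norm]
        exact (Metric.mem_sphere.1 hz).le))
    refine hc.trans ?_
    rw [div_div_eq_mul_div, div_one]
    have h3 : T ^ 2 * (2 * T) = 2 * T ^ 3 := by ring
    rw [h3]
    have h5 : 2 * T ^ 3 ≤ T * T ^ 3 := mul_le_mul_of_nonneg_right (by linarith) (by positivity)
    calc 2 * T ^ 3 ≤ T * T ^ 3 := h5
      _ = T ^ 4 := by ring

end Pool.Agent.Lib.SW

end
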