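import Pool.Agent.Lib.SW.Spec

/-!
# Siegel-Walfisz: module EST (the inequality of Estermann)
-/

set_option autoImplicit false

noncomputable section

namespace Pool.Agent.Lib.SW

open ArithmeticFunction DirichletCharacter MeasureTheory

namespace ESTM

theorem e58 : (14440 : ℝ) ≤ Real.exp (58 / 6) := by
  have h1 : (2.7 : ℝ) ≤ Real.exp 1 := by
    have := Real.exp_one_gt_d9; linarith
  have h2 : (2.7 : ℝ) ^ 29 ≤ Real.exp 1 ^ 29 := pow_le_pow_left₀ (by norm_num) h1 29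
  have h3 : Real.exp (58 / 6) ^ 3 = Real.exp 1 ^ 29 := by
    rw [← Real.exp_nat_mul, ← Real.exp_nat_mul]
    norm_num
  have h4 : (14440 : ℝ) ^ 3 ≤ Real.exp (58 / 6) ^ 3 := by
    rw [h3]
    refine le_trans ?_ h2
    norm_num
  exact (pow_le_pow_iff_left₀ (by norm_num) (Real.exp_pos _).le (by norm_num)).1 h4

theorem e6 : (27 / 32 : ℝ) ≤ Real.exp (-(1 / 6)) := by
  have h1 : Real.exp (1 / 6) ≤ 32 / 27 := by
    have h2 : Real.exp (1 / 6) ^ 6 = Real.exp 1 := by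
      rw [← Real.exp_nat_mul]
      norm_num
    have h3 : Real.exp (1 / 6) ^ 6 ≤ (32 / 27 : ℝ) ^ 6 := by
      rw [h2]
      have := Real.exp_one_lt_d9
      refine this.le.trans ?_
      norm_num
    exact (pow_le_pow_iff_left₀ (Real.exp_pos _).le (by norm_num) (by norm_num)).1 h3
  rw [Real.exp_neg]
  have h4 : (0 : ℝ) < Real.exp (1 / 6) := Real.exp_pos _
  rw [le_inv_comm₀ (by norm_num) h4]
  refine h1.trans (by norm_num)

/-- the tail is at most `1/2` -/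
theorem tail_small (q : ℝ) (hq : 1 ≤ q) (K : ℕ) (hK : 18 * Real.log q + 58 ≤ K) :
    1128 * q ^ 3 * (27 / 32) ^ K * (1 - 27 / 32)⁻¹ ≤ 1 / 2 := by
  have h1 : (27 / 32 : ℝ) ^ K ≤ Real.exp (-(1 / 6)) ^ K := pow_le_pow_left₀ (by norm_num) e6 K
  have h2 : Real.exp (-(1 / 6)) ^ K = Real.exp (K * (-(1 / 6))) := by rw [← Real.exp_nat_mul]
  have h3 : Real.exp (K * (-(1 / 6) : ℝ)) ≤ Real.exp (-(3 * Real.log q) - 58 / 6) := by
    apply Real.exp_le_exp.2
    nlinarith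
  have h4 : Real.exp (-(3 * Real.log q) - 58 / 6) = (q ^ 3)⁻¹ * (Real.exp (58 / 6))⁻¹ := by
    rw [sub_eq_add_neg, Real.exp_add, Real.exp_neg, Real.exp_neg]
    congr 2
    rw [show 3 * Real.log q = Real.log (q ^ 3) by rw [Real.log_pow]; norm_num]
    exact Real.exp_log (by positivity)
  have h5 : (27 / 32 : ℝ) ^ K ≤ (q ^ 3)⁻¹ * (Real.exp (58 / 6))⁻¹ := by
    rw [← h4, ]
    exact (h1.trans_eq h2).trans h3
  have h6 : (Real.exp (58 / 6))⁻¹ ≤ (14440 : ℝ)⁻¹ := inv_anti₀ (by norm_num) e58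
  have hq3 : 0 < q ^ 3 := by positivity
  have h7 : (27 / 32 : ℝ) ^ K ≤ (q ^ 3)⁻¹ * (14440 : ℝ)⁻¹ :=
    h5.trans (mul_le_mul_of_nonneg_left h6 (by positivity))
  calc 1128 * q ^ 3 * (27 / 32) ^ K * (1 - 27 / 32)⁻¹
      ≤ 1128 * q ^ 3 * ((q ^ 3)⁻¹ * (14440 : ℝ)⁻¹) * (1 - 27 / 32)⁻¹ := by
        apply mul_le_mul_of_nonneg_right _ (by norm_num)
        exact mul_le_mul_of_nonneg_left h7 (by positivity)
    _ = 1128 * (14440 : ℝ)⁻¹ * (1 - 27 / 32)⁻¹ := by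
        field_simp
    _ ≤ 1 / 2 := by norm_num

end ESTM

theorem specEST (hCAU : SpecCAU) : SpecEST := by
  intro q _ χ₁ χ₂ h1 h2 h12 hs1 hs2 σ hσ hσ1
  obtain ⟨b, hb0, hb1, lam, hlam, hbl, hsum⟩ := hCAU q χ₁ χ₂ h1 h2 h12 hs1 hs2
  have hq1 : (1 : ℝ) ≤ q := by exact_mod_cast Nat.one_le_iff_ne_zero.2 (NeZero.ne q)
  have hlq : 0 ≤ Real.log q := Real.log_nonneg hq1
  set x : ℝ := 2 - σ with hx
  have hx1 : 1 < x := by rw [hx]; linarith
  have hx2 : x ≤ 9 / 8 := by rw [hx]; linarith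
  have hx0 : 0 < x := by linarith
  set K : ℕ := ⌈18 * Real.log q + 58⌉₊ with hK
  have hK1 : 18 * Real.log q + 58 ≤ K := Nat.le_ceil _
  have hK2 : (K : ℝ) ≤ 18 * Real.log q + 59 := by
    have := (Nat.ceil_lt_add_one (a := 18 * Real.log q + 58) (by positivity)).le
    rw [← hK] at this
    linarith
  have hK0 : 0 < K := by
    have : (0 : ℝ) < K := by linarith
    exact_mod_cast this
  have hσc : (σ : ℂ) ≠ 1 := by
    intro h
    have : σ = 1 := by exact_mod_cast h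
    linarith
  have hxc : (2 : ℂ) - σ = ((x : ℝ) : ℂ) := by rw [hx]; push_cast; ring
  have hdist : ‖(σ : ℂ) - 2‖ < 4 / 3 := by
    have : (σ : ℂ) - 2 = ((-x : ℝ) : ℂ) := by rw [hx]; push_cast; ring
    rw [this, Complex.norm_real, Real.norm_eq_abs, abs_neg, abs_of_pos hx0]
    linarith
  have hS := hsum σ hdist hσc
  rw [hxc] at hS
  set f : ℕ → ℂ := fun m => ((b m : ℂ) - lam) * ((x : ℝ) : ℂ) ^ m with hf
  have hS2 := (hasSum_nat_add_iff' K).2 hS
  have hg : HasSum (fun n : ℕ => 1128 * (q : ℝ) ^ 3 * (27 / 32) ^ K * (27 / 32 : ℝ) ^ n)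
      (1128 * (q : ℝ) ^ 3 * (27 / 32) ^ K * (1 - 27 / 32)⁻¹) :=
    (hasSum_geometric_of_lt_one (by norm_num) (by norm_num)).mul_left _
  have hfg : ∀ n, ‖f (n + K)‖ ≤ 1128 * (q : ℝ) ^ 3 * (27 / 32) ^ K * (27 / 32 : ℝ) ^ n := by
    intro n
    rw [hf]
    simp only
    rw [norm_mul, norm_pow, Complex.norm_real, Real.norm_eq_abs, abs_of_pos hx0]
    have e1 := hbl (n + K)
    have e2 : (3 / 4 : ℝ) ^ (n + K) * x ^ (n + K) ≤ (27 / 32) ^ (n + K) := by
      rw [← mul_pow]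
      exact pow_le_pow_left₀ (by positivity) (by linarith) _
    calc ‖(b (n + K) : ℂ) - lam‖ * x ^ (n + K)
        ≤ 1128 * (q : ℝ) ^ 3 * (3 / 4) ^ (n + K) * x ^ (n + K) :=
          mul_le_mul_of_nonneg_right e1 (by positivity)
      _ = 1128 * (q : ℝ) ^ 3 * ((3 / 4) ^ (n + K) * x ^ (n + K)) := by ring
      _ ≤ 1128 * (q : ℝ) ^ 3 * (27 / 32) ^ (n + K) := mul_le_mul_of_nonneg_left e2 (by positivity)
      _ = 1128 * (q : ℝ) ^ 3 * (27 / 32) ^ K * (27 / 32 : ℝ) ^ n := by rw [pow_add]; ring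
  have htail := (hS2.norm_le_of_bounded hg hfg).trans (ESTM.tail_small q hq1 K hK1)
  have hre := (abs_le.1 ((Complex.abs_re_le_norm _).trans htail)).1
  -- real parts
  have hfre : ∀ i, (f i).re = (b i - lam.re) * x ^ i := by
    intro i
    rw [hf]
    simp only
    rw [← Complex.ofReal_pow, Complex.re_mul_ofReal, Complex.sub_re, Complex.ofReal_re]
  have hSre : (E4 χ₁ χ₂ σ - lam / (σ - 1)).re = (E4 χ₁ χ₂ σ).re + lam.re / (1 - σ) := by
    have : (σ : ℂ) - 1 = ((σ - 1 : ℝ) : ℂ) := by push_cast; ring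
    rw [this, Complex.sub_re, Complex.div_ofReal_re]
    have h : σ - 1 = -(1 - σ) := by ring
    rw [h, div_neg]
    ring
  have hsumre : (∑ i ∈ Finset.range K, f i).re =
      ∑ i ∈ Finset.range K, b i * x ^ i - lam.re * ((x ^ K - 1) / (x - 1)) := by
    rw [Complex.re_sum, ← geom_sum_eq hx1.ne', Finset.mul_sum, ← Finset.sum_sub_distrib]
    refine Finset.sum_congr rfl fun i _ => ?_
    rw [hfre]; ring
  have hbge : 1 ≤ ∑ i ∈ Finset.range K, b i * x ^ i := by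
    have := Finset.single_le_sum (f := fun i => b i * x ^ i)
      (fun i _ => mul_nonneg (hb0 i) (by positivity)) (Finset.mem_range.2 hK0)
    simp only [pow_zero, mul_one] at this
    linarith
  rw [Complex.sub_re, hSre, hsumre] at hre
  have hx1s : x - 1 = 1 - σ := by rw [hx]; ring
  have h1σ : 0 < 1 - σ := by linarith
  have hcomb : lam.re * ((x ^ K - 1) / (x - 1)) + lam.re / (1 - σ) = lam.re * (x ^ K / (1 - σ)) := by
    rw [hx1s]; field_simp; ring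
  have hlamre : lam.re * (x ^ K / (1 - σ)) ≤ ‖lam‖ * (x ^ K / (1 - σ)) :=
    mul_le_mul_of_nonneg_right (Complex.re_le_norm lam) (by positivity)
  have hlamn : ‖lam‖ = ‖χ₁.LFunction 1‖ * ‖χ₂.LFunction 1‖ * ‖(χ₁ * χ₂).LFunction 1‖ := by
    rw [hlam, norm_mul, norm_mul]
  -- bound of `x ^ K`
  have hxK : x ^ K ≤ Real.exp 8 * (q : ℝ) ^ (18 * (1 - σ)) := by
    have e1 : x ≤ Real.exp (1 - σ) := by
      have := Real.add_one_le_exp (1 - σ)
      rw [hx]; linarith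
    calc x ^ K ≤ Real.exp (1 - σ) ^ K := pow_le_pow_left₀ hx0.le e1 K
      _ = Real.exp (K * (1 - σ)) := by rw [← Real.exp_nat_mul]
      _ ≤ Real.exp (8 + Real.log q * (18 * (1 - σ))) := by
          apply Real.exp_le_exp.2
          nlinarith
      _ = Real.exp 8 * (q : ℝ) ^ (18 * (1 - σ)) := by
          rw [Real.exp_add, Real.rpow_def_of_pos (by linarith)]
  have hfin : ‖lam‖ * (x ^ K / (1 - σ)) ≤
      Real.exp 8 * (q : ℝ) ^ (18 * (1 - σ)) / (1 - σ) * ‖lam‖ := by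
    rw [mul_comm]
    apply mul_le_mul_of_nonneg_right _ (norm_nonneg _)
    exact div_le_div_of_nonneg_right hxK h1σ.le
  rw [← hlamn]
  linarith

end Pool.Agent.Lib.SW
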