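import Pool.Agent.Lib.SW.Spec
import Pool.Agent.Lib.LP.PER
import Pool.Agent.Lib.LP.CONT
import Pool.Agent.Lib.LP.UB
import Pool.Agent.Lib.LP.DB
import Pool.Agent.Lib.LP.LOW
import Pool.Agent.Lib.LP.INV

/-! # SW, module GDE (helper68): no zeros near the line for small moduli -/

set_option autoImplicit false

noncomputable section

namespace Pool.Agent.Lib.SW

open ArithmeticFunction DirichletCharacter MeasureTheory

namespace GDEM

lemma log_bound (A : ℕ) : ∃ T₁ : ℝ, ∀ T : ℝ, T₁ ≤ T → (A : ℝ) * Real.log T ≤ T := by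
  have h1 : ∀ᶠ T : ℝ in Filter.atTop, ‖Real.log T‖ ≤ (1 / ((A : ℝ) + 1)) * ‖T‖ :=
    Real.isLittleO_log_id_atTop.bound (by positivity)
  obtain ⟨T₁, hT₁⟩ := Filter.eventually_atTop.1 (h1.and (Filter.eventually_ge_atTop (0 : ℝ)))
  refine ⟨T₁, fun T hT => ?_⟩
  obtain ⟨h2, h3⟩ := hT₁ T hT
  rw [Real.norm_eq_abs, Real.norm_eq_abs, abs_of_nonneg h3] at h2
  have h4 := (le_abs_self _).trans h2
  have hA : (0 : ℝ) ≤ A := Nat.cast_nonneg A
  calc (A : ℝ) * Real.log T ≤ A * ((1 / ((A : ℝ) + 1)) * T) := mul_le_mul_of_nonneg_left h4 hA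
    _ = (A / ((A : ℝ) + 1)) * T := by ring
    _ ≤ 1 * T := by
        refine mul_le_mul_of_nonneg_right ?_ h3
        rw [div_le_one (by positivity)]
        linarith
    _ = T := one_mul T

end GDEM

theorem specGDE (_hDBE : SpecDBE) (hLBE : SpecLBE) (hSGL : SpecSGL) : SpecGDE := by
  intro A
  obtain ⟨c, hc, hS⟩ := hSGL (1 / ((A : ℝ) + 1)) (by positivity)
  obtain ⟨T₁, hT₁⟩ := GDEM.log_bound A
  refine ⟨max 1000 (max T₁ (1 / c)), le_max_left _ _, fun T hT q _ hq => ?_⟩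
  have hT1000 : 1000 ≤ T := (le_max_left _ _).trans hT
  have hTT₁ : T₁ ≤ T := ((le_max_left _ _).trans (le_max_right _ _)).trans hT
  have hTc : 1 / c ≤ T := ((le_max_right _ _).trans (le_max_right _ _)).trans hT
  have hT0 : 0 < T := by linarith
  have hq1 : (1 : ℝ) ≤ q := by exact_mod_cast Nat.one_le_iff_ne_zero.2 (NeZero.ne q)
  have hlog : Real.log q ≤ T := by
    refine (Real.log_le_log (by linarith) hq).trans ?_
    rw [Real.log_pow]
    exact hT₁ T hTT₁
  refine ⟨hlog, fun χ hχ σ y hy hσ1 hσ2 => ?_⟩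
  by_cases hcase : χ ^ 2 ≠ 1 ∨ (T ^ 20)⁻¹ ≤ |y|
  · exact hLBE T hT1000 q χ hχ hlog σ y hy hcase hσ1 hσ2
  · rw [not_or, not_not, not_le] at hcase
    by_cases hs : σ ≤ 1 + (T ^ 20)⁻¹
    · have hDB : LP.SpecDB := LP.specDB (LP.specUB LP.specPER (LP.specCON LP.specPER))
      refine LP.LOWM.near hDB hT1000 q χ hχ hlog ?_ hcase.2.le hσ1 hs
      refine le_trans ?_ (hS q χ hχ hcase.1)
      -- `(T ^ 14)⁻¹ ≤ c * q ^ (-ε)`
      have h1 : T⁻¹ ≤ (q : ℝ) ^ (-(1 / ((A : ℝ) + 1))) := by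
        have h2 : (T ^ A) ^ (-(1 / ((A : ℝ) + 1))) ≤ (q : ℝ) ^ (-(1 / ((A : ℝ) + 1))) :=
          Real.rpow_le_rpow_of_nonpos (by linarith) hq (by
            rw [neg_nonpos]
            positivity)
        refine le_trans ?_ h2
        rw [← Real.rpow_natCast T A, ← Real.rpow_mul hT0.le, ← Real.rpow_neg_one T]
        refine Real.rpow_le_rpow_of_exponent_le (by linarith) ?_
        have h3 : (A : ℝ) * (1 / ((A : ℝ) + 1)) ≤ 1 := by
          rw [mul_one_div, div_le_one (by positivity)]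
          linarith
        linarith
      have h4 : T⁻¹ ≤ c := by
        rw [one_div] at hTc
        have := inv_anti₀ (inv_pos.2 hc) hTc
        rwa [inv_inv] at this
      have h5 : (T ^ 14)⁻¹ ≤ T⁻¹ * T⁻¹ := by
        rw [← mul_inv]
        refine inv_anti₀ (by positivity) ?_
        calc T * T = T ^ 2 := by ring
          _ ≤ T ^ 14 := pow_le_pow_right₀ (by linarith) (by norm_num)
      refine h5.trans ?_
      exact mul_le_mul h4 h1 (inv_nonneg.2 hT0.le) hc.le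
    · exact LP.LOWM.far LP.specINV hT1000 q χ (not_le.1 hs) hσ2

end Pool.Agent.Lib.SW

end
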