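import Pool.Agent.Lib.SW.Spec

/-! # SW, module GTL (helper68): Gaussian tails -/

set_option autoImplicit false

noncomputable section

namespace Pool.Agent.Lib.SW

open ArithmeticFunction DirichletCharacter MeasureTheory
open Pool.Agent.Lib.LP (G F)

namespace GTLM

lemma G_nonneg (lam v : ℝ) : 0 ≤ G lam v := by
  unfold G
  positivity

lemma G_int {lam : ℝ} (h : 0 < lam) : Integrable (G lam) := by
  unfold G
  exact (integrable_exp_neg_mul_sq h).const_mul _

lemma G_tot {lam : ℝ} (h : 0 < lam) : ∫ v, G lam v = 1 := by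
  unfold G
  rw [integral_const_mul, integral_gaussian, ← Real.sqrt_mul (by positivity)]
  have : lam / Real.pi * (Real.pi / lam) = 1 := by
    field_simp
  rw [this, Real.sqrt_one]

lemma tail {lam : ℝ} (h : 0 < lam) {d : ℝ} (hd : 0 ≤ d) {S : Set ℝ} (hS : MeasurableSet S)
    (hSd : ∀ v ∈ S, d ≤ |v|) : ∫ v in S, G lam v ≤ 2 * Real.exp (-(lam * d ^ 2 / 2)) := by
  let M : ℝ → ℝ := fun v => Real.exp (-(lam * d ^ 2 / 2)) *
    (√(lam / Real.pi) * Real.exp (-(lam / 2) * v ^ 2))
  have hMi : Integrable M :=
    ((integrable_exp_neg_mul_sq (half_pos h)).const_mul _).const_mul _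
  have hM0 : ∀ v, 0 ≤ M v := fun v => by positivity
  have h1 : ∫ v in S, G lam v ≤ ∫ v in S, M v := by
    refine setIntegral_mono_on (G_int h).integrableOn hMi.integrableOn hS (fun v hv => ?_)
    have h2 : d ^ 2 ≤ v ^ 2 := by
      rw [← sq_abs v]
      exact pow_le_pow_left₀ hd (hSd v hv) 2
    have h3 : M v = √(lam / Real.pi) *
        Real.exp (-(lam * d ^ 2 / 2) + -(lam / 2) * v ^ 2) := by
      simp only [M]
      rw [Real.exp_add]
      ring
    rw [h3]
    unfold G
    refine mul_le_mul_of_nonneg_left (Real.exp_le_exp.2 ?_) (Real.sqrt_nonneg _)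
    nlinarith
  have h4 : ∫ v in S, M v ≤ ∫ v, M v :=
    setIntegral_le_integral hMi (Filter.Eventually.of_forall hM0)
  have h5 : ∫ v, M v = Real.exp (-(lam * d ^ 2 / 2)) * √2 := by
    simp only [M]
    rw [integral_const_mul, integral_const_mul, integral_gaussian,
      ← Real.sqrt_mul (by positivity)]
    have : lam / Real.pi * (Real.pi / (lam / 2)) = 2 := by
      field_simp
    rw [this]
  have h6 : √2 ≤ 2 := by
    rw [Real.sqrt_le_left (by norm_num)]
    norm_num
  calc ∫ v in S, G lam v ≤ Real.exp (-(lam * d ^ 2 / 2)) * √2 := (h1.trans h4).trans h5.le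
    _ ≤ Real.exp (-(lam * d ^ 2 / 2)) * 2 := mul_le_mul_of_nonneg_left h6 (Real.exp_nonneg _)
    _ = _ := mul_comm _ _

end GTLM

open GTLM in
theorem specGTL : SpecGTL := by
  intro lam h a b d hd
  refine ⟨fun hab => ?_, fun hab => ?_, fun ha hb => ?_, fun hab hb => ?_⟩
  · exact intervalIntegral.integral_nonneg hab (fun v _ => G_nonneg lam v)
  · rw [intervalIntegral.integral_of_le hab, ← G_tot h]
    exact setIntegral_le_integral (G_int h) (Filter.Eventually.of_forall (G_nonneg lam))
  · rw [intervalIntegral.integral_of_le (by linarith)]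
    have h1 := integral_add_compl (measurableSet_Ioc (a := a) (b := b)) (G_int h)
    rw [G_tot h] at h1
    have h2 := tail h hd (measurableSet_Ioc (a := a) (b := b)).compl (fun v hv => by
      rw [Set.mem_compl_iff, Set.mem_Ioc, not_and_or, not_lt, not_le] at hv
      rcases hv with hv | hv
      · rw [le_abs]
        right
        linarith
      · rw [le_abs]
        left
        linarith)
    linarith
  · rw [intervalIntegral.integral_of_le hab]
    exact tail h hd measurableSet_Ioc (fun v hv => by
      rw [le_abs]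
      right
      linarith [hv.2])

end Pool.Agent.Lib.SW

end
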