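import Pool.Agent.Lib.SW.Spec
import Pool.Agent.Lib.LP.LB
import Pool.Agent.Lib.LP.ZB
import Pool.Agent.Lib.LP.SIG

set_option autoImplicit false

/-!
# SW, module LBE (helper39): lower bounds for L-functions near the line one, up to height e^T
(adapted from LP/LB.lean of helper82)
-/

namespace Pool.Agent.Lib.SW

open Complex DirichletCharacter

namespace LBEM

theorem sq_bound (hUBE : SpecUBE) (hZTE : SpecZTE) (T : ℝ) (hT : 1000 ≤ T) (q : ℕ) [NeZero q]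
    (χ : DirichletCharacter ℂ q) (hlog : Real.log q ≤ T) (x y : ℝ) (hx0 : 0 < x) (hx1 : x ≤ 1)
    (hy : |y| ≤ Real.exp T) (hor : χ ^ 2 ≠ 1 ∨ (T ^ 20)⁻¹ ≤ |y|) :
    ‖(χ ^ 2).LFunction (1 + x + 2 * I * y)‖ ≤ T ^ 23 := by
  have hT0 : 0 < T := by linarith
  have hre : (1 + x + 2 * I * y : ℂ).re = 1 + x := by simp
  have him : (1 + x + 2 * I * y : ℂ).im = 2 * y := by simp
  have himb : |(1 + x + 2 * I * y : ℂ).im| ≤ 2 * Real.exp T + 1 := by
    rw [him, abs_mul, abs_of_pos (by norm_num : (0 : ℝ) < 2)]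
    linarith
  have hT20 : (1000 : ℝ) ≤ T ^ 20 := by
    calc (1000 : ℝ) ≤ T := hT
      _ = T ^ 1 := (pow_one T).symm
      _ ≤ T ^ 20 := pow_le_pow_right₀ (by linarith) (by norm_num)
  by_cases hχ : χ ^ 2 = 1
  · have hy2 : (T ^ 20)⁻¹ ≤ |y| := by
      rcases hor with h | h
      · exact absurd hχ h
      · exact h
    rw [hχ]
    have h1 := hZTE T hT q hlog (1 + x + 2 * I * y) (by rw [hre]; linarith)
      (by rw [hre]; linarith) himb
    refine h1.trans ?_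
    have hs1 : 2 * (T ^ 20)⁻¹ ≤ ‖(1 + x + 2 * I * y : ℂ) - 1‖ := by
      refine le_trans ?_ (Complex.abs_im_le_norm _)
      rw [Complex.sub_im, him, Complex.one_im, sub_zero, abs_mul]
      norm_num
      exact hy2
    have hpos : 0 < 2 * (T ^ 20)⁻¹ := by positivity
    have hdiv : 1 / ‖(1 + x + 2 * I * y : ℂ) - 1‖ ≤ 1 / (2 * (T ^ 20)⁻¹) :=
      one_div_le_one_div_of_le hpos hs1
    have hdiv2 : 1 / (2 * (T ^ 20)⁻¹) = T ^ 20 / 2 := by
      field_simp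
    rw [hdiv2] at hdiv
    calc T ^ 3 * (1 + 1 / ‖(1 + x + 2 * I * y : ℂ) - 1‖) ≤ T ^ 3 * T ^ 20 :=
          mul_le_mul_of_nonneg_left (by linarith) (by positivity)
      _ = T ^ 23 := by ring
  · have h1 := hUBE T hT q (χ ^ 2) hχ hlog (1 + x + 2 * I * y) himb (by
      rw [hre]
      have : 0 ≤ 1 / T := by positivity
      linarith) (by rw [hre]; linarith)
    exact h1.trans (pow_le_pow_right₀ (by linarith) (by norm_num))

theorem right_bound (hUBE : SpecUBE) (hZTE : SpecZTE) (T : ℝ) (hT : 1000 ≤ T) (q : ℕ) [NeZero q]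
    (χ : DirichletCharacter ℂ q) (hlog : Real.log q ≤ T) (x y : ℝ) (hx0 : (T ^ 44)⁻¹ ≤ x)
    (hx1 : x ≤ 1) (hy : |y| ≤ Real.exp T) (hor : χ ^ 2 ≠ 1 ∨ (T ^ 20)⁻¹ ≤ |y|) :
    (T ^ 39)⁻¹ ≤ ‖χ.LFunction (1 + x + I * y)‖ := by
  have hT0 : 0 < T := by linarith
  have hxp : 0 < x := lt_of_lt_of_le (by positivity) hx0
  have h1 := norm_LFunction_product_ge_one χ hxp y
  rw [norm_mul, norm_mul, norm_pow, norm_pow] at h1
  have h2 := (LP.specZB LP.specSIG q).1 x hxp hx1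
  have h3 := sq_bound hUBE hZTE T hT q χ hlog x y hxp hx1 hy hor
  set l := ‖χ.LFunction (1 + x + I * y)‖ with hl
  have hl0 : 0 ≤ l := norm_nonneg _
  have hx2 : 2 / x ≤ 2 * T ^ 44 := by
    rw [div_le_iff₀ hxp]
    have : 1 ≤ T ^ 44 * x := by
      rw [← mul_inv_cancel₀ (by positivity : (T ^ 44 : ℝ) ≠ 0)]
      exact mul_le_mul_of_nonneg_left hx0 (by positivity)
    linarith
  have h4 : 1 ≤ (2 * T ^ 44) ^ 3 * l ^ 4 * T ^ 23 := by
    refine le_trans h1 ?_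
    refine mul_le_mul (mul_le_mul_of_nonneg_right
      (pow_le_pow_left₀ (norm_nonneg _) (h2.trans hx2) 3) (by positivity)) h3
      (norm_nonneg _) (by positivity)
  by_contra hcon
  push Not at hcon
  have h5 : l ^ 4 ≤ ((T ^ 39)⁻¹) ^ 4 := pow_le_pow_left₀ hl0 hcon.le 4
  have h6 : (2 * T ^ 44) ^ 3 * l ^ 4 * T ^ 23 ≤ (2 * T ^ 44) ^ 3 * ((T ^ 39)⁻¹) ^ 4 * T ^ 23 :=
    mul_le_mul_of_nonneg_right (mul_le_mul_of_nonneg_left h5 (by positivity)) (by positivity)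
  have h7 : (2 * T ^ 44) ^ 3 * ((T ^ 39)⁻¹) ^ 4 * T ^ 23 = 8 / T := by
    field_simp
    ring
  rw [h7] at h6
  have h8 : 8 / T < 1 := by
    rw [div_lt_one hT0]
    linarith
  linarith

end LBEM

open LBEM in
theorem specLBE (hUBE : SpecUBE) (hDBE : SpecDBE) (hZTE : SpecZTE) : SpecLBE := by
  intro T hT q _ χ hχ hlog σ y hy hor hσ1 hσ2
  have hT0 : 0 < T := by linarith
  have hT1 : 1 ≤ T := by linarith
  have hcomm : ∀ s : ℝ, (s : ℂ) + y * I = 1 + ((s - 1 : ℝ) : ℂ) + I * y := by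
    intro s
    push_cast
    ring
  have h39 : (T ^ 44)⁻¹ ≤ (T ^ 39)⁻¹ :=
    inv_anti₀ (by positivity) (pow_le_pow_right₀ hT1 (by norm_num))
  have h44 : (T ^ 44)⁻¹ ≤ 1 := inv_le_one_of_one_le₀ (one_le_pow₀ hT1)
  rcases le_total (1 + (T ^ 44)⁻¹) σ with h | h
  · rw [hcomm σ]
    exact h39.trans (right_bound hUBE hZTE T hT q χ hlog (σ - 1) y (by linarith) (by linarith) hy hor)
  · set x0 : ℝ := (T ^ 44)⁻¹ with hx0
    have hx0pos : 0 < x0 := by positivity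
    have hbase := right_bound hUBE hZTE T hT q χ hlog x0 y le_rfl h44 hy hor
    have hb2 : (T ^ 39)⁻¹ ≤ ‖χ.LFunction (((1 + x0 : ℝ) : ℂ) + y * I)‖ := by
      rw [hcomm (1 + x0), show (1 + x0 - 1 : ℝ) = x0 by ring]
      exact hbase
    have hlo : x0 ≤ 1 / (2 * T) := by
      rw [hx0, inv_eq_one_div]
      apply one_div_le_one_div_of_le (by positivity)
      calc 2 * T ≤ T * T := by nlinarith
        _ = T ^ 2 := by ring
        _ ≤ T ^ 44 := pow_le_pow_right₀ hT1 (by norm_num)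
    have hmem : ∀ s : ℝ, 1 - x0 ≤ s → s ≤ 2 →
        ((s : ℂ) + y * I) ∈ {z : ℂ | |z.im| ≤ Real.exp T ∧ 1 - 1 / (2 * T) ≤ z.re ∧ z.re ≤ 2} := by
      intro s hs1 hs2
      simp only [Set.mem_ofPred_eq]
      refine ⟨by simpa using hy, ?_, by simpa using hs2⟩
      have : ((s : ℂ) + y * I).re = s := by simp
      rw [this]
      linarith
    have hmv := Convex.norm_image_sub_le_of_norm_deriv_le (f := χ.LFunction) (C := T ^ 4)
      (s := {z : ℂ | |z.im| ≤ Real.exp T ∧ 1 - 1 / (2 * T) ≤ z.re ∧ z.re ≤ 2})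
      (x := (σ : ℂ) + y * I) (y := ((1 + x0 : ℝ) : ℂ) + y * I)
      (fun z _ => (differentiable_LFunction hχ) z)
      (fun z hz => (hDBE T hT q χ hχ hlog z hz.1 hz.2.1 hz.2.2).2)
      (LP.LBM.conv (Real.exp T) _) (hmem σ hσ1 hσ2) (hmem (1 + x0) (by linarith) (by linarith))
    have hdist : ‖(((1 + x0 : ℝ) : ℂ) + y * I) - ((σ : ℂ) + y * I)‖ ≤ 2 * x0 := by
      rw [show (((1 + x0 : ℝ) : ℂ) + y * I) - ((σ : ℂ) + y * I) = ((1 + x0 - σ : ℝ) : ℂ) by
        push_cast; ring, Complex.norm_real, Real.norm_eq_abs, abs_of_nonneg (by linarith)]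
      linarith
    have h1 : ‖χ.LFunction (((1 + x0 : ℝ) : ℂ) + y * I)‖ ≤
        ‖χ.LFunction ((σ : ℂ) + y * I)‖ + T ^ 4 * (2 * x0) := by
      have h2 := norm_sub_norm_le (χ.LFunction (((1 + x0 : ℝ) : ℂ) + y * I))
        (χ.LFunction ((σ : ℂ) + y * I))
      have h3 := mul_le_mul_of_nonneg_left hdist (by positivity : (0 : ℝ) ≤ T ^ 4)
      linarith
    have h2 : T ^ 4 * (2 * x0) = 2 * (T ^ 40)⁻¹ := by
      rw [hx0]
      field_simp
    have h3 : (T ^ 39)⁻¹ = T * (T ^ 40)⁻¹ := by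
      field_simp
    have h4 : x0 ≤ (T ^ 40)⁻¹ := by
      rw [hx0]
      exact inv_anti₀ (by positivity) (pow_le_pow_right₀ hT1 (by norm_num))
    have h5 : 3 * (T ^ 40)⁻¹ ≤ T * (T ^ 40)⁻¹ :=
      mul_le_mul_of_nonneg_right (by linarith) (by positivity)
    rw [h2] at h1
    rw [h3] at hb2
    linarith

end Pool.Agent.Lib.SW
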