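import Pool.Agent.Lib.SW.Spec

/-!
# SW, module NNG: the coefficients of `ζ L(χ₁) L(χ₂) L(χ₁ χ₂)` are nonnegative
-/

set_option autoImplicit false

noncomputable section

namespace Pool.Agent.Lib.SW

open ArithmeticFunction DirichletCharacter MeasureTheory
open Pool.Agent.Lib.LP (G F)

namespace NNGM

open scoped ComplexOrder

variable {q : ℕ}

/-- the character as an arithmetic function -/
def C (χ : DirichletCharacter ℂ q) : ArithmeticFunction ℂ := toArithmeticFunction (fun n : ℕ => χ n)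

lemma C_apply (χ : DirichletCharacter ℂ q) {n : ℕ} (hn : n ≠ 0) : C χ n = χ n := by
  simp [C, toArithmeticFunction, hn]

lemma C_mult (χ : DirichletCharacter ℂ q) : (C χ).IsMultiplicative :=
  isMultiplicative_toArithmeticFunction χ

lemma mul_prime_pow (g h : ArithmeticFunction ℂ) {p : ℕ} (hp : p.Prime) (k : ℕ) :
    (g * h) (p ^ k) = ∑ i ∈ Finset.range (k + 1), g (p ^ i) * h (p ^ (k - i)) := by
  rw [ArithmeticFunction.mul_apply, Nat.sum_divisorsAntidiagonal (fun x y => g x * h y),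
    Nat.sum_divisors_prime_pow hp]
  refine Finset.sum_congr rfl (fun i hi => ?_)
  rw [Nat.pow_div (by have := Finset.mem_range.1 hi; omega) hp.pos]

/-- `∑_{j ≤ i} χ(p)^j` -/
def r (χ : DirichletCharacter ℂ q) (p i : ℕ) : ℂ := ∑ j ∈ Finset.range (i + 1), χ (p : ZMod q) ^ j

lemma zeta_C (χ : DirichletCharacter ℂ q) {p : ℕ} (hp : p.Prime) (k : ℕ) :
    (((ArithmeticFunction.zeta : ArithmeticFunction ℕ) : ArithmeticFunction ℂ) * C χ) (p ^ k) =
      r χ p k := by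
  rw [coe_zeta_mul_apply, Nat.sum_divisors_prime_pow hp, r]
  refine Finset.sum_congr rfl (fun i _ => ?_)
  rw [C_apply χ (pow_ne_zero _ hp.ne_zero), Nat.cast_pow, map_pow]

lemma C_C (χ ψ : DirichletCharacter ℂ q) {p : ℕ} (hp : p.Prime) (k : ℕ) :
    (C χ * C (χ * ψ)) (p ^ k) = χ (p : ZMod q) ^ k * r ψ p k := by
  rw [mul_comm (C χ), mul_prime_pow _ _ hp, r, Finset.mul_sum]
  refine Finset.sum_congr rfl (fun i hi => ?_)
  have hi' : i ≤ k := by have := Finset.mem_range.1 hi; omega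
  rw [C_apply _ (pow_ne_zero _ hp.ne_zero), C_apply _ (pow_ne_zero _ hp.ne_zero), Nat.cast_pow,
    Nat.cast_pow, map_pow, map_pow, MulChar.mul_apply, mul_pow]
  have h1 : χ (p : ZMod q) ^ k = χ (p : ZMod q) ^ i * χ (p : ZMod q) ^ (k - i) := by
    rw [← pow_add]; congr 1; omega
  rw [h1]
  ring

lemma r_nonneg {χ : DirichletCharacter ℂ q} (hχ : χ ^ 2 = 1) {p : ℕ} (hp : p.Prime) (k : ℕ) :
    0 ≤ r χ p k := by
  rw [r]
  rcases MulChar.isQuadratic_iff_sq_eq_one.mpr hχ p with h | h | h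
  · exact Finset.sum_nonneg fun i _ => by rw [h]; exact pow_nonneg le_rfl _
  · exact Finset.sum_nonneg fun i _ => by rw [h, one_pow]; exact zero_le_one
  · simp only [h, neg_one_geom_sum]
    split_ifs
    exacts [le_rfl, zero_le_one]

/-- the arithmetic function -/
def f (χ₁ χ₂ : DirichletCharacter ℂ q) : ArithmeticFunction ℂ :=
  (((ArithmeticFunction.zeta : ArithmeticFunction ℕ) : ArithmeticFunction ℂ) * C χ₁) *
    (C χ₂ * C (χ₂ * χ₁))

lemma f_comm (χ₁ χ₂ : DirichletCharacter ℂ q) : f χ₁ χ₂ = f χ₂ χ₁ := by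
  rw [f, f, mul_comm χ₂ χ₁]
  ring

lemma f_prime_pow (χ₁ χ₂ : DirichletCharacter ℂ q) {p : ℕ} (hp : p.Prime) (k : ℕ) :
    f χ₁ χ₂ (p ^ k) = ∑ i ∈ Finset.range (k + 1),
      r χ₁ p i * (χ₂ (p : ZMod q) ^ (k - i) * r χ₁ p (k - i)) := by
  rw [f, mul_prime_pow _ _ hp]
  refine Finset.sum_congr rfl (fun i _ => ?_)
  rw [zeta_C _ hp, C_C _ _ hp]

lemma f_pp_nonneg_of {χ₁ χ₂ : DirichletCharacter ℂ q} (h1 : χ₁ ^ 2 = 1) {p : ℕ} (hp : p.Prime)
    (h : 0 ≤ χ₂ (p : ZMod q)) (k : ℕ) : 0 ≤ f χ₁ χ₂ (p ^ k) := by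
  rw [f_prime_pow _ _ hp]
  exact Finset.sum_nonneg fun i _ =>
    mul_nonneg (r_nonneg h1 hp i) (mul_nonneg (pow_nonneg h _) (r_nonneg h1 hp _))

lemma f_pp_nonneg {χ₁ χ₂ : DirichletCharacter ℂ q} (h1 : χ₁ ^ 2 = 1) (h2 : χ₂ ^ 2 = 1) {p : ℕ}
    (hp : p.Prime) (k : ℕ) : 0 ≤ f χ₁ χ₂ (p ^ k) := by
  rcases MulChar.isQuadratic_iff_sq_eq_one.mpr h2 p with h | h | h
  · exact f_pp_nonneg_of h1 hp (by rw [h]) k
  · exact f_pp_nonneg_of h1 hp (by rw [h]; exact zero_le_one) k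
  rcases MulChar.isQuadratic_iff_sq_eq_one.mpr h1 p with h' | h' | h'
  · rw [f_comm]; exact f_pp_nonneg_of h2 hp (by rw [h']) k
  · rw [f_comm]; exact f_pp_nonneg_of h2 hp (by rw [h']; exact zero_le_one) k
  · rw [f_prime_pow _ _ hp]
    refine Finset.sum_nonneg fun i _ => mul_nonneg (r_nonneg h1 hp i) ?_
    rw [h, r, h', neg_one_geom_sum]
    split_ifs with h3
    · rw [mul_zero]
    · have h4 : Even (k - i) := by
        rcases Nat.even_or_odd (k - i) with h5 | h5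
        · exact h5
        · exact absurd h5.add_one h3
      rw [h4.neg_one_pow, one_mul]
      exact zero_le_one

lemma f_mult (χ₁ χ₂ : DirichletCharacter ℂ q) : (f χ₁ χ₂).IsMultiplicative :=
  (isMultiplicative_zeta.natCast.mul (C_mult χ₁)).mul ((C_mult χ₂).mul (C_mult _))

lemma f_nonneg {χ₁ χ₂ : DirichletCharacter ℂ q} (h1 : χ₁ ^ 2 = 1) (h2 : χ₂ ^ 2 = 1) (n : ℕ) :
    0 ≤ f χ₁ χ₂ n := by
  rcases eq_or_ne n 0 with rfl | hn
  · simp only [ArithmeticFunction.map_zero, le_refl]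
  · rw [(f_mult χ₁ χ₂).multiplicative_factorization _ hn, Finsupp.prod]
    exact Finset.prod_nonneg fun p hp =>
      f_pp_nonneg h1 h2 (Nat.prime_of_mem_primeFactors (by simpa using hp)) _

lemma C_summable [NeZero q] (χ : DirichletCharacter ℂ q) {s : ℂ} (hs : 1 < s.re) :
    LSeriesSummable (fun n => C χ n) s :=
  (LSeriesSummable_congr s (fun {n} hn => C_apply χ hn)).2
    (LSeriesSummable_of_one_lt_re χ hs)

lemma C_LSeries [NeZero q] (χ : DirichletCharacter ℂ q) {s : ℂ} (hs : 1 < s.re) :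
    LSeries (fun n => C χ n) s = χ.LFunction s := by
  rw [LFunction_eq_LSeries χ hs]
  exact LSeries_congr (fun {n} hn => C_apply χ hn) s

end NNGM

open NNGM in
open scoped ComplexOrder in
theorem specNNG : SpecNNG := by
  intro q _ χ₁ χ₂ h1 h2
  have hnn := fun n => f_nonneg h1 h2 n
  have hre : ∀ n, (((f χ₁ χ₂ n).re : ℝ) : ℂ) = f χ₁ χ₂ n := fun n => by
    have := (Complex.nonneg_iff.1 (hnn n)).2
    apply Complex.ext
    · simp
    · simpa using this
  refine ⟨fun n => (f χ₁ χ₂ n).re, fun n => (Complex.nonneg_iff.1 (hnn n)).1, ?_, fun s hs => ?_⟩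
  · simp only []
    rw [(f_mult χ₁ χ₂).map_one]
    simp
  have hfun : (fun n : ℕ => (((f χ₁ χ₂ n).re : ℝ) : ℂ)) = fun n => f χ₁ χ₂ n := funext hre
  rw [hfun]
  have hz : LSeriesSummable (fun n => ((ArithmeticFunction.zeta : ArithmeticFunction ℕ) :
      ArithmeticFunction ℂ) n) s := by
    have := LSeriesSummable_zeta_iff.2 hs
    simpa only [natCoe_apply] using this
  have hzL : LSeries (fun n => ((ArithmeticFunction.zeta : ArithmeticFunction ℕ) :
      ArithmeticFunction ℂ) n) s = riemannZeta s := by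
    have := LSeries_zeta_eq_riemannZeta hs
    simpa only [natCoe_apply] using this
  have hs1 := LSeriesSummable_mul hz (C_summable χ₁ hs)
  have hs2 := LSeriesSummable_mul (C_summable χ₂ hs) (C_summable (χ₂ * χ₁) hs)
  refine ⟨LSeriesSummable_mul hs1 hs2, ?_⟩
  rw [f, LSeries_mul' hs1 hs2, LSeries_mul' hz (C_summable χ₁ hs),
    LSeries_mul' (C_summable χ₂ hs) (C_summable (χ₂ * χ₁) hs), hzL, C_LSeries _ hs,
    C_LSeries _ hs, C_LSeries _ hs, E4, mul_comm χ₂ χ₁]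
  ring

end Pool.Agent.Lib.SW
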