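import Pool.Agent.Lib.SW.Spec

/-!
# Lib/SW, module PRS (helper94): from `Λ` to primes
-/

set_option autoImplicit false

noncomputable section

namespace Pool.Agent.Lib.SW

open ArithmeticFunction DirichletCharacter MeasureTheory

namespace PRSM

/-! ### Abel's inequality -/

theorem abel {a A : ℕ → ℂ} (ha1 : A 1 = 0) (hA : ∀ n, 1 ≤ n → A (n + 1) = A n + a (n + 1))
    {S : ℝ} (N : ℕ) (hN : 2 ≤ N) (hS : ∀ n, 1 ≤ n → n ≤ N → ‖A n‖ ≤ S) :
    ‖∑ n ∈ Finset.Icc 2 N, a n * ((Real.log n)⁻¹ : ℝ)‖ ≤ S * (Real.log 2)⁻¹ := by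
  have hlog : ∀ n : ℕ, 2 ≤ n → 0 < Real.log n := fun n hn =>
    Real.log_pos (by exact_mod_cast (by omega : 1 < n))
  have key : ∀ M : ℕ, 2 ≤ M → M ≤ N →
      ‖∑ n ∈ Finset.Icc 2 M, a n * ((Real.log n)⁻¹ : ℝ) - A M * ((Real.log M)⁻¹ : ℝ)‖ ≤
        S * ((Real.log 2)⁻¹ - (Real.log M)⁻¹) := by
    intro M hM
    induction M, hM using Nat.le_induction with
    | base =>
      intro _
      have h2 : A 2 = a 2 := by
        have := hA 1 le_rfl
        rw [ha1, zero_add] at this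
        exact this
      rw [Finset.Icc_self, Finset.sum_singleton, h2, sub_self, norm_zero]
      have e : ((2 : ℕ) : ℝ) = 2 := by norm_num
      rw [e, sub_self, mul_zero]
    | succ M hM ih =>
      intro hMN
      have ih' := ih (by omega)
      have h1 : Finset.Icc 2 (M + 1) = insert (M + 1) (Finset.Icc 2 M) := by
        ext k
        simp only [Finset.mem_Icc, Finset.mem_insert]
        omega
      have h2 : M + 1 ∉ Finset.Icc 2 M := by
        simp only [Finset.mem_Icc]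
        omega
      rw [h1, Finset.sum_insert h2, hA M (by omega)]
      have e : a (M + 1) * ((Real.log ((M + 1 : ℕ) : ℝ))⁻¹ : ℝ) +
          ∑ n ∈ Finset.Icc 2 M, a n * ((Real.log n)⁻¹ : ℝ) -
          (A M + a (M + 1)) * ((Real.log ((M + 1 : ℕ) : ℝ))⁻¹ : ℝ) =
          (∑ n ∈ Finset.Icc 2 M, a n * ((Real.log n)⁻¹ : ℝ) - A M * ((Real.log M)⁻¹ : ℝ)) +
          A M * (((Real.log M)⁻¹ - (Real.log ((M + 1 : ℕ) : ℝ))⁻¹ : ℝ) : ℂ) := by
        push_cast
        ring
      rw [e]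
      have hdec : (Real.log ((M + 1 : ℕ) : ℝ))⁻¹ ≤ (Real.log M)⁻¹ := by
        apply inv_anti₀ (hlog M hM)
        apply Real.log_le_log (by exact_mod_cast (by omega : 0 < M))
        exact_mod_cast (by omega : M ≤ M + 1)
      have h3 : ‖A M * (((Real.log M)⁻¹ - (Real.log ((M + 1 : ℕ) : ℝ))⁻¹ : ℝ) : ℂ)‖ ≤
          S * ((Real.log M)⁻¹ - (Real.log ((M + 1 : ℕ) : ℝ))⁻¹) := by
        rw [norm_mul, Complex.norm_real, Real.norm_eq_abs, abs_of_nonneg (by linarith)]
        exact mul_le_mul_of_nonneg_right (hS M (by omega) (by omega)) (by linarith)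
      refine (norm_add_le _ _).trans ((add_le_add ih' h3).trans (le_of_eq ?_))
      ring
  have h1 := key N hN le_rfl
  have h2 : ‖A N * ((Real.log N)⁻¹ : ℝ)‖ ≤ S * (Real.log N)⁻¹ := by
    have h0 : 0 ≤ (Real.log N)⁻¹ := (inv_pos.2 (hlog N hN)).le
    rw [norm_mul, Complex.norm_real, Real.norm_eq_abs, abs_of_nonneg h0]
    exact mul_le_mul_of_nonneg_right (hS N (by omega) le_rfl) h0
  have e : ∑ n ∈ Finset.Icc 2 N, a n * ((Real.log n)⁻¹ : ℝ) =
      (∑ n ∈ Finset.Icc 2 N, a n * ((Real.log n)⁻¹ : ℝ) - A N * ((Real.log N)⁻¹ : ℝ)) +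
        A N * ((Real.log N)⁻¹ : ℝ) := by ring
  rw [e]
  refine (norm_add_le _ _).trans ((add_le_add h1 h2).trans (le_of_eq ?_))
  ring

/-! ### Prime powers -/

/-- the sum over the primes -/
def C {q : ℕ} (χ : DirichletCharacter ℂ q) (N : ℕ) : ℂ :=
  ∑ p ∈ (Finset.Icc 1 N).filter Nat.Prime, χ p * (Real.log p : ℂ)

theorem Icc_eq (N : ℕ) : Finset.Icc 1 N = Finset.Ioc 0 N := by
  ext k
  simp only [Finset.mem_Icc, Finset.mem_Ioc]
  omega

theorem psi_sub {q : ℕ} (χ : DirichletCharacter ℂ q) {x : ℝ} (hx : 1 ≤ x) :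
    ‖C χ ⌊x⌋₊‖ ≤ ‖∑ n ∈ Finset.Icc 1 ⌊x⌋₊, (vonMangoldt n : ℂ) * χ n‖ +
      2 * Real.sqrt x * Real.log x := by
  have h1 : ∑ n ∈ Finset.Icc 1 ⌊x⌋₊, (vonMangoldt n : ℂ) * χ n =
      C χ ⌊x⌋₊ + ∑ n ∈ (Finset.Icc 1 ⌊x⌋₊).filter (fun n => ¬ n.Prime), (vonMangoldt n : ℂ) * χ n := by
    rw [← Finset.sum_filter_add_sum_filter_not (Finset.Icc 1 ⌊x⌋₊) Nat.Prime]
    have h2 : ∑ n ∈ (Finset.Icc 1 ⌊x⌋₊).filter Nat.Prime, (vonMangoldt n : ℂ) * χ n =
        C χ ⌊x⌋₊ := by
      refine Finset.sum_congr rfl fun p hp => ?_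
      rw [vonMangoldt_apply_prime (Finset.mem_filter.1 hp).2, mul_comm]
    rw [h2]
  have h3 : ‖∑ n ∈ (Finset.Icc 1 ⌊x⌋₊).filter (fun n => ¬ n.Prime), (vonMangoldt n : ℂ) * χ n‖ ≤
      2 * Real.sqrt x * Real.log x := by
    refine le_trans ?_ (Chebyshev.psi_sub_theta_le hx)
    rw [Chebyshev.psi_sub_theta_eq_sum_not_prime, ← Icc_eq]
    refine (norm_sum_le _ _).trans (Finset.sum_le_sum fun n _ => ?_)
    rw [norm_mul, Complex.norm_real, Real.norm_eq_abs, abs_of_nonneg vonMangoldt_nonneg]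
    exact mul_le_of_le_one_right vonMangoldt_nonneg (χ.norm_le_one _)
  have h4 : C χ ⌊x⌋₊ = ∑ n ∈ Finset.Icc 1 ⌊x⌋₊, (vonMangoldt n : ℂ) * χ n -
      ∑ n ∈ (Finset.Icc 1 ⌊x⌋₊).filter (fun n => ¬ n.Prime), (vonMangoldt n : ℂ) * χ n := by
    rw [h1]
    ring
  rw [h4]
  exact (norm_sub_le _ _).trans (add_le_add le_rfl h3)

theorem triv {q : ℕ} (χ : DirichletCharacter ℂ q) (N : ℕ) : ‖C χ N‖ ≤ 2 * (N : ℝ) := by
  have h1 : ‖C χ N‖ ≤ Chebyshev.theta N := by
    unfold C Chebyshev.theta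
    rw [Nat.floor_natCast, ← Icc_eq]
    refine (norm_sum_le _ _).trans (Finset.sum_le_sum fun p hp => ?_)
    have hp1 : 1 ≤ p := (Finset.mem_Icc.1 (Finset.mem_filter.1 hp).1).1
    have h0 : 0 ≤ Real.log p := Real.log_nonneg (by exact_mod_cast hp1)
    rw [norm_mul, Complex.norm_real, Real.norm_eq_abs, abs_of_nonneg h0]
    exact mul_le_of_le_one_left h0 (χ.norm_le_one _)
  have h2 := Chebyshev.theta_le_log4_mul_x (x := (N : ℝ)) (Nat.cast_nonneg N)
  have h3 : Real.log 4 ≤ 2 := by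
    have h4 : Real.log 4 = 2 * Real.log 2 := by
      rw [(by norm_num : (4 : ℝ) = 2 ^ 2), Real.log_pow]
      norm_num
    have := Real.log_two_lt_d9
    rw [h4]
    linarith
  have h5 : Real.log 4 * (N : ℝ) ≤ 2 * (N : ℝ) := mul_le_mul_of_nonneg_right h3 (Nat.cast_nonneg N)
  linarith

/-- `2 sqrt t log t ≤ t e^(-T/4)` -/
theorem small {T t : ℝ} (hT : 30 ≤ T) (ht : 0 < t) (hl : 2 * T ≤ Real.log t) :
    2 * Real.sqrt t * Real.log t ≤ t * Real.exp (-(T / 4)) := by
  obtain ⟨y, hy⟩ : ∃ y, y = Real.log t := ⟨_, rfl⟩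
  rw [← hy] at hl ⊢
  have ht1 : t = Real.exp y := by rw [hy, Real.exp_log ht]
  have hs : Real.sqrt t = Real.exp (y / 2) := by
    rw [ht1, ← Real.exp_half]
  have h1 : t * Real.exp (-(T / 4)) = Real.exp (y / 2) * Real.exp (y / 2 - T / 4) := by
    rw [ht1, ← Real.exp_add, ← Real.exp_add]
    congr 1
    ring
  have h2 : 2 * y ≤ Real.exp (y / 2 - T / 4) := by
    have h3 : Real.exp (3 * y / 8) ≤ Real.exp (y / 2 - T / 4) := by
      apply Real.exp_le_exp.2
      linarith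
    have h4 := Real.quadratic_le_exp_of_nonneg (x := 3 * y / 8) (by linarith)
    nlinarith
  rw [hs, h1]
  have h5 : 0 < Real.exp (y / 2) := Real.exp_pos _
  nlinarith

end PRSM

open PRSM in
/-- **PRS.** -/
theorem specPRS (hUNS : SpecUNS) : SpecPRS := by
  obtain ⟨T₀, hT₀⟩ := hUNS
  refine ⟨max T₀ 30, ?_⟩
  intro T hT q _ hq hG χ hχ x hx0 hx1 hx2
  have hT0 : T₀ ≤ T := le_trans (le_max_left _ _) hT
  have hT30 : 30 ≤ T := le_trans (le_max_right _ _) hT
  have hTpos : 0 < T := by linarith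
  have hT1 : 1 ≤ T := by linarith
  have h47 : 0 < T ^ 47 := by positivity
  have hp1 : T ≤ T ^ 47 := by
    calc T = T ^ 1 := (pow_one T).symm
      _ ≤ T ^ 47 := pow_le_pow_right₀ hT1 (by norm_num)
  have hp48 : T ^ 47 + T ≤ T ^ 48 := by
    have h2 : T ^ 48 = T * T ^ 47 := by ring
    nlinarith
  have h2T : 2 * T ≤ T ^ 47 := by
    have h1 : T ^ 2 ≤ T ^ 47 := pow_le_pow_right₀ hT1 (by norm_num)
    nlinarith
  have hlx : 1 < Real.log x := by linarith
  have hxe : 1 ≤ x := by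
    by_contra hcon
    push Not at hcon
    have := Real.log_nonpos hx0.le hcon.le
    linarith
  have hx2' : 2 ≤ x := by
    by_contra hcon
    push Not at hcon
    have h1 := Real.log_le_sub_one_of_pos hx0
    linarith
  have key : ∀ t : ℝ, 1 ≤ t → T ^ 47 ≤ Real.log t → Real.log t ≤ T ^ 59 →
      ‖C χ ⌊t⌋₊‖ ≤ 2 * t * Real.exp (-(T / 4)) := by
    intro t ht1 h47' h59
    have h1 := psi_sub χ ht1
    have h2 := hT₀ T hT0 q hq hG χ hχ t (by linarith) h47' h59
    have h3 := small (t := t) hT30 (by linarith) (h2T.trans h47')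
    linarith
  -- `4 e^(-T/4) ≤ e^(-T/5)`
  have hexp : 4 * Real.exp (-(T / 4)) ≤ Real.exp (-(T / 5)) := by
    have h1 : Real.exp (-(T / 5)) = Real.exp (T / 20) * Real.exp (-(T / 4)) := by
      rw [← Real.exp_add]
      congr 1
      ring
    have h2 : 4 ≤ Real.exp (T / 20) := by
      have h3 : Real.exp (1.5 : ℝ) ≤ Real.exp (T / 20) := Real.exp_le_exp.2 (by linarith)
      have h4 : (4 : ℝ) ≤ Real.exp (1.5 : ℝ) := by
        have h5 : Real.exp (1.5 : ℝ) = Real.exp 1 * Real.exp (1 / 2) := by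
          rw [← Real.exp_add]
          norm_num
        have h6 := Real.exp_one_gt_d9
        have h7 := Real.quadratic_le_exp_of_nonneg (x := (1 / 2 : ℝ)) (by norm_num)
        rw [h5]
        nlinarith
      linarith
    rw [h1]
    exact mul_le_mul_of_nonneg_right h2 (Real.exp_pos _).le
  have hE : 0 < Real.exp (-(T / 4)) := Real.exp_pos _
  constructor
  · have h1 := key x hxe (by linarith) hx2
    have h2 : 2 * x * Real.exp (-(T / 4)) ≤ x * Real.exp (-(T / 5)) := by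
      nlinarith [mul_pos hx0 hE]
    exact h1.trans h2
  · have hN2 : 2 ≤ ⌊x⌋₊ := Nat.le_floor (by exact_mod_cast hx2')
    -- all partial sums
    have hS : ∀ n : ℕ, 1 ≤ n → n ≤ ⌊x⌋₊ → ‖C χ n‖ ≤ 2 * x * Real.exp (-(T / 4)) := by
      intro n hn1 hnN
      have hnx : (n : ℝ) ≤ x := (Nat.le_floor_iff hx0.le).1 hnN
      have hn0 : (0 : ℝ) < n := by exact_mod_cast hn1
      rcases le_or_gt (n : ℝ) (x * Real.exp (-(T / 4))) with hs | hs
      · refine (triv χ n).trans ?_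
        linarith
      · have hl1 : Real.log x - T / 4 < Real.log n := by
          have h3 := Real.log_lt_log (mul_pos hx0 hE) hs
          rw [Real.log_mul hx0.ne' hE.ne', Real.log_exp] at h3
          linarith
        have hl2 : Real.log n ≤ Real.log x := Real.log_le_log hn0 hnx
        have h4 := key n (by exact_mod_cast hn1) (by linarith) (hl2.trans hx2)
        rw [Nat.floor_natCast] at h4
        refine h4.trans ?_
        nlinarith [mul_le_mul_of_nonneg_right hnx hE.le]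
    have hab := abel (a := fun n => if n.Prime then χ n * (Real.log n : ℂ) else 0) (A := C χ)
      (by
        unfold C
        rw [Finset.sum_filter, Finset.Icc_self, Finset.sum_singleton, if_neg Nat.not_prime_one])
      (by
        intro n hn
        unfold C
        rw [Finset.sum_filter, Finset.sum_filter]
        have h1 : Finset.Icc 1 (n + 1) = insert (n + 1) (Finset.Icc 1 n) := by
          ext k
          simp only [Finset.mem_Icc, Finset.mem_insert]
          omega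
        have h2 : n + 1 ∉ Finset.Icc 1 n := by
          simp only [Finset.mem_Icc]
          omega
        rw [h1, Finset.sum_insert h2, add_comm]) ⌊x⌋₊ hN2 hS
    have hsum : ∑ p ∈ (Finset.Icc 1 ⌊x⌋₊).filter Nat.Prime, χ p =
        ∑ n ∈ Finset.Icc 2 ⌊x⌋₊, (if n.Prime then χ n * (Real.log n : ℂ) else 0) *
          ((Real.log n)⁻¹ : ℝ) := by
      rw [Finset.sum_filter]
      have h1 : Finset.Icc 1 ⌊x⌋₊ = insert 1 (Finset.Icc 2 ⌊x⌋₊) := by
        ext k
        simp only [Finset.mem_Icc, Finset.mem_insert]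
        omega
      have h2 : 1 ∉ Finset.Icc 2 ⌊x⌋₊ := by
        simp only [Finset.mem_Icc]
        omega
      rw [h1, Finset.sum_insert h2, if_neg Nat.not_prime_one, zero_add]
      refine Finset.sum_congr rfl fun n _ => ?_
      by_cases hp : n.Prime
      · rw [if_pos hp, if_pos hp]
        have h3 : (Real.log n : ℂ) ≠ 0 := by
          have := Real.log_pos (x := (n : ℝ)) (by exact_mod_cast hp.one_lt)
          exact_mod_cast this.ne'
        rw [Complex.ofReal_inv, mul_assoc, mul_inv_cancel₀ h3, mul_one]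
      · rw [if_neg hp, if_neg hp, zero_mul]
    rw [hsum]
    refine hab.trans ?_
    have hl2 : (Real.log 2)⁻¹ ≤ 2 := by
      rw [inv_le_comm₀ (Real.log_pos (by norm_num)) (by norm_num)]
      have := Real.log_two_gt_d9
      norm_num at this ⊢
      linarith
    have h5 : 2 * x * Real.exp (-(T / 4)) * (Real.log 2)⁻¹ ≤ 2 * x * Real.exp (-(T / 4)) * 2 :=
      mul_le_mul_of_nonneg_left hl2 (by positivity)
    refine h5.trans ?_
    nlinarith

end Pool.Agent.Lib.SW
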