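import Pool.Agent.Lib.SW.Spec
import Pool.Agent.Lib.LP.PER
import Pool.Agent.Lib.LP.CONT

/-!
# SW, module REA: `L(s, χ)` for real characters and real `s`
-/

set_option autoImplicit false

noncomputable section

namespace Pool.Agent.Lib.SW

open ArithmeticFunction DirichletCharacter MeasureTheory Filter Topology

namespace REAM

theorem char_im {q : ℕ} (χ : DirichletCharacter ℂ q) (h : χ ^ 2 = 1) (a : ZMod q) :
    (χ a).im = 0 := by
  by_cases ha : IsUnit a
  · have h1 : χ a ^ 2 = 1 := by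
      rw [← MulChar.pow_apply' χ (by norm_num) a, h, MulChar.one_apply ha]
    rw [sq, mul_self_eq_one_iff] at h1
    rcases h1 with h1 | h1 <;> simp [h1]
  · rw [χ.map_nonunit ha, Complex.zero_im]

theorem im_eq_zero (q : ℕ) [NeZero q] (χ : DirichletCharacter ℂ q) (hχ : χ ≠ 1) (h : χ ^ 2 = 1)
    (s : ℝ) (hs : 0 < s) : (χ.LFunction s).im = 0 := by
  have h1 := LP.specCON LP.specPER q χ hχ (s : ℂ) (by simpa using hs)
  have h2 : ∀ u ∈ Set.Ioi (1 : ℝ), (∑ k ∈ Finset.Icc 1 ⌊u⌋₊, χ (k : ZMod q)) *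
      (u : ℂ) ^ (-((s : ℂ) + 1)) =
      (((∑ k ∈ Finset.Icc 1 ⌊u⌋₊, (χ (k : ZMod q)).re) * u ^ (-(s + 1)) : ℝ) : ℂ) := by
    intro u hu
    have hu0 : 0 ≤ u := by
      have : (1 : ℝ) < u := hu
      linarith
    rw [Complex.ofReal_mul, Complex.ofReal_cpow hu0, Complex.ofReal_sum]
    congr 1
    · refine Finset.sum_congr rfl fun k _ => ?_
      exact Complex.ext (by simp) (by simp [char_im χ h])
    · push_cast
      rfl
  rw [h1, setIntegral_congr_fun measurableSet_Ioi h2, integral_complex_ofReal, ← Complex.ofReal_mul,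
    Complex.ofReal_im]

theorem ev_pos (q : ℕ) [NeZero q] (χ : DirichletCharacter ℂ q) :
    ∀ᶠ x : ℝ in atTop, 0 < (χ.LFunction x).re := by
  have h1 : LSeries.abscissaOfAbsConv (fun n : ℕ => χ n) < ⊤ := by
    refine lt_of_le_of_lt (LSeries.abscissaOfAbsConv_le_of_forall_lt_LSeriesSummable
      (x := 1) fun y hy => ?_) (EReal.coe_lt_top 1)
    exact χ.LSeriesSummable_of_one_lt_re (by simpa using hy)
  have h2 := LSeries.tendsto_atTop h1
  have h3 : Tendsto (fun x : ℝ => (LSeries (fun n : ℕ => χ n) x).re) atTop (𝓝 1) := by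
    have h4 := (Complex.continuous_re.tendsto _).comp h2
    simpa [Function.comp_def] using h4
  filter_upwards [h3.eventually (lt_mem_nhds one_pos), eventually_gt_atTop 1] with x hx hx1
  rw [χ.LFunction_eq_LSeries (by simpa using hx1)]
  exact hx

end REAM

open REAM in
theorem specREA : SpecREA := by
  intro q _ χ hχ h
  refine ⟨fun s hs => im_eq_zero q χ hχ h s hs, fun β hβ hnz => ?_⟩
  have hne : ∀ s : ℝ, β ≤ s → (χ.LFunction s).re ≠ 0 := by
    intro s hs h0
    have h1 : χ.LFunction s = 0 :=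
      Complex.ext (by simpa using h0) (by simpa using im_eq_zero q χ hχ h s (hβ.trans_le hs))
    rcases lt_or_ge s 1 with h2 | h2
    · exact hnz s hs h2 h1
    · exact χ.LFunction_ne_zero_of_one_le_re (Or.inl hχ) (by simpa using h2) h1
  obtain ⟨x, hx⟩ := ((ev_pos q χ).and (eventually_ge_atTop β)).exists
  by_contra hcon
  have h1 : (χ.LFunction β).re < 0 := lt_of_le_of_ne (not_lt.1 hcon) (hne β le_rfl)
  have hcont : ContinuousOn (fun s : ℝ => (χ.LFunction (s : ℂ)).re) (Set.Icc β x) := by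
    have h2 : Continuous χ.LFunction := (χ.differentiable_LFunction hχ).continuous
    exact (Complex.continuous_re.comp (h2.comp Complex.continuous_ofReal)).continuousOn
  obtain ⟨s, hs, hs0⟩ := intermediate_value_Icc hx.2 hcont (show (0 : ℝ) ∈ _ from ⟨h1.le, hx.1.le⟩)
  exact hne s hs.1 hs0

end Pool.Agent.Lib.SW
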