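import Pool.Agent.Lib.SW.Spec
import Pool.Agent.Lib.LP.UB
import Pool.Agent.Lib.LP.CONT
import Pool.Agent.Lib.LP.PER
import Pool.Agent.Lib.LP.CHL
import Pool.Agent.Lib.LP.SIG

/-! # SW, module SGL (helper82): Siegel's theorem -/

set_option autoImplicit false

noncomputable section

namespace Pool.Agent.Lib.SW

open ArithmeticFunction DirichletCharacter MeasureTheory
open Pool.Agent.Lib.LP (G F)

namespace SGLM

theorem L1_le (q : ℕ) [NeZero q] (χ : DirichletCharacter ℂ q) (h : χ ≠ 1) :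
    ‖χ.LFunction 1‖ ≤ 9 * (1 + Real.log q) := by
  have hq1 : (1 : ℝ) ≤ q := by exact_mod_cast Nat.one_le_iff_ne_zero.2 (NeZero.ne q)
  have hL : 0 ≤ Real.log q := Real.log_nonneg hq1
  have h1 := LP.specUB LP.specPER (LP.specCON LP.specPER) q χ h 1 (by
    rw [Complex.one_re]
    norm_num) (by
    rw [Complex.one_re]
    have : 0 ≤ 1 / (1 + Real.log q) := by positivity
    linarith)
  rw [norm_one, mul_one] at h1
  exact h1

theorem log_cube (ε : ℝ) (hε : 0 < ε) (q : ℕ) (hq : 1 ≤ q) :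
    (1 + Real.log q) ^ 3 ≤ (1 + 6 / ε) ^ 3 * (q : ℝ) ^ (ε / 2) := by
  have hq1 : (1 : ℝ) ≤ q := by exact_mod_cast hq
  have hL : 0 ≤ Real.log q := Real.log_nonneg hq1
  have h1 : Real.log q ≤ (q : ℝ) ^ (ε / 6) / (ε / 6) :=
    Real.log_le_rpow_div (by linarith) (by positivity)
  have h2 : 1 ≤ (q : ℝ) ^ (ε / 6) := Real.one_le_rpow hq1 (by positivity)
  have h3 : 1 + Real.log q ≤ (1 + 6 / ε) * (q : ℝ) ^ (ε / 6) := by
    have e : (q : ℝ) ^ (ε / 6) / (ε / 6) = 6 / ε * (q : ℝ) ^ (ε / 6) := by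
      field_simp
    rw [e] at h1
    linarith
  have h4 := pow_le_pow_left₀ (by linarith) h3 3
  have h5 : ((q : ℝ) ^ (ε / 6)) ^ 3 = (q : ℝ) ^ (ε / 2) := by
    rw [← Real.rpow_natCast, ← Real.rpow_mul (by linarith)]
    congr 1
    push_cast
    ring
  rw [mul_pow, h5] at h4
  exact h4

/-- the exceptional (or auxiliary) data. -/
def Data (η β : ℝ) (q₁ : ℕ) [NeZero q₁] (χ₁ : DirichletCharacter ℂ q₁) : Prop :=
  χ₁ ≠ 1 ∧ χ₁ ^ 2 = 1 ∧ 1 - η ≤ β ∧ β < 1 ∧ (χ₁.LFunction β = 0 ∨ (β = 1 - η ∧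
    ∀ (q : ℕ) [NeZero q] (χ : DirichletCharacter ℂ q), χ ≠ 1 → χ ^ 2 = 1 → ∀ s : ℝ, 1 - η ≤ s →
      s < 1 → χ.LFunction s ≠ 0))

theorem zeta_neg (hZET : SpecZET) (β : ℝ) (h1 : 39 / 40 ≤ β) (h2 : β < 1) :
    (riemannZeta β).re ≤ 0 := by
  obtain ⟨Z, -, hZ2, hZ3⟩ := hZET
  have hb0 : 0 < β := by linarith
  have hre : 0 < ((β : ℝ) : ℂ).re := by
    rw [Complex.ofReal_re]
    exact hb0
  have hne : ((β : ℝ) : ℂ) ≠ 1 := by
    intro h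
    have : β = 1 := by exact_mod_cast h
    linarith
  rw [hZ2 _ hre hne]
  have h3 := hZ3 _ hre
  rw [Complex.norm_real, Complex.ofReal_re, Real.norm_of_nonneg hb0.le, div_self hb0.ne'] at h3
  have h4 : (Z β).re ≤ 2 := (Complex.re_le_norm _).trans (by linarith)
  have h5 : (1 / ((β : ℂ) - 1)).re = 1 / (β - 1) := by
    rw [show (1 / ((β : ℂ) - 1)) = ((1 / (β - 1) : ℝ) : ℂ) by push_cast; rfl, Complex.ofReal_re]
  rw [Complex.add_re, h5]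
  have h6 : 1 / (β - 1) ≤ -40 := by
    rw [div_le_iff_of_neg (by linarith)]
    linarith
  linarith

/-- `Re E4(β) ≤ 0`. -/
theorem E4_nonpos (hZET : SpecZET) (hREA : SpecREA) (η β : ℝ) (hη : η ≤ 1 / 40)
    (q₁ : ℕ) [NeZero q₁] (χ₁ : DirichletCharacter ℂ q₁) (hD : Data η β q₁ χ₁)
    (q : ℕ) [NeZero q] (h : q₁ ∣ q) (χ₂ : DirichletCharacter ℂ q) (h2 : χ₂ ≠ 1)
    (h22 : χ₂ ^ 2 = 1) (hne : changeLevel h χ₁ ≠ χ₂) :
    (E4 (changeLevel h χ₁) χ₂ β).re ≤ 0 := by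
  obtain ⟨h1, h12, hβ1, hβ2, hc⟩ := hD
  have h1' : changeLevel h χ₁ ≠ 1 := fun h' => h1 ((changeLevel_eq_one_iff h).1 h')
  have h12' : (changeLevel h χ₁) ^ 2 = 1 := by
    rw [← map_pow, h12, map_one]
  have h3 : changeLevel h χ₁ * χ₂ ≠ 1 := by
    intro h'
    apply hne
    have h4 : changeLevel h χ₁ * χ₂ * χ₂ = χ₂ := by rw [h', one_mul]
    rwa [mul_assoc, ← sq, h22, mul_one] at h4
  have h32 : (changeLevel h χ₁ * χ₂) ^ 2 = 1 := by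
    rw [mul_pow, h12', h22, mul_one]
  rcases hc with hc | ⟨hβ, hc⟩
  · have h5 : (changeLevel h χ₁).LFunction β = 0 := by
      rw [LFunction_changeLevel h χ₁ (Or.inl h1), hc, zero_mul]
    rw [E4, h5]
    simp
  · have hb0 : 0 < β := by linarith
    have hP : ∀ χ : DirichletCharacter ℂ q, χ ≠ 1 → χ ^ 2 = 1 →
        ∃ r : ℝ, 0 < r ∧ χ.LFunction β = r := by
      intro χ hχ hχ2
      obtain ⟨h6, h7⟩ := hREA q χ hχ hχ2
      refine ⟨(χ.LFunction β).re, h7 β hb0 (fun s hs1 hs2 => hc q χ hχ hχ2 s (by linarith) hs2), ?_⟩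
      apply Complex.ext
      · rw [Complex.ofReal_re]
      · rw [Complex.ofReal_im]
        exact h6 β hb0
    obtain ⟨r1, hr1, e1⟩ := hP _ h1' h12'
    obtain ⟨r2, hr2, e2⟩ := hP _ h2 h22
    obtain ⟨r3, hr3, e3⟩ := hP _ h3 h32
    rw [E4, e1, e2, e3, Complex.re_mul_ofReal, Complex.re_mul_ofReal, Complex.re_mul_ofReal]
    have h8 := zeta_neg hZET β (by linarith) hβ2
    have h9 : 0 < r1 * r2 * r3 := by positivity
    nlinarith [mul_nonneg_of_nonpos_of_nonpos h8 (neg_nonpos.2 h9.le)]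

/-- The main estimate. -/
theorem main (hZET : SpecZET) (hEST : SpecEST) (hREA : SpecREA) (ε β : ℝ) (hε : 0 < ε)
    (hε1 : ε ≤ 1) (q₁ : ℕ) [NeZero q₁] (χ₁ : DirichletCharacter ℂ q₁)
    (hD : Data (ε / 40) β q₁ χ₁) (q : ℕ) [NeZero q] (χ : DirichletCharacter ℂ q) (hχ : χ ≠ 1)
    (hχ2 : χ ^ 2 = 1) :
    min (‖χ₁.LFunction 1‖ / (2 * (1 + 6 / ε) ^ 3))
      (1 / (2 * (Real.exp 8 / (1 - β) * 81 * (1 + 6 / ε) ^ 3))) * (q₁ : ℝ) ^ (-ε) *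
      (q : ℝ) ^ (-ε) ≤ ‖χ.LFunction 1‖ := by
  obtain ⟨h1, h12, hβ1, hβ2, hc⟩ := id hD
  have hD' := hD
  haveI : NeZero (q₁ * q) := ⟨mul_ne_zero (NeZero.ne q₁) (NeZero.ne q)⟩
  have hd1 : q₁ ∣ q₁ * q := dvd_mul_right _ _
  have hd2 : q ∣ q₁ * q := dvd_mul_left _ _
  have hQ1 : 1 ≤ q₁ * q := Nat.one_le_iff_ne_zero.2 (NeZero.ne _)
  have hQ1' : (1 : ℝ) ≤ ((q₁ * q : ℕ) : ℝ) := by exact_mod_cast hQ1
  have hQ0 : (0 : ℝ) < ((q₁ * q : ℕ) : ℝ) := by linarith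
  have hl : 0 ≤ Real.log ((q₁ * q : ℕ) : ℝ) := Real.log_nonneg hQ1'
  set Q : ℝ := ((q₁ * q : ℕ) : ℝ) with hQ
  set l : ℝ := Real.log Q with hldef
  set K : ℝ := (1 + 6 / ε) ^ 3 with hK
  have hK0 : 0 < K := by positivity
  have hcube : (1 + l) ^ 3 ≤ K * Q ^ (ε / 2) := log_cube ε hε (q₁ * q) hQ1
  have hsplit : (q₁ : ℝ) ^ (-ε) * (q : ℝ) ^ (-ε) = Q ^ (-ε) := by
    rw [hQ, Nat.cast_mul, Real.mul_rpow (Nat.cast_nonneg _) (Nat.cast_nonneg _)]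
  rw [mul_assoc, hsplit]
  have hQe : Q ^ (-ε) * Q ^ ε = 1 := by
    rw [← Real.rpow_add hQ0, neg_add_cancel, Real.rpow_zero]
  have hQe0 : 0 < Q ^ (-ε) := Real.rpow_pos_of_pos hQ0 _
  have hQh1 : 1 ≤ Q ^ (ε / 2) := Real.one_le_rpow hQ1' (by positivity)
  have hQhh : Q ^ (ε / 2) * Q ^ (ε / 2) = Q ^ ε := by
    rw [← Real.rpow_add hQ0]
    congr 1
    ring
  have hN : 0 ≤ ‖χ.LFunction 1‖ := norm_nonneg _
  obtain ⟨hc1, hc1'⟩ := LP.specCHL LP.specSIG q₁ (q₁ * q) hd1 χ₁ h1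
  obtain ⟨hc2, hc2'⟩ := LP.specCHL LP.specSIG q (q₁ * q) hd2 χ hχ
  have h2' : changeLevel hd2 χ ≠ 1 := fun h' => hχ ((changeLevel_eq_one_iff hd2).1 h')
  have h1' : changeLevel hd1 χ₁ ≠ 1 := fun h' => h1 ((changeLevel_eq_one_iff hd1).1 h')
  have h22' : (changeLevel hd2 χ) ^ 2 = 1 := by
    rw [← map_pow, hχ2, map_one]
  have h12' : (changeLevel hd1 χ₁) ^ 2 = 1 := by
    rw [← map_pow, h12, map_one]
  by_cases heq : changeLevel hd1 χ₁ = changeLevel hd2 χ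
  · -- case (a)
    have hA : ‖χ₁.LFunction 1‖ ≤ 2 * K * Q ^ ε * ‖χ.LFunction 1‖ := by
      rw [heq] at hc1'
      have h3 : ‖χ₁.LFunction 1‖ ≤ 2 * (1 + l) * ((1 + l) * ‖χ.LFunction 1‖) :=
        hc1'.trans (mul_le_mul_of_nonneg_left hc2 (by positivity))
      have h4 : (1 + l) ^ 2 ≤ K * Q ^ ε := by
        have h5 : (1 + l) ^ 2 ≤ (1 + l) ^ 3 := pow_le_pow_right₀ (by linarith) (by norm_num)
        have h6 : K * Q ^ (ε / 2) ≤ K * Q ^ ε := by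
          rw [← hQhh]
          apply mul_le_mul_of_nonneg_left _ hK0.le
          nlinarith
        linarith
      calc ‖χ₁.LFunction 1‖ ≤ 2 * (1 + l) ^ 2 * ‖χ.LFunction 1‖ := by
            refine h3.trans (le_of_eq ?_)
            ring
        _ ≤ 2 * (K * Q ^ ε) * ‖χ.LFunction 1‖ := by
            apply mul_le_mul_of_nonneg_right _ hN
            linarith
        _ = 2 * K * Q ^ ε * ‖χ.LFunction 1‖ := by ring
    have h7 : min (‖χ₁.LFunction 1‖ / (2 * K)) (1 / (2 * (Real.exp 8 / (1 - β) * 81 * K))) *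
        Q ^ (-ε) ≤ ‖χ₁.LFunction 1‖ / (2 * K) * Q ^ (-ε) :=
      mul_le_mul_of_nonneg_right (min_le_left _ _) hQe0.le
    refine h7.trans ?_
    have h8 : ‖χ₁.LFunction 1‖ / (2 * K) ≤ Q ^ ε * ‖χ.LFunction 1‖ := by
      rw [div_le_iff₀ (by positivity)]
      linarith
    calc ‖χ₁.LFunction 1‖ / (2 * K) * Q ^ (-ε) ≤ Q ^ ε * ‖χ.LFunction 1‖ * Q ^ (-ε) :=
          mul_le_mul_of_nonneg_right h8 hQe0.le
      _ = (Q ^ (-ε) * Q ^ ε) * ‖χ.LFunction 1‖ := by ring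
      _ = ‖χ.LFunction 1‖ := by rw [hQe, one_mul]
  · -- case (b)
    have h3 : changeLevel hd1 χ₁ * changeLevel hd2 χ ≠ 1 := by
      intro h'
      apply heq
      have h4 : changeLevel hd1 χ₁ * changeLevel hd2 χ * changeLevel hd2 χ =
          changeLevel hd2 χ := by rw [h', one_mul]
      rwa [mul_assoc, ← sq, h22', mul_one] at h4
    have hE := E4_nonpos hZET hREA (ε / 40) β (by linarith) q₁ χ₁ hD' (q₁ * q) hd1
      (changeLevel hd2 χ) h2' h22' heq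
    have hes := hEST (q₁ * q) (changeLevel hd1 χ₁) (changeLevel hd2 χ) h1' h2' heq h12' h22' β
      (by linarith) hβ2
    have hu1 := L1_le (q₁ * q) _ h1'
    have hu3 := L1_le (q₁ * q) _ h3
    have hb : 0 < 1 - β := by linarith
    have hQb : Q ^ (18 * (1 - β)) ≤ Q ^ (ε / 2) :=
      Real.rpow_le_rpow_of_exponent_le hQ1' (by linarith)
    set L1 : ℝ := ‖(changeLevel hd1 χ₁).LFunction 1‖ with hL1
    set L2 : ℝ := ‖(changeLevel hd2 χ).LFunction 1‖ with hL2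
    set L3 : ℝ := ‖(changeLevel hd1 χ₁ * changeLevel hd2 χ).LFunction 1‖ with hL3
    have hL10 : 0 ≤ L1 := norm_nonneg _
    have hL20 : 0 ≤ L2 := norm_nonneg _
    have hL30 : 0 ≤ L3 := norm_nonneg _
    have hprod : L1 * L2 * L3 ≤ 81 * (1 + l) ^ 3 * ‖χ.LFunction 1‖ := by
      calc L1 * L2 * L3 ≤ (9 * (1 + l)) * ((1 + l) * ‖χ.LFunction 1‖) * (9 * (1 + l)) := by
            apply mul_le_mul (mul_le_mul hu1 hc2 hL20 (by positivity)) hu3 hL30 (by positivity)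
        _ = 81 * (1 + l) ^ 3 * ‖χ.LFunction 1‖ := by ring
    have hmain : 1 / 2 ≤ Real.exp 8 / (1 - β) * 81 * K * Q ^ ε * ‖χ.LFunction 1‖ := by
      have h5 : 1 / 2 ≤ Real.exp 8 * Q ^ (18 * (1 - β)) / (1 - β) * (L1 * L2 * L3) := by
        linarith
      refine h5.trans ?_
      have h6 : Real.exp 8 * Q ^ (18 * (1 - β)) / (1 - β) * (L1 * L2 * L3) ≤
          Real.exp 8 * Q ^ (ε / 2) / (1 - β) * (81 * (K * Q ^ (ε / 2)) * ‖χ.LFunction 1‖) := by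
        apply mul_le_mul _ _ (by positivity) (by positivity)
        · apply div_le_div_of_nonneg_right _ hb.le
          exact mul_le_mul_of_nonneg_left hQb (Real.exp_pos _).le
        · refine hprod.trans ?_
          apply mul_le_mul_of_nonneg_right _ hN
          linarith
      refine h6.trans (le_of_eq ?_)
      rw [← hQhh]
      ring
    set M : ℝ := Real.exp 8 / (1 - β) * 81 * K with hM
    have hM0 : 0 < M := by positivity
    have h7 : min (‖χ₁.LFunction 1‖ / (2 * K)) (1 / (2 * M)) * Q ^ (-ε) ≤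
        1 / (2 * M) * Q ^ (-ε) :=
      mul_le_mul_of_nonneg_right (min_le_right _ _) hQe0.le
    refine h7.trans ?_
    have h8 : 1 / (2 * M) ≤ Q ^ ε * ‖χ.LFunction 1‖ := by
      rw [div_le_iff₀ (by positivity)]
      linarith
    calc 1 / (2 * M) * Q ^ (-ε) ≤ Q ^ ε * ‖χ.LFunction 1‖ * Q ^ (-ε) :=
          mul_le_mul_of_nonneg_right h8 hQe0.le
      _ = (Q ^ (-ε) * Q ^ ε) * ‖χ.LFunction 1‖ := by ring
      _ = ‖χ.LFunction 1‖ := by rw [hQe, one_mul]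

theorem small (hZET : SpecZET) (hEST : SpecEST) (hREA : SpecREA) (ε : ℝ) (hε : 0 < ε)
    (hε1 : ε ≤ 1) : ∃ c : ℝ, 0 < c ∧ ∀ (q : ℕ) [NeZero q]
    (χ : DirichletCharacter ℂ q), χ ≠ 1 → χ ^ 2 = 1 → c * (q : ℝ) ^ (-ε) ≤ ‖χ.LFunction 1‖ := by
  by_cases hex : ∃ (q₁ : ℕ) (_ : NeZero q₁) (χ₁ : DirichletCharacter ℂ q₁) (β : ℝ),
      Data (ε / 40) β q₁ χ₁
  · obtain ⟨q₁, i1, χ₁, β, hD⟩ := hex
    have hA : 0 < ‖χ₁.LFunction 1‖ := norm_pos_iff.2 (LFunction_apply_one_ne_zero hD.1)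
    have hb : 0 < 1 - β := by linarith [hD.2.2.2.1]
    have hq0 : (0 : ℝ) < q₁ := by exact_mod_cast Nat.pos_of_ne_zero (NeZero.ne q₁)
    refine ⟨min (‖χ₁.LFunction 1‖ / (2 * (1 + 6 / ε) ^ 3))
      (1 / (2 * (Real.exp 8 / (1 - β) * 81 * (1 + 6 / ε) ^ 3))) * (q₁ : ℝ) ^ (-ε), ?_, ?_⟩
    · apply mul_pos (lt_min (by positivity) (by positivity)) (Real.rpow_pos_of_pos hq0 _)
    · intro q _ χ hχ hχ2
      exact main hZET hEST hREA ε β hε hε1 q₁ χ₁ hD q χ hχ hχ2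
  · refine ⟨1, one_pos, fun q _ χ hχ hχ2 => ?_⟩
    exfalso
    apply hex
    by_cases hz : ∃ (q₁ : ℕ) (_ : NeZero q₁) (χ₁ : DirichletCharacter ℂ q₁) (β : ℝ),
        χ₁ ≠ 1 ∧ χ₁ ^ 2 = 1 ∧ 1 - ε / 40 ≤ β ∧ β < 1 ∧ χ₁.LFunction β = 0
    · obtain ⟨q₁, i1, χ₁, β, h1, h2, h3, h4, h5⟩ := hz
      exact ⟨q₁, i1, χ₁, β, h1, h2, h3, h4, Or.inl h5⟩
    · refine ⟨q, inferInstance, χ, 1 - ε / 40, hχ, hχ2, le_rfl, by linarith,
        Or.inr ⟨rfl, fun q' i' χ' h1 h2 s h3 h4 h5 => hz ⟨q', i', χ', s, h1, h2, h3, h4, h5⟩⟩⟩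

end SGLM

open SGLM in
theorem specSGL (hZET : SpecZET) (hEST : SpecEST) (hREA : SpecREA) : SpecSGL := by
  intro ε hε
  obtain ⟨c, hc, h⟩ := small hZET hEST hREA (min ε 1) (lt_min hε one_pos) (min_le_right _ _)
  refine ⟨c, hc, fun q _ χ hχ hχ2 => ?_⟩
  have hq1 : (1 : ℝ) ≤ q := by exact_mod_cast Nat.one_le_iff_ne_zero.2 (NeZero.ne q)
  refine le_trans ?_ (h q χ hχ hχ2)
  apply mul_le_mul_of_nonneg_left _ hc.le
  apply Real.rpow_le_rpow_of_exponent_le hq1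
  have := min_le_left ε 1
  linarith

end Pool.Agent.Lib.SW

end
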