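import Pool.Agent.Lib.SW.Spec

/-! # Siegel-Walfisz: interchange of the sum and the integral (helper4) -/

set_option autoImplicit false

noncomputable section

namespace Pool.Agent.Lib.SW

open ArithmeticFunction DirichletCharacter MeasureTheory
open Pool.Agent.Lib.LP (G F)

namespace SMOM

theorem cont_G (lam : ℝ) : Continuous (G lam) := by
  unfold G
  fun_prop

theorem summ (h : SpecGTL) (lam : ℝ) (hl : 6 ≤ lam) (X T : ℝ) (hT : 0 ≤ T) :
    Summable fun n : ℕ => vonMangoldt n *
      ∫ v in (X - T - Real.log n)..(X - Real.log n), G lam v := by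
  have hl0 : (0 : ℝ) < lam := by linarith
  have hs : Summable fun n : ℕ => 2 * Real.exp (3 * X) * (1 / (n : ℝ) ^ 2) :=
    (Real.summable_one_div_nat_pow.2 (by norm_num)).mul_left _
  refine Summable.of_norm_bounded_eventually_nat hs ?_
  filter_upwards [Filter.eventually_ge_atTop (⌈Real.exp (X + 1)⌉₊ + 1)] with n hn
  have hn1 : Real.exp (X + 1) ≤ n :=
    (Nat.le_ceil _).trans (by exact_mod_cast (Nat.le_succ _).trans hn)
  have hn0 : (0 : ℝ) < n := (Real.exp_pos _).trans_le hn1
  have hlog : X + 1 ≤ Real.log n := (Real.le_log_iff_exp_le hn0).2 hn1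
  obtain ⟨h1, -, -, h4⟩ := h lam hl0 (X - T - Real.log n) (X - Real.log n) (Real.log n - X)
    (by linarith)
  have hw0 := h1 (by linarith)
  have hw := h4 (by linarith) (by linarith)
  have hL0 : 0 ≤ vonMangoldt n := vonMangoldt_nonneg
  have hL : vonMangoldt n ≤ n :=
    vonMangoldt_le_log.trans ((Real.log_le_sub_one_of_pos hn0).trans (by linarith))
  rw [Real.norm_of_nonneg (mul_nonneg hL0 hw0)]
  have hy : (1 : ℝ) ≤ Real.log n - X := by linarith
  have h5 : Real.exp (-(lam * (Real.log n - X) ^ 2 / 2)) ≤ Real.exp (3 * X) * (1 / (n : ℝ) ^ 3) := by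
    have h6 : Real.exp (3 * X) * (1 / (n : ℝ) ^ 3) = Real.exp (3 * X - 3 * Real.log n) := by
      rw [Real.exp_sub, show 3 * Real.log n = Real.log ((n : ℝ) ^ 3) by rw [Real.log_pow]; norm_num,
        Real.exp_log (by positivity)]
      ring
    rw [h6]
    apply Real.exp_le_exp.2
    nlinarith [mul_le_mul hl (show (1 : ℝ) * (Real.log n - X) ≤ (Real.log n - X) ^ 2 by nlinarith)
      (by linarith) (by linarith)]
  calc vonMangoldt n * ∫ v in (X - T - Real.log n)..(X - Real.log n), G lam v
      ≤ n * (2 * (Real.exp (3 * X) * (1 / (n : ℝ) ^ 3))) :=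
        mul_le_mul hL (hw.trans (by linarith)) hw0 hn0.le
    _ = 2 * Real.exp (3 * X) * (1 / (n : ℝ) ^ 2) := by
        field_simp

end SMOM

open SMOM in
theorem specSMO (h : SpecGTL) : SpecSMO := by
  intro lam hl q _ χ X T hT
  have hs := summ h lam hl X T hT
  refine ⟨hs, ?_⟩
  have hl0 : (0 : ℝ) < lam := by linarith
  have hsub : ∀ n : ℕ, ∫ u in (X - T)..X, G lam (u - Real.log n) =
      ∫ v in (X - T - Real.log n)..(X - Real.log n), G lam v := fun n =>
    intervalIntegral.integral_comp_sub_right (fun v => G lam v) (Real.log n)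
  have hle : X - T ≤ X := by linarith
  have hc : ∀ n : ℕ, Continuous fun u : ℝ => G lam (u - Real.log n) := fun n =>
    (cont_G lam).comp (continuous_id.sub continuous_const)
  have hG0 : ∀ v, 0 ≤ G lam v := fun v => by unfold G; positivity
  have hF : ∀ n : ℕ, Integrable (fun u : ℝ => (vonMangoldt n : ℂ) * χ n *
      ((G lam (u - Real.log n) : ℝ) : ℂ)) (volume.restrict (Set.Ioc (X - T) X)) := by
    intro n
    have : Continuous fun u : ℝ => (vonMangoldt n : ℂ) * χ n * ((G lam (u - Real.log n) : ℝ) : ℂ) :=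
      continuous_const.mul (Complex.continuous_ofReal.comp (hc n))
    exact (this.integrableOn_Icc).mono_set Set.Ioc_subset_Icc_self
  have key := hasSum_integral_of_summable_integral_norm hF ?_
  · have h2 : ∀ n : ℕ, (∫ u in Set.Ioc (X - T) X, (vonMangoldt n : ℂ) * χ n *
        ((G lam (u - Real.log n) : ℝ) : ℂ)) = (vonMangoldt n : ℂ) * χ n *
        ((∫ v in (X - T - Real.log n)..(X - Real.log n), G lam v : ℝ) : ℂ) := by
      intro n
      rw [integral_const_mul, integral_complex_ofReal, ← hsub, intervalIntegral.integral_of_le hle]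
    rw [intervalIntegral.integral_of_le hle, ← (funext h2 : (fun n : ℕ => _) = _), key.tsum_eq]
    rfl
  · refine Summable.of_nonneg_of_le (fun n => integral_nonneg fun _ => norm_nonneg _) (fun n => ?_) hs
    rw [← hsub, intervalIntegral.integral_of_le hle, ← integral_const_mul]
    refine integral_mono_of_nonneg (Filter.Eventually.of_forall fun _ => norm_nonneg _) ?_
      (Filter.Eventually.of_forall fun u => ?_)
    · exact ((hc n).const_mul _).integrableOn_Icc.mono_set Set.Ioc_subset_Icc_self
    · have hL0 : 0 ≤ vonMangoldt n := vonMangoldt_nonneg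
      simp only [norm_mul, Complex.norm_real, Real.norm_of_nonneg hL0, Real.norm_of_nonneg (hG0 _)]
      have h3 : ‖χ n‖ ≤ 1 := DirichletCharacter.norm_le_one χ _
      calc vonMangoldt n * ‖χ n‖ * G lam (u - Real.log n)
          ≤ vonMangoldt n * 1 * G lam (u - Real.log n) := by
            gcongr
            exact hG0 _
        _ = _ := by rw [mul_one]

end Pool.Agent.Lib.SW
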