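import Pool.Agent.Lib.SW.Spec

/-!
# Lib/SW, module SW (helper94): the Siegel-Walfisz theorem
-/

set_option autoImplicit false

noncomputable section

namespace Pool.Agent.Lib.SW

open ArithmeticFunction DirichletCharacter MeasureTheory

namespace SWM

theorem decay (n : ℕ) : ∃ T₂ : ℝ, ∀ T : ℝ, T₂ ≤ T → T ^ n * Real.exp (-(T / 5)) ≤ 1 := by
  have h1 := Real.tendsto_pow_mul_exp_neg_atTop_nhds_zero n
  have h2 : Filter.Tendsto (fun T : ℝ => T / 5) Filter.atTop Filter.atTop :=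
    Filter.tendsto_id.atTop_div_const (by norm_num)
  have h3 := (h1.comp h2).const_mul ((5 : ℝ) ^ n)
  rw [mul_zero] at h3
  have h4 := h3.eventually (ge_mem_nhds (by norm_num : (0 : ℝ) < 1))
  obtain ⟨T₂, hT₂⟩ := Filter.eventually_atTop.1 h4
  refine ⟨T₂, fun T hT => ?_⟩
  have h5 := hT₂ T hT
  have e : (5 : ℝ) ^ n * ((fun x : ℝ => x ^ n * Real.exp (-x)) ∘ fun T : ℝ => T / 5) T =
      T ^ n * Real.exp (-(T / 5)) := by
    show (5 : ℝ) ^ n * ((T / 5) ^ n * Real.exp (-(T / 5))) = T ^ n * Real.exp (-(T / 5))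
    rw [← mul_assoc, ← mul_pow, mul_div_cancel₀ _ (by norm_num : (5 : ℝ) ≠ 0)]
  rw [e] at h5
  exact h5

end SWM

open SWM in
/-- **SW.** Siegel-Walfisz. -/
theorem specSW (hGDE : SpecGDE) (hUNS : SpecUNS) (hPRS : SpecPRS) : SpecSW := by
  intro A B
  obtain ⟨T₁, hT₁, hG⟩ := hGDE (50 * A)
  obtain ⟨Tu, hU⟩ := hUNS
  obtain ⟨Tp, hP⟩ := hPRS
  obtain ⟨T₂, hD⟩ := decay (50 * B)
  obtain ⟨M, hM⟩ : ∃ M, M = max (max T₁ Tu) (max Tp T₂) := ⟨_, rfl⟩
  have hM1 : T₁ ≤ M := by rw [hM]; exact (le_max_left _ _).trans (le_max_left _ _)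
  have hMu : Tu ≤ M := by rw [hM]; exact (le_max_right _ _).trans (le_max_left _ _)
  have hMp : Tp ≤ M := by rw [hM]; exact (le_max_left _ _).trans (le_max_right _ _)
  have hM2 : T₂ ≤ M := by rw [hM]; exact (le_max_right _ _).trans (le_max_right _ _)
  have hM0 : 0 ≤ M := by linarith
  refine ⟨Real.exp (M ^ 50), ?_⟩
  intro x hx q _ hq χ hχ
  have hx0 : 0 < x := lt_of_lt_of_le (Real.exp_pos _) hx
  have hlog : M ^ 50 ≤ Real.log x := by
    rw [Real.le_log_iff_exp_le hx0]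
    exact hx
  have hlog0 : 0 ≤ Real.log x := le_trans (by positivity) hlog
  obtain ⟨T, hTdef⟩ : ∃ T, T = (Real.log x) ^ ((1 : ℝ) / 50) := ⟨_, rfl⟩
  have hT0 : 0 ≤ T := by rw [hTdef]; exact Real.rpow_nonneg hlog0 _
  have hT50 : T ^ 50 = Real.log x := by
    rw [hTdef, ← Real.rpow_natCast, ← Real.rpow_mul hlog0]
    norm_num
  have hMT : M ≤ T := by
    rw [← hT50] at hlog
    exact (pow_le_pow_iff_left₀ hM0 hT0 (by norm_num)).1 hlog
  have hT1 : 1 ≤ T := by linarith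
  have hqT : (q : ℝ) ≤ T ^ (50 * A) := by
    rw [pow_mul, hT50]
    exact hq
  obtain ⟨hlq, hgood⟩ := hG T (hM1.trans hMT) q hqT
  have h47 : T ^ 47 ≤ Real.log x := by
    rw [← hT50]
    exact pow_le_pow_right₀ hT1 (by norm_num)
  have h48 : T ^ 48 ≤ Real.log x := by
    rw [← hT50]
    exact pow_le_pow_right₀ hT1 (by norm_num)
  have h59 : Real.log x ≤ T ^ 59 := by
    rw [← hT50]
    exact pow_le_pow_right₀ hT1 (by norm_num)
  have hB : x * Real.exp (-(T / 5)) ≤ x / (Real.log x) ^ B := by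
    have h1 := hD T (hM2.trans hMT)
    rw [pow_mul, hT50] at h1
    have hl : 0 < (Real.log x) ^ B := by
      have : 0 < Real.log x := by
        rw [← hT50]
        positivity
      positivity
    rw [le_div_iff₀ hl, mul_assoc]
    calc x * (Real.exp (-(T / 5)) * (Real.log x) ^ B)
        = x * ((Real.log x) ^ B * Real.exp (-(T / 5))) := by ring
      _ ≤ x * 1 := mul_le_mul_of_nonneg_left h1 hx0.le
      _ = x := mul_one x
  have hB' : x * Real.exp (-(T / 4)) ≤ x / (Real.log x) ^ B := by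
    refine le_trans ?_ hB
    apply mul_le_mul_of_nonneg_left _ hx0.le
    apply Real.exp_le_exp.2
    linarith
  have h1 := hU T (hMu.trans hMT) q hlq hgood χ hχ x hx0 h47 h59
  have h2 := hP T (hMp.trans hMT) q hlq hgood χ hχ x hx0 h48 h59
  exact ⟨h1.trans hB', h2.1.trans hB, h2.2.trans hB⟩

end Pool.Agent.Lib.SW
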