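import Pool.Agent.Lib.SW.Spec

/-!
# Siegel-Walfisz: module SWA (arithmetic progressions)
-/

set_option autoImplicit false

noncomputable section

namespace Pool.Agent.Lib.SW

open ArithmeticFunction DirichletCharacter MeasureTheory

namespace SWAM

/-- orthogonality for finite sums -/
theorem orth {q : ℕ} [NeZero q] {a : ℕ} (ha : a.Coprime q) (S : Finset ℕ) (w : ℕ → ℝ) :
    ∑ χ : DirichletCharacter ℂ q, χ ((a : ZMod q)⁻¹) * ∑ n ∈ S, (w n : ℂ) * χ n =
      (((q.totient : ℝ) * ∑ n ∈ S.filter (fun n => n ≡ a [MOD q]), w n : ℝ) : ℂ) := by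
  have hu : IsUnit (a : ZMod q) := (ZMod.isUnit_iff_coprime a q).2 ha
  have h1 : ∀ χ : DirichletCharacter ℂ q, χ ((a : ZMod q)⁻¹) * ∑ n ∈ S, (w n : ℂ) * χ n =
      ∑ n ∈ S, (w n : ℂ) * (χ ((a : ZMod q)⁻¹) * χ n) := by
    intro χ
    rw [Finset.mul_sum]
    exact Finset.sum_congr rfl fun n _ => by ring
  rw [Finset.sum_congr rfl fun χ _ => h1 χ, Finset.sum_comm]
  push_cast
  rw [Finset.sum_filter, Finset.mul_sum]
  refine Finset.sum_congr rfl fun n _ => ?_
  rw [← Finset.mul_sum, sum_char_inv_mul_char_eq ℂ hu (n : ZMod q)]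
  have hiff : ((a : ZMod q) = (n : ZMod q)) ↔ n ≡ a [MOD q] := by
    rw [eq_comm, ZMod.natCast_eq_natCast_iff]
  by_cases h : n ≡ a [MOD q]
  · rw [if_pos (hiff.2 h), if_pos h]
    ring
  · rw [if_neg fun h' => h (hiff.1 h'), if_neg h]
    simp

/-- the general comparison -/
theorem main {q : ℕ} [NeZero q] {a : ℕ} (ha : a.Coprime q) (S : Finset ℕ) (w : ℕ → ℝ)
    (hw : ∀ n ∈ S, 0 ≤ w n) {D E : ℝ} (hD0 : 0 ≤ D)
    (hD : ∀ χ : DirichletCharacter ℂ q, χ ≠ 1 → ‖∑ n ∈ S, (w n : ℂ) * χ n‖ ≤ D)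
    (hE : ∑ n ∈ S.filter (fun n => ¬ n.Coprime q), w n ≤ E) :
    |∑ n ∈ S.filter (fun n => n ≡ a [MOD q]), w n - (∑ n ∈ S, w n) / q.totient| ≤ D + E := by
  classical
  have hφ1 : (1 : ℝ) ≤ q.totient := by
    exact_mod_cast Nat.totient_pos.2 (Nat.pos_of_ne_zero (NeZero.ne q))
  have hφ : (0 : ℝ) < q.totient := by linarith
  have hE0 : 0 ≤ E := le_trans
    (Finset.sum_nonneg fun n hn => hw n (Finset.mem_filter.1 hn).1) hE
  set X : ℝ := ∑ n ∈ S.filter (fun n => n ≡ a [MOD q]), w n with hX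
  set Y : ℝ := ∑ n ∈ S, w n with hY
  have horth := orth ha S w
  rw [← hX] at horth
  have hcard : (Finset.univ : Finset (DirichletCharacter ℂ q)).card = q.totient := by
    rw [Finset.card_univ, ← Nat.card_eq_fintype_card]
    exact card_eq_totient_of_hasEnoughRootsOfUnity ℂ q
  -- the principal character
  have hu : IsUnit ((a : ZMod q)⁻¹) := by
    have h := (ZMod.isUnit_iff_coprime a q).2 ha
    obtain ⟨u, hu⟩ := h
    rw [← hu, ZMod.inv_coe_unit]
    exact Units.isUnit _
  have h1 : (1 : DirichletCharacter ℂ q) ((a : ZMod q)⁻¹) = 1 := MulChar.one_apply hu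
  have h2 : ∑ n ∈ S, (w n : ℂ) * (1 : DirichletCharacter ℂ q) n =
      ((Y - ∑ n ∈ S.filter (fun n => ¬ n.Coprime q), w n : ℝ) : ℂ) := by
    rw [hY, ← Finset.sum_filter_add_sum_filter_not S (fun n => n.Coprime q) w,
      add_sub_cancel_right, Finset.sum_filter]
    push_cast
    refine Finset.sum_congr rfl fun n _ => ?_
    by_cases h : n.Coprime q
    · rw [if_pos h, MulChar.one_apply ((ZMod.isUnit_iff_coprime n q).2 h), mul_one]
    · rw [if_neg h, MulChar.map_nonunit _ (fun h' => h ((ZMod.isUnit_iff_coprime n q).1 h')),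
        mul_zero, Complex.ofReal_zero]
  rw [← Finset.add_sum_erase _ _ (Finset.mem_univ (1 : DirichletCharacter ℂ q)), h1, h2,
    one_mul] at horth
  set R : ℂ := ∑ χ ∈ (Finset.univ : Finset (DirichletCharacter ℂ q)).erase 1,
    χ ((a : ZMod q)⁻¹) * ∑ n ∈ S, (w n : ℂ) * χ n with hR
  have hRn : ‖R‖ ≤ q.totient * D := by
    calc ‖R‖ ≤ ∑ χ ∈ (Finset.univ : Finset (DirichletCharacter ℂ q)).erase 1,
          ‖χ ((a : ZMod q)⁻¹) * ∑ n ∈ S, (w n : ℂ) * χ n‖ := norm_sum_le _ _
      _ ≤ ∑ _χ ∈ (Finset.univ : Finset (DirichletCharacter ℂ q)).erase 1, D := by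
          refine Finset.sum_le_sum fun χ hχ => ?_
          rw [norm_mul]
          calc _ ≤ 1 * ‖∑ n ∈ S, (w n : ℂ) * χ n‖ :=
                mul_le_mul_of_nonneg_right (χ.norm_le_one _) (norm_nonneg _)
            _ ≤ D := by rw [one_mul]; exact hD χ (Finset.ne_of_mem_erase hχ)
      _ = (((Finset.univ : Finset (DirichletCharacter ℂ q)).erase 1).card : ℝ) * D := by
          rw [Finset.sum_const, nsmul_eq_mul]
      _ ≤ q.totient * D := by
          refine mul_le_mul_of_nonneg_right ?_ hD0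
          rw [← hcard]
          exact_mod_cast Finset.card_le_card (Finset.erase_subset _ _)
  set N : ℝ := ∑ n ∈ S.filter (fun n => ¬ n.Coprime q), w n with hN
  have hN0 : 0 ≤ N := Finset.sum_nonneg fun n hn => hw n (Finset.mem_filter.1 hn).1
  have h3 : ((q.totient * X - Y : ℝ) : ℂ) = R - (N : ℂ) := by
    push_cast at horth ⊢
    rw [← horth]
    ring
  have h4 : |q.totient * X - Y| ≤ q.totient * D + E := by
    have h5 : |q.totient * X - Y| = ‖R - (N : ℂ)‖ := by
      rw [← h3, Complex.norm_real, Real.norm_eq_abs]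
    rw [h5]
    refine (norm_sub_le _ _).trans (add_le_add hRn ?_)
    rw [Complex.norm_real, Real.norm_of_nonneg hN0]
    exact hE
  have h6 : X - Y / q.totient = (q.totient * X - Y) / q.totient := by
    field_simp
  rw [h6, abs_div, abs_of_pos hφ, div_le_iff₀ hφ]
  refine h4.trans ?_
  nlinarith

/-- the prime powers not prime to `q` -/
theorem bound_vonMangoldt (q N : ℕ) (hq : q ≠ 0) (hN : 1 ≤ N) :
    ∑ n ∈ (Finset.Icc 1 N).filter (fun n => ¬ n.Coprime q), vonMangoldt n ≤
      q.primeFactors.card * Real.log N := by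
  classical
  set m : ℕ := ∏ p ∈ q.primeFactors, p ^ Nat.log p N with hm
  have hm0 : m ≠ 0 := Finset.prod_ne_zero_iff.2 fun p hp =>
    pow_ne_zero _ (Nat.prime_of_mem_primeFactors hp).ne_zero
  have h1 : ∑ n ∈ (Finset.Icc 1 N).filter (fun n => ¬ n.Coprime q), vonMangoldt n ≤
      ∑ n ∈ m.divisors, vonMangoldt n := by
    rw [← Finset.sum_filter_add_sum_filter_not ((Finset.Icc 1 N).filter fun n => ¬ n.Coprime q)
      (fun n => vonMangoldt n ≠ 0)]
    have h0 : ∑ n ∈ ((Finset.Icc 1 N).filter fun n => ¬ n.Coprime q).filter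
        (fun n => ¬ vonMangoldt n ≠ 0), vonMangoldt n = 0 :=
      Finset.sum_eq_zero fun n hn => not_not.1 (Finset.mem_filter.1 hn).2
    rw [h0, add_zero]
    refine Finset.sum_le_sum_of_subset_of_nonneg ?_ fun _ _ _ => vonMangoldt_nonneg
    intro n hn
    simp only [Finset.mem_filter, Finset.mem_Icc] at hn
    obtain ⟨⟨⟨hn1, hn2⟩, hn3⟩, hn4⟩ := hn
    rw [vonMangoldt_ne_zero_iff] at hn4
    obtain ⟨p, k, hp, hk, rfl⟩ := (isPrimePow_nat_iff _).1 hn4
    have hpq : p ∣ q := by
      by_contra hpq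
      apply hn3
      exact Nat.Coprime.pow_left _ ((Nat.Prime.coprime_iff_not_dvd hp).2 hpq)
    rw [Nat.mem_divisors]
    refine ⟨?_, hm0⟩
    have hmem : p ∈ q.primeFactors := Nat.mem_primeFactors.2 ⟨hp, hpq, hq⟩
    have hk2 : k ≤ Nat.log p N := Nat.le_log_of_pow_le hp.one_lt hn2
    exact (pow_dvd_pow p hk2).trans (Finset.dvd_prod_of_mem _ hmem)
  refine h1.trans ?_
  rw [vonMangoldt_sum, hm, Nat.cast_prod, Real.log_prod]
  · calc ∑ p ∈ q.primeFactors, Real.log ((p ^ Nat.log p N : ℕ) : ℝ)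
        ≤ ∑ p ∈ q.primeFactors, Real.log N := by
          refine Finset.sum_le_sum fun p hp => ?_
          have hpp := Nat.prime_of_mem_primeFactors hp
          refine Real.log_le_log ?_ ?_
          · exact_mod_cast pow_pos hpp.pos _
          · exact_mod_cast Nat.pow_log_le_self p (by omega)
      _ = _ := by rw [Finset.sum_const, nsmul_eq_mul]
  · intro p hp
    have hpp := Nat.prime_of_mem_primeFactors hp
    exact_mod_cast pow_ne_zero _ hpp.ne_zero

/-- at most `q` prime divisors -/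
theorem card_le (q : ℕ) : (q.primeFactors.card : ℝ) ≤ q := by
  have h : q.primeFactors ⊆ Finset.Icc 1 q := by
    intro p hp
    have h1 := Nat.prime_of_mem_primeFactors hp
    have h2 := Nat.le_of_mem_primeFactors hp
    exact Finset.mem_Icc.2 ⟨h1.one_lt.le, h2⟩
  have h3 := Finset.card_le_card h
  rw [Nat.card_Icc, Nat.add_sub_cancel] at h3
  exact_mod_cast h3

/-- the primes not prime to `q` -/
theorem bound_primes (q N : ℕ) (hq : q ≠ 0) (w : ℕ → ℝ) {W : ℝ} (hW : 0 ≤ W)
    (hw : ∀ n, 1 ≤ n → n ≤ N → w n ≤ W) :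
    ∑ n ∈ ((Finset.Icc 1 N).filter Nat.Prime).filter (fun n => ¬ n.Coprime q), w n ≤ q * W := by
  calc ∑ n ∈ ((Finset.Icc 1 N).filter Nat.Prime).filter (fun n => ¬ n.Coprime q), w n
      ≤ ∑ _n ∈ ((Finset.Icc 1 N).filter Nat.Prime).filter (fun n => ¬ n.Coprime q), W := by
        refine Finset.sum_le_sum fun n hn => ?_
        have h := Finset.mem_Icc.1 (Finset.mem_filter.1 (Finset.mem_filter.1 hn).1).1
        exact hw n h.1 h.2
    _ = ((((Finset.Icc 1 N).filter Nat.Prime).filter (fun n => ¬ n.Coprime q)).card : ℝ) * W := by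
        rw [Finset.sum_const, nsmul_eq_mul]
    _ ≤ q * W := by
        refine mul_le_mul_of_nonneg_right ?_ hW
        refine le_trans ?_ (card_le q)
        have h : ((Finset.Icc 1 N).filter Nat.Prime).filter (fun n => ¬ n.Coprime q) ⊆
            q.primeFactors := by
          intro p hp
          obtain ⟨h1, h2⟩ := Finset.mem_filter.1 hp
          have h3 := (Finset.mem_filter.1 h1).2
          rw [Nat.mem_primeFactors]
          refine ⟨h3, ?_, hq⟩
          by_contra h4
          exact h2 ((Nat.Prime.coprime_iff_not_dvd h3).2 h4)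
        exact_mod_cast Finset.card_le_card h

end SWAM

theorem specSWA (hSW : SpecSW) : SpecSWA := by
  intro A B
  obtain ⟨x₀, h⟩ := hSW A (B + 1)
  -- the size
  have hsize : ∀ᶠ x : ℝ in Filter.atTop, 2 * Real.log x ^ (A + 1 + B) ≤ x := by
    have h1 := (Real.isLittleO_pow_log_id_atTop (n := A + 1 + B)).def (c := 1 / 2) (by norm_num)
    filter_upwards [h1, Filter.eventually_ge_atTop 1] with x hx hx1
    rw [Real.norm_of_nonneg (pow_nonneg (Real.log_nonneg hx1) _), id,
      Real.norm_of_nonneg (by linarith)] at hx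
    linarith
  have hlog : ∀ᶠ x : ℝ in Filter.atTop, 2 ≤ Real.log x :=
    Real.tendsto_log_atTop.eventually (Filter.eventually_ge_atTop 2)
  obtain ⟨x₁, hx₁⟩ := (hsize.and (hlog.and (Filter.eventually_ge_atTop 1))).exists_forall_of_atTop
  refine ⟨max x₀ x₁, fun x hx q a hq hqA ha => ?_⟩
  have hx0 : x₀ ≤ x := (le_max_left _ _).trans hx
  obtain ⟨hs, hl2, hx1⟩ := hx₁ x ((le_max_right _ _).trans hx)
  have : NeZero q := ⟨hq.ne'⟩
  have hl : 0 < Real.log x := by linarith
  have hN : 1 ≤ ⌊x⌋₊ := Nat.le_floor (by exact_mod_cast hx1)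
  have hlN : Real.log (⌊x⌋₊ : ℝ) ≤ Real.log x :=
    Real.log_le_log (by exact_mod_cast hN) (Nat.floor_le (by linarith))
  have hD0 : 0 ≤ x / Real.log x ^ (B + 1) := by positivity
  -- the two errors
  have hqe : (q : ℝ) * Real.log x ≤ Real.log x ^ (A + 1) := by
    rw [pow_succ]
    exact mul_le_mul_of_nonneg_right hqA hl.le
  have herr : x / Real.log x ^ (B + 1) + q * Real.log x ≤ x / Real.log x ^ B := by
    have h1 : x / Real.log x ^ (B + 1) ≤ x / Real.log x ^ B / 2 := by
      rw [div_div, pow_succ]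
      gcongr
    have h2 : (q : ℝ) * Real.log x ≤ x / Real.log x ^ B / 2 := by
      refine hqe.trans ?_
      rw [div_div, le_div_iff₀ (by positivity)]
      calc Real.log x ^ (A + 1) * (Real.log x ^ B * 2) = 2 * Real.log x ^ (A + 1 + B) := by
            rw [pow_add _ (A + 1) B]; ring
        _ ≤ x := hs
    linarith
  have hch := h x hx0 q hqA
  refine ⟨?_, ?_, ?_⟩
  · have h1 := SWAM.main ha (Finset.Icc 1 ⌊x⌋₊) vonMangoldt (fun n _ => vonMangoldt_nonneg)
      (D := x / Real.log x ^ (B + 1)) (E := q * Real.log x) hD0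
      (fun χ hχ => (hch χ hχ).1)
      ((SWAM.bound_vonMangoldt q ⌊x⌋₊ hq.ne' hN).trans
        (mul_le_mul (SWAM.card_le q) hlN (Real.log_nonneg (by exact_mod_cast hN))
          (Nat.cast_nonneg q)))
    exact h1.trans herr
  · have h1 := SWAM.main ha ((Finset.Icc 1 ⌊x⌋₊).filter Nat.Prime) (fun n => Real.log n)
      (fun n hn => Real.log_natCast_nonneg n)
      (D := x / Real.log x ^ (B + 1)) (E := q * Real.log x) hD0
      (fun χ hχ => by
        have h2 := (hch χ hχ).2.1
        refine le_trans (le_of_eq ?_) h2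
        congr 1
        exact Finset.sum_congr rfl fun p _ => mul_comm _ _)
      (SWAM.bound_primes q ⌊x⌋₊ hq.ne' _ hl.le fun n hn1 hn2 =>
        (Real.log_le_log (by exact_mod_cast hn1) (by exact_mod_cast hn2)).trans hlN)
    rw [Finset.filter_filter] at h1
    exact h1.trans herr
  · have h1 := SWAM.main ha ((Finset.Icc 1 ⌊x⌋₊).filter Nat.Prime) (fun _ => (1 : ℝ))
      (fun n hn => zero_le_one)
      (D := x / Real.log x ^ (B + 1)) (E := q * Real.log x) hD0
      (fun χ hχ => by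
        have h2 := (hch χ hχ).2.2
        refine le_trans (le_of_eq ?_) h2
        congr 1
        exact Finset.sum_congr rfl fun p _ => by simp)
      (SWAM.bound_primes q ⌊x⌋₊ hq.ne' _ hl.le fun n hn1 hn2 => by linarith)
    rw [Finset.filter_filter] at h1
    simp only [Finset.sum_const, nsmul_eq_mul, mul_one] at h1
    exact h1.trans herr

end Pool.Agent.Lib.SW
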