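import Pool.Agent.Lib.SW.Spec

/-!
# SW, module TAY: the power series of `E4` at `2` has nonnegative coefficients
-/

set_option autoImplicit false

noncomputable section

namespace Pool.Agent.Lib.SW

open ArithmeticFunction DirichletCharacter MeasureTheory
open scoped ComplexOrder Nat

theorem specTAY (hNNG : SpecNNG) : SpecTAY := by
  intro q _ χ₁ χ₂ h1 h2
  obtain ⟨f, hf0, hf1, hf⟩ := hNNG q χ₁ χ₂ h1 h2
  set a : ℕ → ℂ := fun n => (f n : ℂ) with ha
  have ha0 : 0 ≤ a := by
    intro n
    simp only [ha, Pi.zero_apply, Complex.zero_le_real]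
    exact hf0 n
  have habs : LSeries.abscissaOfAbsConv a ≤ (1 : ℝ) :=
    LSeries.abscissaOfAbsConv_le_of_forall_lt_LSeriesSummable fun y hy =>
      (hf (y : ℂ) (by simpa using hy)).1
  have habs2 : LSeries.abscissaOfAbsConv a < ((2 : ℝ) : EReal) :=
    habs.trans_lt (by exact_mod_cast one_lt_two)
  have halt : ∀ m : ℕ, 0 ≤ (-1 : ℂ) ^ m * iteratedDeriv m (LSeries a) 2 := by
    intro m
    have := LSeries.iteratedDeriv_alternating ha0 habs2 m
    simpa using this
  set c : ℕ → ℂ := fun m => ((m ! : ℕ) : ℂ)⁻¹ * ((-1 : ℂ) ^ m * iteratedDeriv m (LSeries a) 2)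
    with hc
  have hc0 : ∀ m, 0 ≤ c m := by
    intro m
    have h3 : (0 : ℂ) ≤ ((m ! : ℕ) : ℂ)⁻¹ := by
      have h4 : (((m ! : ℕ) : ℂ))⁻¹ = (((m ! : ℕ) : ℝ)⁻¹ : ℝ) := by push_cast; rfl
      rw [h4, Complex.zero_le_real]
      positivity
    exact mul_nonneg h3 (halt m)
  have hcre : ∀ m, ((c m).re : ℂ) = c m := by
    intro m
    have := (Complex.nonneg_iff.1 (hc0 m)).2
    exact Complex.ext (by simp) (by simp [← this])
  refine ⟨fun m => (c m).re, fun m => (Complex.nonneg_iff.1 (hc0 m)).1, ?_, ?_⟩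
  · -- the constant term
    have h3 : c 0 = LSeries a 2 := by
      simp [hc]
    have hs : LSeriesSummable a 2 := (hf 2 (by norm_num)).1
    have hsum : HasSum (LSeries.term a 2) (LSeries a 2) := hs.LSeriesHasSum
    have hre : HasSum (fun n => (LSeries.term a 2 n).re) (LSeries a 2).re := Complex.hasSum_re hsum
    have h5 : (LSeries.term a 2 1).re = 1 := by
      rw [LSeries.term_def]
      simp [ha, hf1]
    have h6 := le_hasSum hre 1 (fun n _ => by
      have h7 := LSeries.term_nonneg (ha0 n) (2 : ℝ)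
      have h8 : LSeries.term a ((2 : ℝ) : ℂ) n = LSeries.term a 2 n := by simp
      rw [h8] at h7
      exact (Complex.nonneg_iff.1 h7).1)
    simp only [h3]
    rw [h5] at h6
    exact h6
  · intro s hs
    have hball : ∀ z ∈ Metric.ball (2 : ℂ) 1, 1 < z.re := by
      intro z hz
      rw [Metric.mem_ball, dist_eq_norm] at hz
      have h3 := (Complex.abs_re_le_norm (z - 2)).trans_lt hz
      have h4 := (abs_lt.1 h3).1
      simp only [Complex.sub_re, Complex.re_ofNat] at h4
      linarith
    have hsb : s ∈ Metric.ball (2 : ℂ) 1 := by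
      rw [Metric.mem_ball, dist_eq_norm]
      exact hs
    have hdiff : DifferentiableOn ℂ (LSeries a) (Metric.ball (2 : ℂ) 1) := by
      refine (LSeries_differentiableOn a).mono fun z hz => ?_
      have h3 : ((1 : ℝ) : EReal) < (z.re : EReal) := by exact_mod_cast hball z hz
      exact habs.trans_lt h3
    have hT := Complex.hasSum_taylorSeries_on_ball hdiff hsb
    rw [← (hf s (hball s hsb)).2]
    refine hT.congr_fun ?_
    intro m
    have h3 : (2 - s) ^ m = (-1 : ℂ) ^ m * (s - 2) ^ m := by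
      rw [← neg_pow, neg_sub]
    have h4 : ((-1 : ℂ) ^ m) * (-1 : ℂ) ^ m = 1 := by
      rw [← mul_pow]
      norm_num
    simp only [hcre, smul_eq_mul]
    rw [h3]
    simp only [hc]
    linear_combination (((m ! : ℕ) : ℂ)⁻¹ * iteratedDeriv m (LSeries a) 2 * (s - 2) ^ m) * h4

end Pool.Agent.Lib.SW
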