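import Pool.Agent.Lib.SW.Spec

/-!
# Siegel-Walfisz, module UBE: upper bound for `L(s, χ)` up to height `e^T`
-/

set_option autoImplicit false

noncomputable section

namespace Pool.Agent.Lib.SW

namespace UBEM

theorem sum_inv (N : ℕ) : ∑ n ∈ Finset.Icc 1 N, ((n : ℝ))⁻¹ ≤ 1 + Real.log N := by
  have h := harmonic_le_one_add_log N
  rw [harmonic_eq_sum_Icc] at h
  push_cast at h
  exact h

end UBEM

open UBEM in
theorem specUBE (hTRU : SpecTRU) : SpecUBE := by
  intro T hT q _ χ hχ hq s him hre1 hre2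
  have hT0 : (0 : ℝ) < T := by linarith
  have hTi : 1 / T ≤ 1 / 1000 := one_div_le_one_div_of_le (by norm_num) hT
  have hTi0 : 0 < 1 / T := by positivity
  have hσ : 1 / 2 ≤ s.re := by linarith
  have hσ0 : 0 < s.re := by linarith
  set N : ℕ := ⌈Real.exp (2 * T + 2)⌉₊ with hN
  have hNl : Real.exp (2 * T + 2) ≤ N := Nat.le_ceil _
  have hNu : (N : ℝ) ≤ Real.exp (2 * T + 3) := by
    have h1 : (N : ℝ) < Real.exp (2 * T + 2) + 1 := Nat.ceil_lt_add_one (Real.exp_pos _).le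
    have h2 : (1 : ℝ) ≤ Real.exp (2 * T + 2) := Real.one_le_exp (by linarith)
    have h3 : (2 : ℝ) ≤ Real.exp 1 := by
      have := Real.add_one_le_exp (1 : ℝ); linarith
    have h4 : Real.exp (2 * T + 3) = Real.exp (2 * T + 2) * Real.exp 1 := by
      rw [← Real.exp_add]; ring_nf
    rw [h4]
    nlinarith
  have hN1r : (1 : ℝ) ≤ N := (Real.one_le_exp (by linarith)).trans hNl
  have hN1 : 1 ≤ N := by exact_mod_cast hN1r
  have hN0 : (0 : ℝ) < N := by linarith
  have hlogN : Real.log N ≤ 2 * T + 3 := by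
    rw [← Real.log_exp (2 * T + 3)]
    exact Real.log_le_log hN0 hNu
  refine (hTRU q χ hχ s hσ0 N hN1).trans ?_
  -- the sum
  have hsum : ∑ n ∈ Finset.Icc 1 N, (n : ℝ) ^ (-s.re) ≤ 8 * (2 * T + 4) := by
    have h1 : ∀ n ∈ Finset.Icc 1 N, (n : ℝ) ^ (-s.re) ≤ 8 * ((n : ℝ))⁻¹ := by
      intro n hn
      rw [Finset.mem_Icc] at hn
      have hn1 : (1 : ℝ) ≤ n := by exact_mod_cast hn.1
      have hn0 : (0 : ℝ) < n := by linarith
      have hnN : (n : ℝ) ≤ N := by exact_mod_cast hn.2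
      have h2 : (n : ℝ) ^ (-s.re) ≤ (n : ℝ) ^ (-(1 : ℝ) + 1 / T) :=
        Real.rpow_le_rpow_of_exponent_le hn1 (by linarith)
      have h3 : (n : ℝ) ^ (-(1 : ℝ) + 1 / T) = ((n : ℝ))⁻¹ * (n : ℝ) ^ (1 / T) := by
        rw [Real.rpow_add hn0, Real.rpow_neg_one]
      have h4 : (n : ℝ) ^ (1 / T) ≤ 8 := by
        have h5 : (n : ℝ) ^ (1 / T) ≤ (Real.exp (2 * T + 3)) ^ (1 / T) :=
          Real.rpow_le_rpow hn0.le (hnN.trans hNu) hTi0.le
        have h6 : (Real.exp (2 * T + 3)) ^ (1 / T) = Real.exp (2 + 3 * (1 / T)) := by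
          rw [← Real.exp_mul]
          congr 1
          field_simp
        have h7 : Real.exp (2 + 3 * (1 / T)) ≤ Real.exp 2.003 :=
          Real.exp_le_exp.2 (by linarith)
        have h8 : Real.exp 2.003 ≤ 8 := by
          have h9 := Real.exp_one_lt_d9
          have h10 : Real.exp 2.003 = Real.exp 1 * Real.exp 1 * Real.exp 0.003 := by
            rw [← Real.exp_add, ← Real.exp_add]; norm_num
          have h11 : Real.exp 0.003 ≤ 1.01 := by
            have h12 := Real.add_one_le_exp (-0.003 : ℝ)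
            have h13 : Real.exp (-0.003) * Real.exp 0.003 = 1 := by
              rw [← Real.exp_add]; norm_num
            have h14 := Real.exp_pos (0.003 : ℝ)
            nlinarith
          rw [h10]
          have h15 := Real.exp_pos (1 : ℝ)
          have h16 : Real.exp 1 * Real.exp 1 ≤ 2.72 * 2.72 := by
            apply mul_le_mul <;> linarith
          have h17 := Real.exp_pos (0.003 : ℝ)
          calc Real.exp 1 * Real.exp 1 * Real.exp 0.003 ≤ (2.72 * 2.72) * 1.01 := by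
                apply mul_le_mul h16 h11 h17.le (by norm_num)
            _ ≤ 8 := by norm_num
        linarith
      calc (n : ℝ) ^ (-s.re) ≤ ((n : ℝ))⁻¹ * (n : ℝ) ^ (1 / T) := h2.trans h3.le
        _ ≤ ((n : ℝ))⁻¹ * 8 := mul_le_mul_of_nonneg_left h4 (inv_nonneg.2 hn0.le)
        _ = 8 * ((n : ℝ))⁻¹ := mul_comm _ _
    calc ∑ n ∈ Finset.Icc 1 N, (n : ℝ) ^ (-s.re) ≤ ∑ n ∈ Finset.Icc 1 N, 8 * ((n : ℝ))⁻¹ :=
          Finset.sum_le_sum h1
      _ = 8 * ∑ n ∈ Finset.Icc 1 N, ((n : ℝ))⁻¹ := by rw [Finset.mul_sum]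
      _ ≤ 8 * (1 + Real.log N) := by
          have := sum_inv N
          linarith
      _ ≤ 8 * (2 * T + 4) := by linarith
  -- the tail
  have hqT : (q : ℝ) ≤ Real.exp T := by
    have hq0 : (0 : ℝ) < q := by exact_mod_cast Nat.pos_of_ne_zero (NeZero.ne q)
    rw [← Real.exp_log hq0]
    exact Real.exp_le_exp.2 hq
  have hNs : (N : ℝ) ^ (-s.re) ≤ Real.exp (-(2 * T + 2) * (1 - 1 / T)) := by
    have h1 : (N : ℝ) ^ (-s.re) ≤ (Real.exp (2 * T + 2)) ^ (-s.re) :=
      Real.rpow_le_rpow_of_nonpos (Real.exp_pos _) hNl (by linarith)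
    have h2 : (Real.exp (2 * T + 2)) ^ (-s.re) = Real.exp (-(2 * T + 2) * s.re) := by
      rw [← Real.exp_mul]; ring_nf
    rw [h2] at h1
    refine h1.trans (Real.exp_le_exp.2 ?_)
    nlinarith
  have hexp : -(2 * T + 2) * (1 - 1 / T) ≤ -(2 * T) + 0.01 := by
    have : -(2 * T + 2) * (1 - 1 / T) = -(2 * T) + 2 * (1 / T) := by
      field_simp
      ring
    rw [this]
    linarith
  have hns : ‖s‖ ≤ 4 + 2 * Real.exp T := by
    have h1 := Complex.norm_le_abs_re_add_abs_im s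
    have h2 : |s.re| ≤ 3 := abs_le.2 ⟨by linarith, hre2⟩
    linarith
  have heT : 1000 ≤ Real.exp T := by
    have := Real.add_one_le_exp T; linarith
  have h1s : 1 + ‖s‖ / s.re ≤ 5 * Real.exp T := by
    have h1 : ‖s‖ / s.re ≤ ‖s‖ / (1 / 2) :=
      div_le_div_of_nonneg_left (norm_nonneg _) (by norm_num) hσ
    have h2 : ‖s‖ / (1 / 2) = 2 * ‖s‖ := by ring
    linarith
  have htail : q * (N : ℝ) ^ (-s.re) * (1 + ‖s‖ / s.re) ≤ 14 := by
    have hp1 : (0 : ℝ) ≤ (N : ℝ) ^ (-s.re) := Real.rpow_nonneg hN0.le _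
    have hp2 : (0 : ℝ) ≤ 1 + ‖s‖ / s.re := by positivity
    have h3 : (N : ℝ) ^ (-s.re) ≤ Real.exp (-(2 * T) + 0.01) :=
      hNs.trans (Real.exp_le_exp.2 hexp)
    calc q * (N : ℝ) ^ (-s.re) * (1 + ‖s‖ / s.re)
        ≤ Real.exp T * Real.exp (-(2 * T) + 0.01) * (5 * Real.exp T) := by
          apply mul_le_mul (mul_le_mul hqT h3 hp1 (Real.exp_pos _).le) h1s hp2 (by positivity)
      _ = 5 * Real.exp 0.01 := by
          have : Real.exp T * Real.exp (-(2 * T) + 0.01) * Real.exp T = Real.exp 0.01 := by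
            rw [← Real.exp_add, ← Real.exp_add]; ring_nf
          linear_combination 5 * this
      _ ≤ 5 * Real.exp 1 := by
          have := Real.exp_le_exp.2 (show (0.01 : ℝ) ≤ 1 by norm_num)
          linarith
      _ ≤ 14 := by
          have := Real.exp_one_lt_d9
          linarith
  nlinarith

end Pool.Agent.Lib.SW
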