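import Pool.Agent.Lib.SW.Spec

/-!
# Siegel-Walfisz, module WSM: the cost of unsmoothing
-/

set_option autoImplicit false

noncomputable section

namespace Pool.Agent.Lib.SW

open ArithmeticFunction DirichletCharacter MeasureTheory
open Pool.Agent.Lib.LP (G F)

namespace WSMM

theorem evt (K c : ℝ) (k : ℕ) (hc : 0 < c) :
    ∀ᶠ T : ℝ in Filter.atTop, K * T ^ k ≤ Real.exp (c * T) := by
  have h1 := (isLittleO_pow_exp_pos_mul_atTop (k := k) hc).bound
    (show (0 : ℝ) < 1 / (|K| + 1) by positivity)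
  filter_upwards [h1, Filter.eventually_ge_atTop 0] with T hT hT0
  rw [Real.norm_of_nonneg (by positivity), Real.norm_of_nonneg (Real.exp_pos _).le] at hT
  calc K * T ^ k ≤ (|K| + 1) * T ^ k := by
        refine mul_le_mul_of_nonneg_right ?_ (by positivity)
        linarith [le_abs_self K]
    _ ≤ (|K| + 1) * (1 / (|K| + 1) * Real.exp (c * T)) :=
        mul_le_mul_of_nonneg_left hT (by positivity)
    _ = Real.exp (c * T) := by field_simp

theorem exp_le {t : ℝ} (h0 : 0 ≤ t) (h1 : t ≤ 1 / 2) : Real.exp t ≤ 1 + 2 * t := by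
  have h2 : 1 - t ≤ Real.exp (-t) := by
    have := Real.add_one_le_exp (-t)
    linarith
  have h3 : Real.exp t * Real.exp (-t) = 1 := by
    rw [← Real.exp_add, add_neg_cancel, Real.exp_zero]
  have h4 : Real.exp t * (1 - t) ≤ 1 :=
    (mul_le_mul_of_nonneg_left h2 (Real.exp_pos _).le).trans h3.le
  have h5 : 1 ≤ (1 + 2 * t) * (1 - t) := by nlinarith
  exact le_of_mul_le_mul_right (h4.trans h5) (by linarith)

theorem sum_ind (u S : Finset ℕ) {c : ℝ} (hc : 0 ≤ c) :
    ∑ n ∈ u, (if n ∈ S then c else 0) ≤ c * S.card := by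
  rw [Finset.sum_ite_mem, Finset.sum_const, nsmul_eq_mul, mul_comm]
  refine mul_le_mul_of_nonneg_left ?_ hc
  exact_mod_cast Finset.card_le_card Finset.inter_subset_right

theorem sum_sq (u : Finset ℕ) : ∑ n ∈ u, 1 / (n : ℝ) ^ 2 ≤ 2 := by
  have h1 := hasSum_zeta_two.summable.sum_le_tsum u (fun n _ => by positivity)
  rw [hasSum_zeta_two.tsum_eq] at h1
  have h2 := Real.pi_lt_d2
  have h3 := Real.pi_pos
  nlinarith

section

variable {T x : ℝ}

/-- the pointwise bound -/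
theorem point (hGTL : SpecGTL) (hT : 1000 ≤ T) (hx : 0 < x) (hX : T ≤ Real.log x)
    (δ ε₁ ε₂ : ℝ) (hδ : δ = Real.exp (-(T / 3))) (hδ1 : δ ≤ 1 / 2)
    (he1 : ε₁ = Real.exp (-(Real.exp (T / 3) / 2))) (he2 : ε₂ = Real.exp (-(Real.exp (T / 3) / 4)))
    (hl3 : 12 ≤ Real.exp (2 * T / 3)) (n : ℕ) :
    vonMangoldt n * |(if n ≤ ⌊x⌋₊ then (1 : ℝ) else 0) -
      ∫ v in (Real.log x - T - Real.log n)..(Real.log x - Real.log n), G (Real.exp T) v| ≤
    (if n ∈ Finset.Icc 1 ⌊3 * (x * Real.exp (-T))⌋₊ then Real.log x else 0) +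
    (if n ∈ Finset.Icc 1 ⌊x⌋₊ then 2 * ε₁ * Real.log x else 0) +
    (if n ∈ Finset.Ioc ⌊x * Real.exp (-δ)⌋₊ ⌊x * Real.exp δ⌋₊ then Real.log x + 1 else 0) +
    2 * ε₂ * x ^ 3 * (1 / (n : ℝ) ^ 2) := by
  set X : ℝ := Real.log x with hXd
  have hX0 : 0 ≤ X := by linarith
  have he1' : 0 ≤ ε₁ := by rw [he1]; exact (Real.exp_pos _).le
  have he2' : 0 ≤ ε₂ := by rw [he2]; exact (Real.exp_pos _).le
  have hδ0 : 0 < δ := by rw [hδ]; exact Real.exp_pos _
  have n1 : 0 ≤ (if n ∈ Finset.Icc 1 ⌊3 * (x * Real.exp (-T))⌋₊ then X else 0) := by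
    split_ifs
    · exact hX0
    · exact le_rfl
  have n2 : 0 ≤ (if n ∈ Finset.Icc 1 ⌊x⌋₊ then 2 * ε₁ * X else 0) := by
    split_ifs
    · positivity
    · exact le_rfl
  have n3 : 0 ≤ (if n ∈ Finset.Ioc ⌊x * Real.exp (-δ)⌋₊ ⌊x * Real.exp δ⌋₊ then X + 1 else 0) := by
    split_ifs
    · linarith
    · exact le_rfl
  have n4 : 0 ≤ 2 * ε₂ * x ^ 3 * (1 / (n : ℝ) ^ 2) := by positivity
  rcases Nat.eq_zero_or_pos n with hn | hn
  · rw [hn, ArithmeticFunction.map_zero, zero_mul]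
    rw [hn] at n1 n2 n3 n4
    positivity
  set y : ℝ := Real.log n with hy
  have hn0 : (0 : ℝ) < n := by exact_mod_cast hn
  have hny : (n : ℝ) = Real.exp y := (Real.exp_log hn0).symm
  have hxX : x = Real.exp X := (Real.exp_log hx).symm
  have hy0 : 0 ≤ y := Real.log_natCast_nonneg n
  have hL : vonMangoldt n ≤ y := vonMangoldt_le_log
  have hL0 : 0 ≤ vonMangoldt n := vonMangoldt_nonneg
  have hlam : 0 < Real.exp T := Real.exp_pos _
  have hab : X - T - y ≤ X - y := by linarith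
  set w : ℝ := ∫ v in (X - T - y)..(X - y), G (Real.exp T) v with hw
  have hw0 : 0 ≤ w := (hGTL _ hlam (X - T - y) (X - y) 0 le_rfl).1 hab
  have hw1 : w ≤ 1 := (hGTL _ hlam (X - T - y) (X - y) 0 le_rfl).2.1 hab
  have habs : |(if n ≤ ⌊x⌋₊ then (1 : ℝ) else 0) - w| ≤ 1 := by
    rw [abs_le]
    split_ifs
    · constructor <;> linarith
    · constructor <;> linarith
  have hlamd : Real.exp T * δ ^ 2 = Real.exp (T / 3) := by
    rw [hδ, ← Real.exp_nat_mul, ← Real.exp_add]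
    congr 1
    push_cast
    ring
  by_cases c1 : y < X - T + δ
  · have h1 : n ∈ Finset.Icc 1 ⌊3 * (x * Real.exp (-T))⌋₊ := by
      rw [Finset.mem_Icc]
      refine ⟨hn, Nat.le_floor ?_⟩
      have e1 : (n : ℝ) ≤ x * Real.exp (-T) * Real.exp δ := by
        rw [hny, hxX, ← Real.exp_add, ← Real.exp_add]
        exact Real.exp_le_exp.2 (by linarith)
      have e2 : Real.exp δ ≤ 3 := by
        have := exp_le hδ0.le hδ1
        linarith
      have e3 : 0 < x * Real.exp (-T) := mul_pos hx (Real.exp_pos _)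
      nlinarith
    rw [if_pos h1]
    have h2 : vonMangoldt n * |(if n ≤ ⌊x⌋₊ then (1 : ℝ) else 0) - w| ≤ X * 1 :=
      mul_le_mul (by linarith) habs (abs_nonneg _) hX0
    linarith
  by_cases c2 : y ≤ X - δ
  · have hnx : n ≤ ⌊x⌋₊ := by
      refine Nat.le_floor ?_
      rw [hny, hxX]
      exact Real.exp_le_exp.2 (by linarith)
    have h1 : n ∈ Finset.Icc 1 ⌊x⌋₊ := Finset.mem_Icc.2 ⟨hn, hnx⟩
    have h3 := (hGTL _ hlam (X - T - y) (X - y) δ hδ0.le).2.2.1 (by linarith) (by linarith)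
    rw [hlamd, ← he1] at h3
    have h3' : 1 - 2 * ε₁ ≤ w := h3
    have h4 : |(if n ≤ ⌊x⌋₊ then (1 : ℝ) else 0) - w| ≤ 2 * ε₁ := by
      rw [if_pos hnx, abs_of_nonneg (by linarith)]
      linarith
    have h5 : vonMangoldt n * |(if n ≤ ⌊x⌋₊ then (1 : ℝ) else 0) - w| ≤ X * (2 * ε₁) :=
      mul_le_mul (by linarith) h4 (abs_nonneg _) hX0
    rw [if_pos h1]
    linarith
  by_cases c3 : y ≤ X + δ
  · have h1 : n ∈ Finset.Ioc ⌊x * Real.exp (-δ)⌋₊ ⌊x * Real.exp δ⌋₊ := by
      rw [Finset.mem_Ioc]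
      constructor
      · rw [Nat.floor_lt (by positivity)]
        rw [hny, hxX, ← Real.exp_add]
        exact Real.exp_lt_exp.2 (by linarith)
      · refine Nat.le_floor ?_
        rw [hny, hxX, ← Real.exp_add]
        exact Real.exp_le_exp.2 (by linarith)
    have h2 : vonMangoldt n * |(if n ≤ ⌊x⌋₊ then (1 : ℝ) else 0) - w| ≤ (X + 1) * 1 :=
      mul_le_mul (by linarith) habs (abs_nonneg _) (by linarith)
    rw [if_pos h1]
    linarith
  · push Not at c3
    have hnx : ¬n ≤ ⌊x⌋₊ := by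
      rw [not_le, Nat.floor_lt hx.le]
      rw [hny, hxX]
      exact Real.exp_lt_exp.2 (by linarith)
    set d : ℝ := y - X with hd
    have hd0 : δ < d := by rw [hd]; linarith
    have h3 := (hGTL _ hlam (X - T - y) (X - y) d (by linarith)).2.2.2 hab
      (by rw [hd]; linarith)
    have h3' : w ≤ 2 * Real.exp (-(Real.exp T * d ^ 2 / 2)) := h3
    have h4 : Real.exp (-(Real.exp T * d ^ 2 / 2)) ≤ ε₂ * (x / n) ^ 3 := by
      have e1 : (x / n) ^ 3 = Real.exp (-(3 * d)) := by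
        rw [hny, hxX, ← Real.exp_sub, ← Real.exp_nat_mul, hd]
        congr 1
        push_cast
        ring
      rw [e1, he2, ← Real.exp_add]
      refine Real.exp_le_exp.2 ?_
      have e2 : δ ^ 2 + δ * d ≤ 2 * d ^ 2 := by nlinarith
      have e3 : Real.exp T * δ = Real.exp (2 * T / 3) := by
        rw [hδ, ← Real.exp_add]
        congr 1
        ring
      have e4 : Real.exp T * (δ ^ 2 + δ * d) = Real.exp (T / 3) + Real.exp (2 * T / 3) * d := by
        rw [mul_add, hlamd, ← mul_assoc, e3]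
      have e5 : Real.exp (T / 3) + Real.exp (2 * T / 3) * d ≤ Real.exp T * (2 * d ^ 2) := by
        rw [← e4]
        exact mul_le_mul_of_nonneg_left e2 hlam.le
      have e6 : 12 * d ≤ Real.exp (2 * T / 3) * d :=
        mul_le_mul_of_nonneg_right hl3 (by linarith)
      linarith
    have h5 : |(if n ≤ ⌊x⌋₊ then (1 : ℝ) else 0) - w| ≤ 2 * (ε₂ * (x / n) ^ 3) := by
      rw [if_neg hnx, zero_sub, abs_neg, abs_of_nonneg hw0]
      linarith
    have h6 : vonMangoldt n ≤ n := by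
      refine hL.trans ?_
      have := Real.log_le_sub_one_of_pos hn0
      rw [← hy] at this
      linarith
    have h7 : vonMangoldt n * |(if n ≤ ⌊x⌋₊ then (1 : ℝ) else 0) - w| ≤
        n * (2 * (ε₂ * (x / n) ^ 3)) := mul_le_mul h6 h5 (abs_nonneg _) hn0.le
    have h8 : (n : ℝ) * (2 * (ε₂ * (x / n) ^ 3)) = 2 * ε₂ * x ^ 3 * (1 / (n : ℝ) ^ 2) := by
      field_simp
    linarith

end

end WSMM

open WSMM in
theorem specWSM (hGTL : SpecGTL) (_hSMO : SpecSMO) : SpecWSM := by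
  have hev : ∀ᶠ T : ℝ in Filter.atTop, 24 * T ^ 59 ≤ Real.exp (3 / 4 * T) ∧
      16 * T ^ 59 ≤ Real.exp (1 * T) ∧ 64 * T ^ 59 ≤ Real.exp (1 / 12 * T) ∧
      16 * T ^ 59 ≤ Real.exp (1 / 3 * T) ∧ 1000 ≤ T := by
    filter_upwards [evt 24 (3 / 4) 59 (by norm_num), evt 16 1 59 (by norm_num),
      evt 64 (1 / 12) 59 (by norm_num), evt 16 (1 / 3) 59 (by norm_num),
      Filter.eventually_ge_atTop 1000] with T h1 h2 h3 h4 h5
    exact ⟨h1, h2, h3, h4, h5⟩
  obtain ⟨T₀, hT₀⟩ := Filter.eventually_atTop.1 hev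
  refine ⟨T₀, fun T hT x hx1 hx2 hx0 => ?_⟩
  obtain ⟨h1, h2, h3, h4, h5⟩ := hT₀ T hT
  set X : ℝ := Real.log x with hX
  have hT0 : 0 < T := by linarith
  have hTT : T ≤ T ^ 47 := le_self_pow₀ (by linarith) (by norm_num)
  have hTT' : T ≤ T ^ 59 := le_self_pow₀ (by linarith) (by norm_num)
  have hTX : T ≤ X := hTT.trans hx1
  have hX0 : 0 ≤ X := by linarith
  set δ : ℝ := Real.exp (-(T / 3)) with hδ
  have hδ0 : 0 < δ := Real.exp_pos _
  have hδ1 : δ ≤ 1 / 2 := by
    rw [hδ, Real.exp_neg]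
    have e1 : (2 : ℝ) ≤ Real.exp (T / 3) := by
      have := Real.add_one_le_exp (T / 3)
      linarith
    have := inv_anti₀ (by norm_num) e1
    linarith
  set ε₁ : ℝ := Real.exp (-(Real.exp (T / 3) / 2)) with he1
  set ε₂ : ℝ := Real.exp (-(Real.exp (T / 3) / 4)) with he2
  have he1' : 0 < ε₁ := Real.exp_pos _
  have he2' : 0 < ε₂ := Real.exp_pos _
  have hl3 : 12 ≤ Real.exp (2 * T / 3) := by
    have := Real.add_one_le_exp (2 * T / 3)
    linarith
  have hpt := point (T := T) (x := x) hGTL h5 hx0 hTX δ ε₁ ε₂ hδ hδ1 he1 he2 hl3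
  have hxX : x = Real.exp X := (Real.exp_log hx0).symm
  set q : ℝ := Real.exp (-(T / 4)) with hq
  have hq0 : 0 < q := Real.exp_pos _
  -- the four sums
  have hsum : ∀ u : Finset ℕ, ∑ n ∈ u, vonMangoldt n * |(if n ≤ ⌊x⌋₊ then (1 : ℝ) else 0) -
      ∫ v in (X - T - Real.log n)..(X - Real.log n), G (Real.exp T) v| ≤ x * q / 2 := by
    intro u
    refine (Finset.sum_le_sum fun n _ => hpt n).trans ?_
    rw [Finset.sum_add_distrib, Finset.sum_add_distrib, Finset.sum_add_distrib, ← Finset.mul_sum]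
    have s1 := sum_ind u (Finset.Icc 1 ⌊3 * (x * Real.exp (-T))⌋₊) hX0
    have s2 := sum_ind u (Finset.Icc 1 ⌊x⌋₊) (c := 2 * ε₁ * X) (by positivity)
    have s3 := sum_ind u (Finset.Ioc ⌊x * Real.exp (-δ)⌋₊ ⌊x * Real.exp δ⌋₊) (c := X + 1)
      (by linarith)
    have s4 : 2 * ε₂ * x ^ 3 * ∑ n ∈ u, 1 / (n : ℝ) ^ 2 ≤ 2 * ε₂ * x ^ 3 * 2 :=
      mul_le_mul_of_nonneg_left (sum_sq u) (by positivity)
    rw [Nat.card_Icc, Nat.add_sub_cancel] at s1 s2
    rw [Nat.card_Ioc] at s3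
    have c1 : (⌊3 * (x * Real.exp (-T))⌋₊ : ℝ) ≤ 3 * (x * Real.exp (-T)) :=
      Nat.floor_le (by positivity)
    have c2 : (⌊x⌋₊ : ℝ) ≤ x := Nat.floor_le hx0.le
    have c3 : ((⌊x * Real.exp δ⌋₊ - ⌊x * Real.exp (-δ)⌋₊ : ℕ) : ℝ) ≤
        x * Real.exp δ - x * Real.exp (-δ) + 1 := by
      have hle : ⌊x * Real.exp (-δ)⌋₊ ≤ ⌊x * Real.exp δ⌋₊ := by
        refine Nat.floor_mono (mul_le_mul_of_nonneg_left ?_ hx0.le)
        exact Real.exp_le_exp.2 (by linarith)
      rw [Nat.cast_sub hle]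
      have e1 : (⌊x * Real.exp δ⌋₊ : ℝ) ≤ x * Real.exp δ := Nat.floor_le (by positivity)
      have e2 := Nat.lt_floor_add_one (x * Real.exp (-δ))
      linarith
    -- first
    have k1 : X * (⌊3 * (x * Real.exp (-T))⌋₊ : ℝ) ≤ x * q / 8 := by
      have e1 : Real.exp (-T) * Real.exp (3 / 4 * T) = q := by
        rw [hq, ← Real.exp_add]
        congr 1
        ring
      have e2 : 24 * X * Real.exp (-T) ≤ q := by
        rw [← e1, mul_comm (Real.exp (-T))]
        refine mul_le_mul_of_nonneg_right ?_ (Real.exp_pos _).le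
        linarith
      calc X * (⌊3 * (x * Real.exp (-T))⌋₊ : ℝ) ≤ X * (3 * (x * Real.exp (-T))) :=
            mul_le_mul_of_nonneg_left c1 hX0
        _ = x * (24 * X * Real.exp (-T)) / 8 := by ring
        _ ≤ x * q / 8 := by
            have := mul_le_mul_of_nonneg_left e2 hx0.le
            linarith
    -- second
    have hbig : 8 * T ^ 59 ≤ Real.exp (T / 3) / 2 := by
      have : Real.exp (1 / 3 * T) = Real.exp (T / 3) := by
        congr 1
        ring
      rw [this] at h4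
      linarith
    have k2 : 2 * ε₁ * X * (⌊x⌋₊ : ℝ) ≤ x * q / 8 := by
      have e1 : 16 * X * ε₁ ≤ q := by
        have e2 : ε₁ ≤ Real.exp (-(8 * T ^ 59)) := Real.exp_le_exp.2 (neg_le_neg hbig)
        have e3 : Real.exp (1 * T) * Real.exp (-(8 * T ^ 59)) ≤ q := by
          rw [hq, ← Real.exp_add]
          exact Real.exp_le_exp.2 (by linarith)
        calc 16 * X * ε₁ ≤ (16 * T ^ 59) * Real.exp (-(8 * T ^ 59)) :=
              mul_le_mul (by linarith) e2 he1'.le (by positivity)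
          _ ≤ Real.exp (1 * T) * Real.exp (-(8 * T ^ 59)) :=
              mul_le_mul_of_nonneg_right h2 (Real.exp_pos _).le
          _ ≤ q := e3
      calc 2 * ε₁ * X * (⌊x⌋₊ : ℝ) ≤ 2 * ε₁ * X * x :=
            mul_le_mul_of_nonneg_left c2 (by positivity)
        _ = x * (16 * X * ε₁) / 8 := by ring
        _ ≤ x * q / 8 := by
            have := mul_le_mul_of_nonneg_left e1 hx0.le
            linarith
    -- third
    have k3 : (X + 1) * ((⌊x * Real.exp δ⌋₊ - ⌊x * Real.exp (-δ)⌋₊ : ℕ) : ℝ) ≤ x * q / 8 := by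
      have e1 := exp_le hδ0.le hδ1
      have e2 := Real.add_one_le_exp (-δ)
      have e3 : 1 ≤ x * δ := by
        rw [hxX, hδ, ← Real.exp_add]
        exact Real.one_le_exp (by linarith)
      have e4 : x * Real.exp δ - x * Real.exp (-δ) + 1 ≤ x * (4 * δ) := by
        have f1 := mul_le_mul_of_nonneg_left e1 hx0.le
        have f2 := mul_le_mul_of_nonneg_left e2 hx0.le
        linarith
      have e5 : δ * Real.exp (1 / 12 * T) = q := by
        rw [hδ, hq, ← Real.exp_add]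
        congr 1
        ring
      have e6 : 64 * T ^ 59 * δ ≤ q := by
        rw [← e5, mul_comm δ]
        exact mul_le_mul_of_nonneg_right h3 hδ0.le
      calc (X + 1) * ((⌊x * Real.exp δ⌋₊ - ⌊x * Real.exp (-δ)⌋₊ : ℕ) : ℝ)
          ≤ (2 * T ^ 59) * (x * (4 * δ)) :=
            mul_le_mul (by linarith) (c3.trans e4) (Nat.cast_nonneg _) (by positivity)
        _ = x * (64 * T ^ 59 * δ) / 8 := by ring
        _ ≤ x * q / 8 := by
            have := mul_le_mul_of_nonneg_left e6 hx0.le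
            linarith
    -- fourth
    have k4 : 2 * ε₂ * x ^ 3 * 2 ≤ x * q / 8 := by
      have e1 : ε₂ ≤ Real.exp (-(4 * T ^ 59)) := Real.exp_le_exp.2 (by linarith)
      have e2 : x ^ 2 ≤ Real.exp (2 * T ^ 59) := by
        rw [hxX, ← Real.exp_nat_mul]
        refine Real.exp_le_exp.2 ?_
        push_cast
        linarith
      have e3 : (32 : ℝ) ≤ Real.exp T := by
        have := Real.add_one_le_exp T
        linarith
      have e4 : 32 * (ε₂ * x ^ 2) ≤ q := by
        calc 32 * (ε₂ * x ^ 2) ≤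
              Real.exp T * (Real.exp (-(4 * T ^ 59)) * Real.exp (2 * T ^ 59)) :=
              mul_le_mul e3 (mul_le_mul e1 e2 (by positivity) (by positivity)) (by positivity)
                (by positivity)
          _ ≤ q := by
              rw [hq, ← Real.exp_add, ← Real.exp_add]
              exact Real.exp_le_exp.2 (by linarith)
      calc 2 * ε₂ * x ^ 3 * 2 = x * (32 * (ε₂ * x ^ 2)) / 8 := by ring
        _ ≤ x * q / 8 := by
            have := mul_le_mul_of_nonneg_left e4 hx0.le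
            linarith
    linarith
  have hnn : ∀ n : ℕ, 0 ≤ vonMangoldt n * |(if n ≤ ⌊x⌋₊ then (1 : ℝ) else 0) -
      ∫ v in (X - T - Real.log n)..(X - Real.log n), G (Real.exp T) v| := fun n =>
    mul_nonneg vonMangoldt_nonneg (abs_nonneg _)
  exact ⟨summable_of_sum_le hnn hsum, Real.tsum_le_of_sum_le hnn hsum⟩

end Pool.Agent.Lib.SW
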