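import Pool.Agent.Lib.SW.Spec
import Pool.Agent.Lib.MP_155064_nt.ZetaGrowth

set_option autoImplicit false

/-!
# SW, module ZET (helper39): the zeta function in the right half plane
-/

namespace Pool.Agent.Lib.SW

open Complex

theorem specZET : SpecZET := by
  refine ⟨fun s => 1 - s * mellin Pool.Agent.Lib.MP_155064_nt.fr (-s), ?_, ?_, ?_⟩
  · intro s hs
    have h1 : DifferentiableAt ℂ (mellin Pool.Agent.Lib.MP_155064_nt.fr) (-s) :=
      Pool.Agent.Lib.MP_155064_nt.differentiableAt_mellin_fr (by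
        rw [Complex.neg_re]
        linarith)
    have h2 : DifferentiableAt ℂ (fun z : ℂ => mellin Pool.Agent.Lib.MP_155064_nt.fr (-z)) s :=
      h1.comp s differentiableAt_id.neg
    exact (differentiableAt_const 1).sub (differentiableAt_id.mul h2)
  · intro s hs hs1
    have h := Pool.Agent.Lib.MP_155064_nt.riemannZeta₁_eq hs
    have hne : s - 1 ≠ 0 := sub_ne_zero.mpr hs1
    rw [riemannZeta_eq_inv_sub_mul hs1, h]
    field_simp
    ring
  · intro s hs
    have h := Pool.Agent.Lib.MP_155064_nt.norm_mellin_fr_le hs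
    refine (norm_sub_le _ _).trans ?_
    rw [norm_one, norm_mul]
    have h2 : ‖s‖ * ‖mellin Pool.Agent.Lib.MP_155064_nt.fr (-s)‖ ≤ ‖s‖ * (1 / s.re) :=
      mul_le_mul_of_nonneg_left h (norm_nonneg s)
    have h3 : ‖s‖ * (1 / s.re) = ‖s‖ / s.re := by ring
    linarith

end Pool.Agent.Lib.SW
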