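import Pool.Agent.Lib.SW.Spec
import Pool.Agent.Lib.LP.SIG
import Pool.Agent.Lib.LP.ZB

/-!
# SW, module ZTE: the principal character up to height `e^T`
-/

set_option autoImplicit false

noncomputable section

namespace Pool.Agent.Lib.SW

open ArithmeticFunction DirichletCharacter MeasureTheory
open Pool.Agent.Lib.LP (ZBM.zeta_eq ZBM.norm_cpow_eq ZBM.meas)

namespace ZTEM

/-- the coefficients of the zeta function, with value `0` at `0` -/
def cc (k : ℕ) : ℂ := if k = 0 then 0 else 1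

lemma sum_cc (n : ℕ) : ∑ k ∈ Finset.Icc 0 n, cc k = (n : ℂ) := by
  induction n with
  | zero => simp [cc]
  | succ n ih =>
    rw [Finset.sum_Icc_succ_top (Nat.zero_le _), ih, cc, if_neg (Nat.succ_ne_zero n)]
    push_cast
    ring

lemma sum_icc_zero (g : ℕ → ℂ) (n : ℕ) :
    ∑ k ∈ Finset.Icc 0 n, g k * cc k = ∑ k ∈ Finset.Icc 1 n, g k := by
  symm
  have h : ∑ k ∈ Finset.Icc 1 n, g k = ∑ k ∈ Finset.Icc 1 n, g k * cc k := by
    refine Finset.sum_congr rfl (fun k hk => ?_)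
    rw [Finset.mem_Icc] at hk
    rw [cc, if_neg (by omega), mul_one]
  rw [h]
  refine Finset.sum_subset (fun k hk => ?_) (fun k hk hk2 => ?_)
  · rw [Finset.mem_Icc] at hk ⊢
    omega
  · rw [Finset.mem_Icc] at hk hk2
    have : k = 0 := by omega
    rw [this, cc, if_pos rfl, mul_zero]

lemma hasDeriv (s : ℂ) (t : ℝ) (ht : 0 < t) :
    HasDerivAt (fun u : ℝ => (u : ℂ) ^ (-s)) (-s * (t : ℂ) ^ (-(s + 1))) t := by
  have h := (hasDerivAt_id (t : ℂ)).cpow_const (c := -s)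
    (by simp only [id_eq]; exact Or.inl (by simpa using ht))
  have h2 := h.comp_ofReal
  simp only [id_eq, mul_one] at h2
  have e : -s - 1 = -(s + 1) := by ring
  rw [e] at h2
  exact h2

lemma cont_cpow (s : ℂ) : ContinuousOn (fun t : ℝ => (t : ℂ) ^ (-(s + 1))) (Set.Ioi 0) := by
  intro t ht
  have ht' : (0 : ℝ) < t := ht
  have h := (hasDeriv (s + 1) t ht').continuousAt
  exact h.continuousWithinAt

lemma partial_sum (s : ℂ) (N : ℕ) :
    ∑ k ∈ Finset.Icc 1 N, (k : ℂ) ^ (-s) = (N : ℂ) ^ (-s) * N +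
      s * ∫ t in Set.Ioc (1 : ℝ) N, ((⌊t⌋₊ : ℝ) : ℂ) * (t : ℂ) ^ (-(s + 1)) := by
  have hd : ∀ t ∈ Set.Icc (1 : ℝ) N, DifferentiableAt ℝ (fun u : ℝ => (u : ℂ) ^ (-s)) t := by
    intro t ht
    exact (hasDeriv s t (by linarith [ht.1])).differentiableAt
  have hder : ∀ t : ℝ, 1 ≤ t → deriv (fun u : ℝ => (u : ℂ) ^ (-s)) t = -s * (t : ℂ) ^ (-(s + 1)) :=
    fun t ht => (hasDeriv s t (by linarith)).deriv
  have hcont : ContinuousOn (fun t : ℝ => -s * (t : ℂ) ^ (-(s + 1))) (Set.Icc (1 : ℝ) N) := by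
    refine ContinuousOn.mul continuousOn_const ((cont_cpow s).mono ?_)
    intro t ht
    have : (1 : ℝ) ≤ t := ht.1
    exact Set.mem_Ioi.mpr (by linarith)
  have hi : IntegrableOn (deriv (fun u : ℝ => (u : ℂ) ^ (-s))) (Set.Icc (1 : ℝ) N) := by
    refine IntegrableOn.congr_fun (hcont.integrableOn_compact isCompact_Icc) ?_ measurableSet_Icc
    intro t ht
    exact (hder t ht.1).symm
  have h := sum_mul_eq_sub_integral_mul₀' cc (by simp [cc]) N hd hi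
  rw [sum_icc_zero (fun k => (((k : ℕ) : ℝ) : ℂ) ^ (-s)) N, sum_cc] at h
  have h2 : ∫ t in Set.Ioc (1 : ℝ) N, deriv (fun u : ℝ => (u : ℂ) ^ (-s)) t *
      ∑ k ∈ Finset.Icc 0 ⌊t⌋₊, cc k =
      -s * ∫ t in Set.Ioc (1 : ℝ) N, ((⌊t⌋₊ : ℝ) : ℂ) * (t : ℂ) ^ (-(s + 1)) := by
    rw [← integral_const_mul]
    refine setIntegral_congr_fun measurableSet_Ioc (fun t ht => ?_)
    have ht1 : (1 : ℝ) ≤ t := ht.1.le
    show deriv (fun u : ℝ => (u : ℂ) ^ (-s)) t * ∑ k ∈ Finset.Icc 0 ⌊t⌋₊, cc k =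
      -s * (((⌊t⌋₊ : ℝ) : ℂ) * (t : ℂ) ^ (-(s + 1)))
    rw [hder t ht1, sum_cc]
    push_cast
    ring
  rw [h2] at h
  have h3 : ∑ k ∈ Finset.Icc 1 N, (((k : ℕ) : ℝ) : ℂ) ^ (-s) =
      ∑ k ∈ Finset.Icc 1 N, (k : ℂ) ^ (-s) :=
    Finset.sum_congr rfl (fun k _ => by push_cast; rfl)
  rw [h3] at h
  rw [h]
  push_cast
  ring

lemma int_floor {s : ℂ} (hs : 1 < s.re) :
    IntegrableOn (fun t : ℝ => ((⌊t⌋₊ : ℝ) : ℂ) * (t : ℂ) ^ (-(s + 1))) (Set.Ioi 1) := by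
  have hI : IntegrableOn (fun t : ℝ => t ^ (-s.re)) (Set.Ioi 1) :=
    integrableOn_Ioi_rpow_of_lt (by linarith) one_pos
  refine Integrable.mono' hI ?_ ?_
  · have hm : Measurable fun t : ℝ => ((⌊t⌋₊ : ℝ) : ℂ) * (t : ℂ) ^ (-(s + 1)) := by
      refine Measurable.mul ?_ (Complex.measurable_ofReal.pow_const _)
      refine Complex.measurable_ofReal.comp ?_
      exact (measurable_from_nat (f := fun n : ℕ => (n : ℝ))).comp Nat.measurable_floor
    exact hm.aestronglyMeasurable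
  · filter_upwards [self_mem_ae_restrict measurableSet_Ioi] with t ht
    have ht1 : (1 : ℝ) < t := ht
    have ht0 : (0 : ℝ) < t := by linarith
    rw [norm_mul, LP.ZBM.norm_cpow_eq ht0, Complex.norm_real, Real.norm_of_nonneg (Nat.cast_nonneg _)]
    calc (⌊t⌋₊ : ℝ) * t ^ (-(s + 1)).re ≤ t * t ^ (-(s + 1)).re :=
          mul_le_mul_of_nonneg_right (Nat.floor_le ht0.le) (Real.rpow_nonneg ht0.le _)
      _ = t ^ (-s.re) := by
          rw [mul_comm, ← Real.rpow_add_one ht0.ne']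
          congr 1
          simp

lemma zeta_trunc {s : ℂ} (hs : 1 < s.re) (N : ℕ) (hN : 1 ≤ N) :
    ‖riemannZeta s‖ ≤ (1 + Real.log N) + 1 / ‖s - 1‖ + ‖s‖ / N := by
  have hN1 : (1 : ℝ) ≤ (N : ℝ) := by exact_mod_cast hN
  have hN0 : (0 : ℝ) < (N : ℝ) := by linarith
  have hNc : (N : ℂ) ≠ 0 := by exact_mod_cast hN0.ne'
  have hs1 : s - 1 ≠ 0 := by
    intro h
    have := congrArg Complex.re h
    simp at this
    linarith
  have hsub : Set.Ioi (N : ℝ) ⊆ Set.Ioi 1 := Set.Ioi_subset_Ioi hN1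
  -- the fractional parts
  have hbd : ∀ᵐ t ∂(volume.restrict (Set.Ioi (N : ℝ))),
      ‖((t - ⌊t⌋₊ : ℝ) : ℂ) * (t : ℂ) ^ (-(s + 1))‖ ≤ t ^ (-(s.re + 1)) := by
    filter_upwards [self_mem_ae_restrict measurableSet_Ioi] with t ht
    have ht1 : (N : ℝ) < t := ht
    have ht0 : (0 : ℝ) < t := by linarith
    rw [norm_mul, LP.ZBM.norm_cpow_eq ht0, Complex.norm_real,
      Real.norm_of_nonneg (sub_nonneg.2 (Nat.floor_le ht0.le))]
    have h1 : t - ⌊t⌋₊ ≤ 1 := by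
      have := Nat.lt_floor_add_one t
      linarith
    calc (t - ⌊t⌋₊) * t ^ (-(s + 1)).re ≤ 1 * t ^ (-(s + 1)).re :=
          mul_le_mul_of_nonneg_right h1 (Real.rpow_nonneg ht0.le _)
      _ = t ^ (-(s.re + 1)) := by rw [one_mul]; simp
  have hI2 : IntegrableOn (fun t : ℝ => t ^ (-(s.re + 1))) (Set.Ioi (N : ℝ)) :=
    integrableOn_Ioi_rpow_of_lt (by linarith) hN0
  have hJint : IntegrableOn (fun t : ℝ => ((t - ⌊t⌋₊ : ℝ) : ℂ) * (t : ℂ) ^ (-(s + 1)))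
      (Set.Ioi (N : ℝ)) :=
    Integrable.mono' hI2 (LP.ZBM.meas s).aestronglyMeasurable hbd
  have hJ : ‖∫ t in Set.Ioi (N : ℝ), ((t - ⌊t⌋₊ : ℝ) : ℂ) * (t : ℂ) ^ (-(s + 1))‖ ≤ 1 / (N : ℝ) := by
    refine (norm_integral_le_of_norm_le hI2 hbd).trans ?_
    rw [integral_Ioi_rpow_of_lt (by linarith) hN0,
      show -(s.re + 1) + 1 = -s.re by ring, neg_div_neg_eq]
    have h3 : (N : ℝ) ^ (-s.re) ≤ (N : ℝ) ^ (-1 : ℝ) :=
      Real.rpow_le_rpow_of_exponent_le hN1 (by linarith)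
    rw [Real.rpow_neg_one] at h3
    calc (N : ℝ) ^ (-s.re) / s.re ≤ (N : ℝ)⁻¹ / 1 :=
          div_le_div₀ (by positivity) h3 one_pos hs.le
      _ = 1 / (N : ℝ) := by rw [div_one, one_div]
  have hI1 : IntegrableOn (fun t : ℝ => (t : ℂ) ^ (-s)) (Set.Ioi (N : ℝ)) :=
    integrableOn_Ioi_cpow_of_lt (by simpa using hs) hN0
  have hv : ∫ t in Set.Ioi (N : ℝ), (t : ℂ) ^ (-s) = (N : ℂ) ^ (-s) * N / (s - 1) := by
    rw [integral_Ioi_cpow_of_lt (by simpa using hs) hN0,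
      show -s + 1 = -(s - 1) by ring, neg_div_neg_eq]
    congr 1
    rw [show -(s - 1) = -s + 1 by ring]
    have h4 : (((N : ℕ) : ℝ) : ℂ) = (N : ℂ) := by push_cast; rfl
    rw [h4, Complex.cpow_add _ _ hNc, Complex.cpow_one]
  have hsplit : ∫ t in Set.Ioi (N : ℝ), ((⌊t⌋₊ : ℝ) : ℂ) * (t : ℂ) ^ (-(s + 1)) =
      (N : ℂ) ^ (-s) * N / (s - 1) -
        ∫ t in Set.Ioi (N : ℝ), ((t - ⌊t⌋₊ : ℝ) : ℂ) * (t : ℂ) ^ (-(s + 1)) := by
    rw [← hv, ← integral_sub hI1 hJint]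
    refine setIntegral_congr_fun measurableSet_Ioi fun t ht => ?_
    have ht1 : (N : ℝ) < t := ht
    have ht0 : (t : ℂ) ≠ 0 := by
      exact_mod_cast (by linarith : (t : ℝ) ≠ 0)
    have h2 : (t : ℂ) ^ (-s) = t * (t : ℂ) ^ (-(s + 1)) := by
      rw [show -s = -(s + 1) + 1 by ring, Complex.cpow_add _ _ ht0, Complex.cpow_one, mul_comm]
    show ((⌊t⌋₊ : ℝ) : ℂ) * (t : ℂ) ^ (-(s + 1)) = (t : ℂ) ^ (-s) -
      ((t - ⌊t⌋₊ : ℝ) : ℂ) * (t : ℂ) ^ (-(s + 1))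
    rw [h2]
    push_cast
    ring
  have hunion : ∫ t in Set.Ioi (1 : ℝ), ((⌊t⌋₊ : ℝ) : ℂ) * (t : ℂ) ^ (-(s + 1)) =
      (∫ t in Set.Ioc (1 : ℝ) N, ((⌊t⌋₊ : ℝ) : ℂ) * (t : ℂ) ^ (-(s + 1))) +
      ∫ t in Set.Ioi (N : ℝ), ((⌊t⌋₊ : ℝ) : ℂ) * (t : ℂ) ^ (-(s + 1)) := by
    rw [← Set.Ioc_union_Ioi_eq_Ioi hN1]
    refine setIntegral_union ?_ measurableSet_Ioi ?_ ?_
    · exact Set.Ioc_disjoint_Ioi le_rfl
    · exact (int_floor hs).mono_set Set.Ioc_subset_Ioi_self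
    · exact (int_floor hs).mono_set hsub
  have hz : riemannZeta s = ∑ k ∈ Finset.Icc 1 N, (k : ℂ) ^ (-s) +
      (N : ℂ) ^ (-s) * N / (s - 1) -
      s * ∫ t in Set.Ioi (N : ℝ), ((t - ⌊t⌋₊ : ℝ) : ℂ) * (t : ℂ) ^ (-(s + 1)) := by
    rw [LP.ZBM.zeta_eq hs, hunion, hsplit, partial_sum s N]
    field_simp
    ring
  rw [hz]
  have hA : ‖∑ k ∈ Finset.Icc 1 N, (k : ℂ) ^ (-s)‖ ≤ 1 + Real.log N := by
    refine le_trans ?_ (harmonic_le_one_add_log N)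
    rw [harmonic_eq_sum_Icc]
    push_cast
    refine (norm_sum_le _ _).trans (Finset.sum_le_sum (fun k hk => ?_))
    rw [Finset.mem_Icc] at hk
    have hk1 : (1 : ℝ) ≤ (k : ℝ) := by exact_mod_cast hk.1
    have hk0 : (0 : ℝ) < (k : ℝ) := by linarith
    have h5 : ‖(k : ℂ) ^ (-s)‖ = (k : ℝ) ^ (-s).re := by
      have := LP.ZBM.norm_cpow_eq (s := -s) hk0
      simpa using this
    rw [h5, ← Real.rpow_neg_one]
    exact Real.rpow_le_rpow_of_exponent_le hk1 (by simpa using hs.le)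
  have hB : ‖(N : ℂ) ^ (-s) * N / (s - 1)‖ ≤ 1 / ‖s - 1‖ := by
    rw [norm_div, norm_mul]
    have h5 : ‖(N : ℂ) ^ (-s)‖ = (N : ℝ) ^ (-s).re := by
      have := LP.ZBM.norm_cpow_eq (s := -s) hN0
      simpa using this
    have h6 : ‖(N : ℂ)‖ = (N : ℝ) := by
      rw [Complex.norm_natCast]
    rw [h5, h6]
    have h7 : (N : ℝ) ^ (-s).re ≤ (N : ℝ)⁻¹ := by
      rw [← Real.rpow_neg_one]
      exact Real.rpow_le_rpow_of_exponent_le hN1 (by simpa using hs.le)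
    have h8 : (N : ℝ) ^ (-s).re * N ≤ 1 := by
      calc (N : ℝ) ^ (-s).re * N ≤ (N : ℝ)⁻¹ * N := mul_le_mul_of_nonneg_right h7 hN0.le
        _ = 1 := inv_mul_cancel₀ hN0.ne'
    exact div_le_div_of_nonneg_right h8 (norm_nonneg _)
  have hC : ‖s * ∫ t in Set.Ioi (N : ℝ), ((t - ⌊t⌋₊ : ℝ) : ℂ) * (t : ℂ) ^ (-(s + 1))‖ ≤ ‖s‖ / N := by
    rw [norm_mul]
    calc ‖s‖ * _ ≤ ‖s‖ * (1 / (N : ℝ)) := mul_le_mul_of_nonneg_left hJ (norm_nonneg _)
      _ = ‖s‖ / N := by ring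
  refine (norm_sub_le _ _).trans ?_
  exact add_le_add ((norm_add_le _ _).trans (add_le_add hA hB)) hC

end ZTEM

open ZTEM in
theorem specZTE : SpecZTE := by
  intro T hT q _ hq s hs1 hs3 him
  have hne : s ≠ 1 := by
    rintro rfl
    simp at hs1
  have hE : T + 1 ≤ Real.exp T := Real.add_one_le_exp T
  have hEpos : 0 < Real.exp T := Real.exp_pos T
  -- the zeta function
  have hz : ‖riemannZeta s‖ ≤ T + 5 + 1 / ‖s - 1‖ := by
    have hN1 : 1 ≤ ⌈Real.exp T⌉₊ := Nat.one_le_iff_ne_zero.mpr (by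
      rw [Ne, Nat.ceil_eq_zero]
      linarith)
    have h := zeta_trunc hs1 ⌈Real.exp T⌉₊ hN1
    have hc1 : Real.exp T ≤ (⌈Real.exp T⌉₊ : ℝ) := Nat.le_ceil _
    have hc2 : (⌈Real.exp T⌉₊ : ℝ) < Real.exp T + 1 := Nat.ceil_lt_add_one hEpos.le
    have hlog : Real.log (⌈Real.exp T⌉₊ : ℝ) ≤ T + 1 := by
      rw [Real.log_le_iff_le_exp (by linarith), Real.exp_add]
      have h2 : (2 : ℝ) ≤ Real.exp 1 := by
        have := Real.add_one_le_exp (1 : ℝ)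
        linarith
      nlinarith
    have hns : ‖s‖ ≤ 4 + 2 * Real.exp T := by
      have h3 := Complex.norm_le_abs_re_add_abs_im s
      rw [abs_of_pos (by linarith : 0 < s.re)] at h3
      linarith
    have hdiv : ‖s‖ / (⌈Real.exp T⌉₊ : ℝ) ≤ 3 := by
      rw [div_le_iff₀ (by linarith)]
      linarith
    linarith
  -- the product
  have hp : ‖∏ p ∈ q.primeFactors, (1 - (p : ℂ) ^ (-s))‖ ≤ 1 + T := by
    refine le_trans ?_ ((LP.specSIG q (NeZero.ne q)).1.trans (by linarith))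
    rw [norm_prod]
    refine Finset.prod_le_prod (fun p _ => norm_nonneg _) fun p hp => ?_
    have hp1 : (1 : ℝ) < p := by exact_mod_cast (Nat.prime_of_mem_primeFactors hp).one_lt
    have hp0 : (0 : ℝ) < p := by linarith
    refine (norm_sub_le _ _).trans ?_
    rw [norm_one]
    gcongr
    have h8 : ‖(p : ℂ) ^ (-s)‖ = (p : ℝ) ^ (-s).re := by
      have := LP.ZBM.norm_cpow_eq (s := -s) hp0
      simpa using this
    rw [h8, one_div, ← Real.rpow_neg_one]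
    exact Real.rpow_le_rpow_of_exponent_le hp1.le (by simpa using hs1.le)
  rw [LFunctionTrivChar_eq_mul_riemannZeta hne, norm_mul]
  have hd0 : 0 ≤ 1 / ‖s - 1‖ := by positivity
  have hT0 : 0 < T := by linarith
  calc ‖∏ p ∈ q.primeFactors, (1 - (p : ℂ) ^ (-s))‖ * ‖riemannZeta s‖ ≤
      (1 + T) * (T + 5 + 1 / ‖s - 1‖) := mul_le_mul hp hz (norm_nonneg _) (by linarith)
    _ ≤ T ^ 3 * (1 + 1 / ‖s - 1‖) := by
        have hT2 : 1000 * T ≤ T ^ 2 := by nlinarith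
        have hT3 : 1000 * T ^ 2 ≤ T ^ 3 := by
          have h4 : T ^ 3 = T * T ^ 2 := by ring
          rw [h4]
          exact mul_le_mul_of_nonneg_right hT (by positivity)
        have h1 : (1 + T) * (T + 5) ≤ T ^ 3 := by
          have h5 : (1 + T) * (T + 5) = T ^ 2 + 6 * T + 5 := by ring
          rw [h5]
          linarith
        have h2 : 1 + T ≤ T ^ 3 := by linarith
        have h3 := mul_le_mul_of_nonneg_right h2 hd0
        nlinarith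

end Pool.Agent.Lib.SW
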