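import Pool.Agent.Lib.SW.TRU
import Pool.Agent.Lib.SW.UBE
import Pool.Agent.Lib.SW.DBE
import Pool.Agent.Lib.SW.ZTE
import Pool.Agent.Lib.SW.LBE
import Pool.Agent.Lib.SW.ZET
import Pool.Agent.Lib.SW.NNG
import Pool.Agent.Lib.SW.TAY
import Pool.Agent.Lib.SW.CAU
import Pool.Agent.Lib.SW.EST
import Pool.Agent.Lib.SW.REA
import Pool.Agent.Lib.SW.SGL
import Pool.Agent.Lib.SW.GDE
import Pool.Agent.Lib.SW.PSE
import Pool.Agent.Lib.SW.GTL
import Pool.Agent.Lib.SW.SMO
import Pool.Agent.Lib.SW.WSM
import Pool.Agent.Lib.SW.UNS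
import Pool.Agent.Lib.SW.PRS
import Pool.Agent.Lib.SW.SW
import Pool.Agent.Lib.SW.SWA

/-!
# Siegel's theorem and the Siegel-Walfisz theorem, without hypotheses

`siegel : SpecSGL`, `siegelWalfisz : SpecSW` (character sums over primes and `Λ`), `siegelWalfisz_ap : SpecSWA`
(primes in arithmetic progressions), and the tools: `ube`, `dbe`, `lbe`, `gde` (zero-free region up to height
`e^T`), `pse` (narrow Gaussian weights), `uns`, `prs`.
-/

set_option autoImplicit false

namespace Pool.Agent.Lib.SW

theorem tru : SpecTRU := specTRU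
theorem ube : SpecUBE := specUBE tru
theorem dbe : SpecDBE := specDBE ube
theorem zte : SpecZTE := specZTE
theorem lbe : SpecLBE := specLBE ube dbe zte
theorem zet : SpecZET := specZET
theorem nng : SpecNNG := specNNG
theorem tay : SpecTAY := specTAY nng
theorem cau : SpecCAU := specCAU zet tay
theorem est : SpecEST := specEST cau
theorem rea : SpecREA := specREA
/-- Siegel's theorem -/
theorem siegel : SpecSGL := specSGL zet est rea
theorem gde : SpecGDE := specGDE dbe lbe siegel
theorem pse : SpecPSE := specPSE dbe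
theorem gtl : SpecGTL := specGTL
theorem smo : SpecSMO := specSMO gtl
theorem wsm : SpecWSM := specWSM gtl smo
theorem uns : SpecUNS := specUNS pse smo wsm
theorem prs : SpecPRS := specPRS uns
/-- the Siegel-Walfisz theorem for character sums -/
theorem siegelWalfisz : SpecSW := specSW gde uns prs
/-- the Siegel-Walfisz theorem for primes in arithmetic progressions -/
theorem siegelWalfisz_ap : SpecSWA := specSWA siegelWalfisz

end Pool.Agent.Lib.SW
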