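import Mathlib
import Pool.Agent.Lib.LP.Spec

/-!
# The Siegel-Walfisz theorem: definitions and statements

THEOREMS.  `SpecSGL` (Siegel): `|L(1, χ)| ≥ c(ε) q^(-ε)` for all real `χ ≠ 1`.  `SpecSW` (Siegel-Walfisz): for
all `A`, `B`, all large `x`, `q ≤ (log x)^A` and all `χ ≠ 1` mod `q` the sums of `Λ(n) χ(n)`, `χ(p) log p`, `χ(p)` up to
`x` are at most `x/(log x)^B`.  `SpecSWA`: the same for classes: `|ψ(x; q, a) - ψ(x)/φ(q)| ≤ x/(log x)^B`, and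
`π(x; q, a)`.

Everything is proved from the landed library `Lib/LP` (files `LP/PER`, `LP/CONT`, `LP/UB`, `LP/SIG`, `LP/ZB`, `LP/INV`,
`LP/CHL`, `LP/LDB`, `LP/EXP`, `LP/REC`; a module may import these files and use the theorems `specPER`,
`specCON specPER`, ... of the namespace `Pool.Agent.Lib.LP` directly; only Specs of THIS file are passed
as hypotheses).  The parameter `T`: `log q ≤ T`, heights `|t| ≤ e^T`, `T^47 ≤ log x ≤ T^59`.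

(1) `|L|, |L'| ≤ T^4` for `|t| ≤ e^T`, `σ ≥ 1 - 1/(2T)` (truncated partial summation).  (2) 3-4-1 as in LP.
(3) Siegel's theorem by Estermann's method: the power series at `2` of
`F = ζ L(χ₁) L(χ₂) L(χ₁χ₂) = ∑ b_m (2-s)^m`, `b_m ≥ 0`; Cauchy's estimate for `F - λ/(s-1)` on `|s - 2| = 4/3`.
(4) Gaussian weights with `λ = e^T`, contour at `σ = 1 - T^(-44)`. (5) Unsmoothing, primes, classes.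

One file `SW/<NAME>.lean` per module, namespace `Pool.Agent.Lib.SW`, auxiliary lemmas in the sub-namespace
`<NAME>M`, theorem `spec<NAME> (h : SpecYYY) .. : Spec<NAME>` with the modules named after USES in this order.
-/

set_option autoImplicit false

noncomputable section

namespace Pool.Agent.Lib.SW

open ArithmeticFunction DirichletCharacter MeasureTheory
open Pool.Agent.Lib.LP (G F)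

/-- no zeros near the line `σ = 1` up to height `e^T` -/
def GoodE (T : ℝ) (q : ℕ) [NeZero q] : Prop :=
  ∀ χ : DirichletCharacter ℂ q, χ ≠ 1 → ∀ σ y : ℝ, |y| ≤ Real.exp T → 1 - (T ^ 44)⁻¹ ≤ σ → σ ≤ 2 →
    (T ^ 44)⁻¹ ≤ ‖χ.LFunction (σ + y * Complex.I)‖

/-- `ζ(s) L(s, χ₁) L(s, χ₂) L(s, χ₁ χ₂)` -/
def E4 {q : ℕ} [NeZero q] (χ₁ χ₂ : DirichletCharacter ℂ q) (s : ℂ) : ℂ :=
  riemannZeta s * χ₁.LFunction s * χ₂.LFunction s * (χ₁ * χ₂).LFunction s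

/-! ### Upper and lower bounds up to height `e^T` -/

/-- TRU (120 lines; imports LP.PER, LP.CONT). PROOF. Write `S(u) = ∑_{k ≤ u} χ(k)`, `|S| ≤ q` (PER). By CON
`L(s) = s ∫_1^N S(u) u^(-s-1) du + s ∫_N^∞ S(u) u^(-s-1) du`. The second term is at most
`‖s‖ q ∫_N^∞ u^(-σ-1) du = ‖s‖ q N^(-σ)/σ` (`integral_Ioi_rpow_of_lt`). The first one is
`∑_{k ≤ N} χ(k) k^(-s) - S(N) N^(-s)` (Abel summation: `sum_mul_eq_sub_integral_mul₁`-type lemmas, or induction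
on `N` with `s ∫_N^{N+1} u^(-s-1) du = N^(-s) - (N+1)^(-s)`), and `‖k^(-s)‖ = k^(-σ)`. -/
def SpecTRU : Prop := ∀ (q : ℕ) [NeZero q] (χ : DirichletCharacter ℂ q), χ ≠ 1 → ∀ s : ℂ,
  0 < s.re → ∀ N : ℕ, 1 ≤ N →
  ‖χ.LFunction s‖ ≤ ∑ n ∈ Finset.Icc 1 N, (n : ℝ) ^ (-s.re) +
    q * (N : ℝ) ^ (-s.re) * (1 + ‖s‖ / s.re)

/-- UBE (120 lines), USES TRU. PROOF. `N = ⌈e^(2T+2)⌉`, so `e^(2T+2) ≤ N ≤ e^(2T+3)`. With `σ ≥ 1 - 1/T` and `n ≤ N`: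
`n^(-σ) ≤ n⁻¹ n^(1/T) ≤ n⁻¹ e^((2T+3)/T) ≤ 8 n⁻¹`, the sum is `≤ 8 (1 + log N) ≤ 8 (2T + 4)`. Next
`q N^(-σ) ≤ e^T e^(-(2T+2)(1 - 1/T)) ≤ e^(-T + 1)`, `1 + ‖s‖/σ ≤ 1 + 2 (3 + 2 e^T + 1) ≤ 5 e^T`; the product is
`≤ 5 e ≤ 14`. Total `≤ 16 T + 46 ≤ T²`. -/
def SpecUBE : Prop := ∀ T : ℝ, 1000 ≤ T → ∀ (q : ℕ) [NeZero q] (χ : DirichletCharacter ℂ q), χ ≠ 1 →
  Real.log q ≤ T → ∀ s : ℂ, |s.im| ≤ 2 * Real.exp T + 1 → 1 - 1 / T ≤ s.re → s.re ≤ 3 →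
  ‖χ.LFunction s‖ ≤ T ^ 2

/-- DBE (60 lines), USES UBE. PROOF. Cauchy's estimate on the circle of radius `1/(2T)` about `s`
(`Complex.norm_deriv_le_of_forall_mem_sphere_norm_le`): its points satisfy the hypotheses of UBE, so
`‖L'‖ ≤ 2T · T² ≤ T⁴`. (Cf. `LP/DB.lean`.) -/
def SpecDBE : Prop := ∀ T : ℝ, 1000 ≤ T → ∀ (q : ℕ) [NeZero q] (χ : DirichletCharacter ℂ q), χ ≠ 1 →
  Real.log q ≤ T → ∀ s : ℂ, |s.im| ≤ Real.exp T → 1 - 1 / (2 * T) ≤ s.re → s.re ≤ 2 →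
  ‖χ.LFunction s‖ ≤ T ^ 2 ∧ ‖deriv χ.LFunction s‖ ≤ T ^ 4

/-- ZTE (150 lines; imports LP.SIG, LP.ZB). PROOF. For `Re s > 1` and `N ≥ 1`:
`ζ(s) = ∑_{n ≤ N} n^(-s) + ∑_{n > N} n^(-s)` and
`‖∑_{n > N} n^(-s) - ∫_N^∞ u^(-s) du‖ ≤ ∑_{n > N} ∫_{n-1}^n ‖n^(-s) - u^(-s)‖ du ≤ ‖s‖ ∫_N^∞ u^(-σ-1) du ≤ ‖s‖/N`,
`‖∫_N^∞ u^(-s) du‖ = ‖N^(1-s)/(s-1)‖ ≤ 1/‖s-1‖` (or split the integral in `LP.ZBM.zeta_eq` at `N`). So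
`‖ζ(s)‖ ≤ 1 + log N + 1/‖s-1‖ + ‖s‖/N`. With `N = ⌈e^T⌉`: `log N ≤ T + 1`, `‖s‖/N ≤ (4 + 2 e^T) e^(-T) ≤ 3`, so
`‖ζ(s)‖ ≤ T + 5 + 1/‖s-1‖`. Finally `L(s, 1) = ζ(s) ∏_{p | q} (1 - p^(-s))`
(`LFunctionTrivChar_eq_mul_riemannZeta`), `‖∏‖ ≤ ∏ (1 + 1/p) ≤ 1 + log q ≤ 1 + T` (SIG), and
`(1 + T)(T + 5)(1 + 1/‖s-1‖) ≤ T³ (1 + 1/‖s-1‖)`. -/
def SpecZTE : Prop := ∀ T : ℝ, 1000 ≤ T → ∀ (q : ℕ) [NeZero q], Real.log q ≤ T → ∀ s : ℂ,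
  1 < s.re → s.re ≤ 3 → |s.im| ≤ 2 * Real.exp T + 1 →
  ‖LFunctionTrivChar q s‖ ≤ T ^ 3 * (1 + 1 / ‖s - 1‖)

/-- LBE (150 lines; imports LP.ZB), USES UBE, DBE, ZTE. PROOF. Exactly as `LP/LB.lean`. Let `0 < x ≤ 1`,
`s' = 1 + x + 2 i y`, `|2 y| ≤ 2 e^T`. If `χ² ≠ 1`: `‖L(s', χ²)‖ ≤ T²` (UBE). If `χ² = 1`: `‖s' - 1‖ ≥ 2 |y| ≥ 2 T^(-20)`, ZTE:
`‖L(s', 1)‖ ≤ T³ (1 + T^20/2) ≤ T^23`. With ZB (1) `‖L(1+x, 1)‖ ≤ 2/x` and `norm_LFunction_product_ge_one`: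
`(2/x)³ ‖L(1+x+iy, χ)‖⁴ T^23 ≥ 1`, so `‖L(1+x+iy, χ)‖⁴ ≥ x³ T^(-24)`. If `x ≥ T^(-44)` this is
`≥ T^(-156)`, so `‖L(1+x+iy, χ)‖ ≥ T^(-39)`. This settles `σ ≥ 1 + T^(-44)`. For `σ` between
`1 - T^(-44)` and `1 + T^(-44)` compare with `x = T^(-44)`: by DBE and the mean value inequality the difference
is `≤ 2 T^(-44) T⁴`, and `T^(-39) - 2 T^(-40) ≥ T^(-44)`. -/
def SpecLBE : Prop := ∀ T : ℝ, 1000 ≤ T → ∀ (q : ℕ) [NeZero q] (χ : DirichletCharacter ℂ q), χ ≠ 1 →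
  Real.log q ≤ T → ∀ σ y : ℝ, |y| ≤ Real.exp T → (χ ^ 2 ≠ 1 ∨ (T ^ 20)⁻¹ ≤ |y|) →
  1 - (T ^ 44)⁻¹ ≤ σ → σ ≤ 2 → (T ^ 44)⁻¹ ≤ ‖χ.LFunction (σ + y * Complex.I)‖

/-! ### Siegel's theorem -/

/-- ZET (60 lines; imports MP_155064_nt/ZetaGrowth). PROOF. `Z(s) = 1 - s * mellin fr (-s)`:
`Pool.Agent.Lib.MP_155064_nt.riemannZeta₁_eq` gives `(s-1) ζ(s) = s - s (s-1) mellin fr (-s)`, so
`ζ(s) = 1/(s-1) + 1 - s mellin fr (-s)`; `differentiableAt_mellin_fr`, `norm_mellin_fr_le`. -/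
def SpecZET : Prop := ∃ Z : ℂ → ℂ, (∀ s : ℂ, 0 < s.re → DifferentiableAt ℂ Z s) ∧
  (∀ s : ℂ, 0 < s.re → s ≠ 1 → riemannZeta s = 1 / (s - 1) + Z s) ∧
  ∀ s : ℂ, 0 < s.re → ‖Z s‖ ≤ 1 + ‖s‖ / s.re

/-- NNG (200 lines). PROOF. `r = zetaMul χ₁ = 1 * χ₁` (`Mathlib.NumberTheory.LSeries.Nonvanishing`), `f = r * (χ₂ r)`
(Dirichlet convolution; `χ₂ r` the pointwise product). Since `χ₂` is completely multiplicative,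
`χ₂ r = χ₂ * (χ₁ χ₂)` (convolution), so `LSeries f = ζ L(χ₁) · L(χ₂) L(χ₁ χ₂)` on `Re s > 1`
(`LSeries_convolution'`, `LSeriesSummable_zetaMul`, `LFunction_eq_LSeries`). `f` is multiplicative
(`IsMultiplicative.mul`, `isMultiplicative_zetaMul`), `f 1 = 1`. Values at `p^k`:
`f(p^k) = ∑_{i+j=k} r(p^i) χ₂(p)^j r(p^j)`. With `a = χ₁(p) ∈ {0, 1, -1}`: `r(p^j) = 1` for all `j` if `a = 0`, `j + 1` if `a = 1`,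
`1, 0, 1, 0, ..` if `a = -1`. If `χ₂(p) ∈ {0, 1}` all terms are `≥ 0` (with `χ₂(p)^0 = 1`). If `χ₂(p) = -1` the sum is
`∑_{i+j=k} (-1)^j r(p^i) r(p^j)`: `0` for odd `k` (exchange `i` and `j`), and for even `k`: `1` if `a = 0`, `k/2 + 1` if
`a = 1` (`∑_{i+j=k} (-1)^j (i+1)(j+1) = k/2 + 1`, induction in steps of two), `k/2 + 1` if `a = -1` (only even `i`, `j`
contribute). So `f ≥ 0` (as in `zetaMul_nonneg`: `multiplicative_factorization`). The real function is `(f n).re`. -/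
def SpecNNG : Prop := ∀ (q : ℕ) [NeZero q] (χ₁ χ₂ : DirichletCharacter ℂ q), χ₁ ^ 2 = 1 → χ₂ ^ 2 = 1 →
  ∃ f : ℕ → ℝ, (∀ n, 0 ≤ f n) ∧ f 1 = 1 ∧ ∀ s : ℂ, 1 < s.re →
    LSeriesSummable (fun n => (f n : ℂ)) s ∧ LSeries (fun n => (f n : ℂ)) s = E4 χ₁ χ₂ s

/-- TAY (120 lines), USES NNG. PROOF. `E4` equals `LSeries f` on `Re s > 1`, which contains the ball; it is
differentiable there (`riemannZeta` away from `1`, `differentiable_LFunction`; if a character is trivial it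
is still differentiable for `s ≠ 1`: `differentiableAt_LFunction`). `Complex.hasSum_taylorSeries_on_ball` gives
`E4 s = ∑ (m!)⁻¹ (s-2)^m E4^(m)(2)`; put `b m = (-1)^m E4^(m)(2)/m!`, real and `≥ 0` by
`LSeries.iteratedDeriv_alternating` (abscissa `≤ 1 < 2`; the iterated derivatives at `2` of two functions which
are equal near `2` agree). `b 0 = E4 2 = ∑ f(n)/n² ≥ f(1) = 1`. -/
def SpecTAY : Prop := ∀ (q : ℕ) [NeZero q] (χ₁ χ₂ : DirichletCharacter ℂ q), χ₁ ^ 2 = 1 → χ₂ ^ 2 = 1 →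
  ∃ b : ℕ → ℝ, (∀ m, 0 ≤ b m) ∧ 1 ≤ b 0 ∧
    ∀ s : ℂ, ‖s - 2‖ < 1 → HasSum (fun m : ℕ => (b m : ℂ) * (2 - s) ^ m) (E4 χ₁ χ₂ s)

/-- CAU (150 lines; imports LP.PER, LP.CONT), USES ZET, TAY. PROOF. Let `H = L(χ₁) L(χ₂) L(χ₁χ₂)`, entire (the three
characters are not `1`; `χ₁ χ₂ = 1` would give `χ₁ = χ₂`), `λ = H(1)`,
`g(s) = Z(s) H(s) + (H(s) - H(1))/(s - 1)` (`dslope H 1 s`), differentiable for `Re s > 0`, and `E4 = g + λ/(s-1)` for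
`s ≠ 1`, `Re s > 0`. For `‖s - 2‖ < 1`: `1/(s-1) = ∑ (2-s)^m`, so `g(s) = ∑ (b_m - λ)(2-s)^m` there. By
`Complex.hasSum_taylorSeries_on_ball` for `g` on the ball of radius `3/2` about `2` (`Re s > 1/2`) and the uniqueness of the
coefficients of power series (`HasFPowerSeriesAt.eq_formalMultilinearSeries`, or compare `iteratedDeriv m g 2`)
`(-1)^m g^(m)(2)/m! = b_m - λ`: this is the first claim. Cauchy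
(`Complex.norm_iteratedDeriv_le_of_forall_mem_sphere_norm_le`) on `‖s - 2‖ = 4/3`: there `σ ≥ 2/3`, `‖s‖ ≤ 10/3`,
`‖s - 1‖ ≥ 1/3`, `‖Z‖ ≤ 1 + 5 = 6`, `‖ζ‖ ≤ 9`, `‖L(s, χ)‖ ≤ ‖s‖ q/σ ≤ 5 q` (CON, PER, `∫_1^∞ u^(-σ-1) du = 1/σ`), and
`‖L(1, χ)‖ ≤ q` in the same way; so `‖g‖ = ‖E4 - λ/(s-1)‖ ≤ 9 · 125 q³ + 3 q³ = 1128 q³`. -/
def SpecCAU : Prop := ∀ (q : ℕ) [NeZero q] (χ₁ χ₂ : DirichletCharacter ℂ q), χ₁ ≠ 1 → χ₂ ≠ 1 → χ₁ ≠ χ₂ →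
  χ₁ ^ 2 = 1 → χ₂ ^ 2 = 1 → ∃ b : ℕ → ℝ, (∀ m, 0 ≤ b m) ∧ 1 ≤ b 0 ∧ ∃ lam : ℂ,
    lam = χ₁.LFunction 1 * χ₂.LFunction 1 * (χ₁ * χ₂).LFunction 1 ∧
    (∀ m : ℕ, ‖(b m : ℂ) - lam‖ ≤ 1128 * (q : ℝ) ^ 3 * (3 / 4) ^ m) ∧
    ∀ s : ℂ, ‖s - 2‖ < 4 / 3 → s ≠ 1 →
      HasSum (fun m : ℕ => ((b m : ℂ) - lam) * (2 - s) ^ m) (E4 χ₁ χ₂ s - lam / (s - 1))

/-- EST (150 lines), USES CAU. PROOF. `x = 2 - σ ∈ (1, 9/8]`, `s = σ`, `K = ⌈18 log q + 58⌉ ≤ 18 log q + 59`. The terms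
`m ≥ K` of the series of CAU are `≤ 1128 q³ (3x/4)^m`, `3x/4 ≤ 27/32`, their sum is
`≤ 1128 q³ (27/32)^K (32/5) ≤ 7220 q³ e^(-K/6) ≤ 7220 e^(-58/6) ≤ 1/2` (`e ≤ (32/27)^6`; `e^(9.66) ≥ 14440`). So
`Re E4(σ) = Re (λ/(σ-1)) + Re ∑_{m<K} (b_m - λ) x^m + .. ≥ - Re λ/(1-σ) + 1 - Re λ (x^K - 1)/(x - 1) - 1/2
= 1/2 - Re λ x^K/(1-σ) ≥ 1/2 - ‖λ‖ x^K/(1-σ)` (as `b_m ≥ 0`, `b_0 ≥ 1`, `x - 1 = 1 - σ`), and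
`x^K ≤ e^((1-σ) K) ≤ q^(18(1-σ)) e^(59/8) ≤ e^8 q^(18(1-σ))`. -/
def SpecEST : Prop := ∀ (q : ℕ) [NeZero q] (χ₁ χ₂ : DirichletCharacter ℂ q), χ₁ ≠ 1 → χ₂ ≠ 1 → χ₁ ≠ χ₂ →
  χ₁ ^ 2 = 1 → χ₂ ^ 2 = 1 → ∀ σ : ℝ, 7 / 8 ≤ σ → σ < 1 →
  1 / 2 ≤ (E4 χ₁ χ₂ σ).re + Real.exp 8 * (q : ℝ) ^ (18 * (1 - σ)) / (1 - σ) *
    (‖χ₁.LFunction 1‖ * ‖χ₂.LFunction 1‖ * ‖(χ₁ * χ₂).LFunction 1‖)

/-- REA (120 lines; imports LP.PER, LP.CONT). PROOF. `χ(k)² ∈ {0, 1}`, so `χ(k)` is real. (1) In CON for real `s > 0` the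
integral is the integral of a real function (`integral_ofReal`, `Complex.ofReal_cpow`). (2) `L` has no zeros
on `[β, ∞)`: hypothesis below `1`, `LFunction_ne_zero_of_one_le_re` above. At `s = 2`:
`‖L(2) - 1‖ ≤ ∑_{n ≥ 2} n⁻² < 1`, so `Re L(2) > 0`. The continuous real function `s ↦ Re L(s)` has no zero on `[β, 2]`
(if `β < 2`; for `β ≥ 2` argue as at `2`), hence it is positive (`intermediate_value_Icc`). -/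
def SpecREA : Prop := ∀ (q : ℕ) [NeZero q] (χ : DirichletCharacter ℂ q), χ ≠ 1 → χ ^ 2 = 1 →
  (∀ s : ℝ, 0 < s → (χ.LFunction s).im = 0) ∧
  ∀ β : ℝ, 0 < β → (∀ s : ℝ, β ≤ s → s < 1 → χ.LFunction s ≠ 0) → 0 < (χ.LFunction β).re

/-- SGL (250 lines; imports LP.UB, LP.CHL with LP.SIG), USES ZET, EST, REA. Siegel. PROOF. We may assume `ε ≤ 1`. `η = ε/40`. If there
is no real `χ ≠ 1` of any modulus, nothing is to be shown. Choose `q₁`, real `χ₁ ≠ 1` mod `q₁` and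
`β ∈ [1 - η, 1)` as follows: if some real character `≠ 1` has a zero in `[1 - η, 1)`, take such a character and zero
(case 2); otherwise any real `χ₁ ≠ 1` and `β = 1 - η` (case 1). They depend on `ε` only. Let `χ₂ ≠ 1` be real mod `q₂`,
`q = q₁ q₂`, `χ₁'`, `χ₂'` the lifts mod `q` (`changeLevel`; real and `≠ 1`).
(a) `χ₁' = χ₂'`: CHL twice gives `‖L(1, χ₂)‖ ≥ ‖L(1, χ₂')‖/(1 + log q) ≥ ‖L(1, χ₁)‖/(2 (1 + log q)²)`.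
(b) `χ₁' ≠ χ₂'`: then `Re E4(β) ≤ 0`: in case 2 `L(β, χ₁') = L(β, χ₁) · ∏ = 0` (`LFunction_changeLevel`, `β ≠ 1`); in case
1 the values at `β` of the three `L`-functions of real characters `≠ 1` are positive real numbers (REA) and
`Re ζ(β) ≤ -1/(1-β) + ‖Z(β)‖ ≤ -40 + 2 < 0` (ZET; `‖β‖/β = 1`). So EST and `‖L(1, χ)‖ ≤ 9 (1 + log q)` (UB at
`s = 1`) for `χ₁'`, `χ₁' χ₂'`, and `‖L(1, χ₂')‖ ≤ (1 + log q) ‖L(1, χ₂)‖` (CHL) give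
`1/2 ≤ e^8 q^(18(1-β))/(1-β) · 81 (1 + log q)³ ‖L(1, χ₂)‖`, `18 (1 - β) ≤ 18 η ≤ ε/2`.
With `(1 + log q)³ ≤ C_ε q^(ε/2)` both cases give `‖L(1, χ₂)‖ ≥ c q^(-ε) = c q₁^(-ε) q₂^(-ε)`. -/
def SpecSGL : Prop := ∀ ε : ℝ, 0 < ε → ∃ c : ℝ, 0 < c ∧ ∀ (q : ℕ) [NeZero q]
  (χ : DirichletCharacter ℂ q), χ ≠ 1 → χ ^ 2 = 1 → c * (q : ℝ) ^ (-ε) ≤ ‖χ.LFunction 1‖

/-- GDE (120 lines; imports LP.INV), USES DBE, LBE, SGL. PROOF. `ε = 1/(A+1)`, `c` of SGL. For `T ≥ T₁`: `log q ≤ A log T ≤ T`,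
and `‖L(1, χ)‖ ≥ c q^(-ε) ≥ c T^(-1) ≥ T^(-2)` for real `χ ≠ 1` (`T ≥ 1/c`). Then as `LP/LOW.lean`: if `χ² ≠ 1` or
`|y| ≥ T^(-20)`: LBE. Otherwise, if `σ ≤ 1 + T^(-20)`: the distance of `σ + i y` to `1` is `≤ 2 T^(-20)`, so by DBE and the
mean value inequality `‖L‖ ≥ T^(-2) - 2 T^(-16) ≥ T^(-44)`; if `σ > 1 + T^(-20)`: INV gives
`‖L‖ ≥ T^(-20)/2 ≥ T^(-44)`. -/
def SpecGDE : Prop := ∀ A : ℕ, ∃ T₁ : ℝ, 1000 ≤ T₁ ∧ ∀ T : ℝ, T₁ ≤ T → ∀ (q : ℕ) [NeZero q],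
  (q : ℝ) ≤ T ^ A → Real.log q ≤ T ∧ GoodE T q

/-! ### The explicit formula with narrow Gaussian weights -/

/-- PSE (220 lines; imports LP.LDB, LP.EXP, LP.REC), USES DBE. PROOF. As `LP/PSI.lean`, with `H = e^T` in the place of `T` as the height and
`1 ≤ λ ≤ e^T`. `σ₀ = 1 + 1/u ≤ 2`, `σ₁ = 1 - T^(-44)`. On the rectangle `σ₁ ≤ σ ≤ σ₀`, `|t| ≤ H`:
`‖L'/L‖ ≤ T⁴ T^44 = T^48` (DBE, `GoodE`), `L ≠ 0`, so `f(s) = -(L'/L)(s) exp(s u + s²/(4λ))` is differentiable; for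
`0 ≤ σ ≤ 2` `‖exp(s u + s²/(4λ))‖ = exp(σ u + (σ² - t²)/(4λ)) ≤ e · e^(σ u) e^(-t²/(4λ))`. By EXP
`2π ‖F‖ ≤ ‖∫_(|t| > H) f(σ₀ + it)‖ + ‖∫_(-H)^H f(σ₀ + it)‖`. Tail: `‖L'/L‖ ≤ 8 u²` (LDB),
`∫_(|t| > H) e^(-t²/(4λ)) ≤ 2 ∫_H^∞ e^(-H t/(4λ)) = (8 λ/H) e^(-H²/(4λ)) ≤ 8 e^(-e^T/4)`: at most
`64 e² T^120 e^u e^(-e^T/4)`. The rest by REC: at most `2 e^T · T^48 e · e^(σ₁ u)`, `e^(σ₁ u) ≤ e^u e^(-T²)` as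
`u ≥ T^46`, plus `2 · 2 · T^48 e · e^(u+1) e^(-e^T/4)`. For `T ≥ T₀` each of the three is `≤ e^(u - 2T)`, and
`3/(2π) ≤ 1`. -/
def SpecPSE : Prop := ∃ T₀ : ℝ, ∀ T : ℝ, T₀ ≤ T → ∀ (q : ℕ) [NeZero q],
  Real.log q ≤ T → GoodE T q → ∀ χ : DirichletCharacter ℂ q, χ ≠ 1 → ∀ lam : ℝ, 1 ≤ lam →
  lam ≤ Real.exp T → ∀ u : ℝ, T ^ 46 ≤ u → u ≤ T ^ 60 → ‖F lam χ u‖ ≤ Real.exp (u - 2 * T)

/-- GTL (60 lines). Gaussian tails. PROOF. For `|v| ≥ d`: `e^(-λ v²) ≤ e^(-λ d²/2) e^(-λ v²/2)`, and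
`∫ sqrt(λ/π) e^(-λ v²/2) dv = sqrt 2 ≤ 2` (`integral_gaussian`); total mass `1`. -/
def SpecGTL : Prop := ∀ lam : ℝ, 0 < lam → ∀ a b d : ℝ, 0 ≤ d →
  (a ≤ b → 0 ≤ ∫ v in a..b, G lam v) ∧ (a ≤ b → ∫ v in a..b, G lam v ≤ 1) ∧
  (a ≤ -d → d ≤ b → 1 - 2 * Real.exp (-(lam * d ^ 2 / 2)) ≤ ∫ v in a..b, G lam v) ∧
  (a ≤ b → b ≤ -d → ∫ v in a..b, G lam v ≤ 2 * Real.exp (-(lam * d ^ 2 / 2)))

/-- SMO (150 lines; imports LP.EXP), USES GTL. PROOF. `w(n) = ∫_{X-T}^X G(u - log n) du` (substitute `v = u - log n`).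
`∫_{X-T}^X F(u) du = ∑_n Λ(n) χ(n) w(n)`: interchange (`intervalIntegral.hasSum_integral_of_summable_norm`-type
lemma or `MeasureTheory.hasSum_integral_of_summable_integral_norm`; all terms are bounded by `Λ(n) w(n)`, and
`w(n) ≤ 2 (x/n)³` for `n ≥ 3 x`: with `y = log(n/x) ≥ 1` and `GTL` (4) for `d = y`: `λ y²/2 ≥ 3 y` as `λ ≥ 6`;
`Λ(n) ≤ n`). -/
def SpecSMO : Prop := ∀ lam : ℝ, 6 ≤ lam → ∀ (q : ℕ) [NeZero q] (χ : DirichletCharacter ℂ q) (X T : ℝ),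
  0 ≤ T → (Summable fun n : ℕ => vonMangoldt n * ∫ v in (X - T - Real.log n)..(X - Real.log n), G lam v) ∧
  ∫ u in (X - T)..X, F lam χ u =
    ∑' n : ℕ, (vonMangoldt n : ℂ) * χ n *
      ((∫ v in (X - T - Real.log n)..(X - Real.log n), G lam v : ℝ) : ℂ)

/-- WSM (250 lines), USES GTL, SMO. The cost of unsmoothing. PROOF. `X = log x`, `λ = e^T`, `δ = e^(-T/3)`, `x₀ = x e^(-T)`, `w(n)` the integral.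
`Λ(n) ≤ log n`. Split: `n ≤ x₀ e^δ ≤ 3 x₀ ≤ x`: `|1 - w| ≤ 1`, sum `≤ 3 x₀ X`. `x₀ e^δ < n ≤ x e^(-δ)`: GTL (3) with `d = δ`,
`|1 - w| ≤ 2 e^(-e^(T/3)/2)`, sum `≤ 2 x X e^(-e^(T/3)/2)`. `x e^(-δ) < n ≤ x e^δ`: at most `3 δ x + 1` integers,
each at most `X + 1`. `n > x e^δ`: GTL (4) with `d = y = log(n/x) ≥ δ`, `y² ≥ (δ² + δ y)/2`, so
`w ≤ 2 e^(-λ δ²/4) e^(-λ δ y/4) ≤ 2 e^(-e^(T/3)/4) (x/n)³` (`λ δ/4 = e^(2T/3)/4 ≥ 3`), `∑_{n>x} Λ(n) (x/n)³ ≤ x³ ∑_{n>x} n⁻² ≤ 2 x²`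
(`x ≥ 1`), so the sum is `≤ 4 x² e^(-e^(T/3)/4)` and `x ≤ e^(T^59)`. For `T ≥ T₀` the four are
`≤ x e^(-T/4)/8` each (`T^59 e^(-T/3) ≤ ..`). -/
def SpecWSM : Prop := ∃ T₀ : ℝ, ∀ T : ℝ, T₀ ≤ T → ∀ x : ℝ, T ^ 47 ≤ Real.log x →
  Real.log x ≤ T ^ 59 → 0 < x →
  (Summable fun n : ℕ => vonMangoldt n * |(if n ≤ ⌊x⌋₊ then (1 : ℝ) else 0) -
    ∫ v in (Real.log x - T - Real.log n)..(Real.log x - Real.log n), G (Real.exp T) v|) ∧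
  ∑' n : ℕ, vonMangoldt n * |(if n ≤ ⌊x⌋₊ then (1 : ℝ) else 0) -
    ∫ v in (Real.log x - T - Real.log n)..(Real.log x - Real.log n), G (Real.exp T) v| ≤
    x * Real.exp (-(T / 4)) / 2

/-- UNS (100 lines), USES PSE, SMO, WSM. PROOF. `‖∑_{n ≤ x} Λ(n) χ(n) - ∫_{X-T}^X F‖ ≤ x e^(-T/4)/2` (SMO with `λ = e^T`, WSM,
`|χ(n)| ≤ 1`), `‖∫_{X-T}^X F‖ ≤ ∫ e^(u - 2T) du ≤ e^(X - 2T) = x e^(-2T)` (PSE: `T^46 ≤ X - T ≤ u ≤ X ≤ T^60`; `F` is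
continuous or the integral bound `norm_integral_le_of_norm_le_const`: `≤ T e^(X - 2T)`). -/
def SpecUNS : Prop := ∃ T₀ : ℝ, ∀ T : ℝ, T₀ ≤ T → ∀ (q : ℕ) [NeZero q],
  Real.log q ≤ T → GoodE T q → ∀ χ : DirichletCharacter ℂ q, χ ≠ 1 → ∀ x : ℝ, 0 < x →
  T ^ 47 ≤ Real.log x → Real.log x ≤ T ^ 59 →
  ‖∑ n ∈ Finset.Icc 1 ⌊x⌋₊, (vonMangoldt n : ℂ) * χ n‖ ≤ x * Real.exp (-(T / 4))

/-- PRS (200 lines), USES UNS. PROOF. (1) `∑_{n ≤ x} Λ(n) χ(n) - ∑_{p ≤ x} χ(p) log p` is a sum over the prime powers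
`p^k ≤ x`, `k ≥ 2`, of norm `≤ ψ(x) - θ(x) ≤ 2 sqrt x log x` (`Chebyshev.psi_sub_theta_le`,
`Chebyshev.psi_sub_theta_eq_sum_not_prime`); `2 sqrt x log x ≤ x e^(-T)` as `log x ≥ T^47`. (2) Let
`C(t) = ∑_{p ≤ t} χ(p) log p`. Abel summation: `∑_{p ≤ x} χ(p) = C(x)/log x + ∫_2^x C(t)/(t log² t) dt`. For
`t ≤ x e^(-T)`: `‖C(t)‖ ≤ θ(t) ≤ 2 t` (`Chebyshev.theta_le_log4_mul_x`), this part is `≤ 2 x e^(-T)/log² 2`. For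
`x e^(-T) ≤ t ≤ x`: `log t ≥ T^48 - T ≥ T^47`, by (1) `‖C(t)‖ ≤ 2 t e^(-T/4)`, this part is `≤ 2 x e^(-T/4)`. For `T ≥ T₀`
the total is `≤ x e^(-T/5)`. -/
def SpecPRS : Prop := ∃ T₀ : ℝ, ∀ T : ℝ, T₀ ≤ T → ∀ (q : ℕ) [NeZero q],
  Real.log q ≤ T → GoodE T q → ∀ χ : DirichletCharacter ℂ q, χ ≠ 1 → ∀ x : ℝ, 0 < x →
  T ^ 48 ≤ Real.log x → Real.log x ≤ T ^ 59 →
  ‖∑ p ∈ (Finset.Icc 1 ⌊x⌋₊).filter Nat.Prime, χ p * (Real.log p : ℂ)‖ ≤ x * Real.exp (-(T / 5)) ∧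
  ‖∑ p ∈ (Finset.Icc 1 ⌊x⌋₊).filter Nat.Prime, χ p‖ ≤ x * Real.exp (-(T / 5))

/-- SW (80 lines), USES GDE, UNS, PRS. Siegel-Walfisz. PROOF. `T = (log x)^(1/50)`, `log x = T^50`, `q ≤ (log x)^A = T^(50 A)`: GDE
with `50 A`. `T^47, T^48 ≤ T^50 ≤ T^59`, `e^(-T/5), e^(-T/4) ≤ T^(-50 B) = (log x)^(-B)` for `x ≥ x₀`
(`Real.tendsto_pow_mul_exp_neg_atTop_nhds_zero`). -/
def SpecSW : Prop := ∀ A B : ℕ, ∃ x₀ : ℝ, ∀ x : ℝ, x₀ ≤ x → ∀ (q : ℕ) [NeZero q],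
  (q : ℝ) ≤ (Real.log x) ^ A → ∀ χ : DirichletCharacter ℂ q, χ ≠ 1 →
  ‖∑ n ∈ Finset.Icc 1 ⌊x⌋₊, (vonMangoldt n : ℂ) * χ n‖ ≤ x / (Real.log x) ^ B ∧
  ‖∑ p ∈ (Finset.Icc 1 ⌊x⌋₊).filter Nat.Prime, χ p * (Real.log p : ℂ)‖ ≤ x / (Real.log x) ^ B ∧
  ‖∑ p ∈ (Finset.Icc 1 ⌊x⌋₊).filter Nat.Prime, χ p‖ ≤ x / (Real.log x) ^ B

/-- SWA (150 lines), USES SW. PROOF. `φ(q) 1_{n = a} = ∑_χ χ(a⁻¹) χ(n)` (`DirichletCharacter.sum_char_inv_mul_char_eq`, cf.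
`LP/ORT.lean`). The characters `≠ 1` contribute `≤ φ(q) x/(log x)^(B+1)` (SW with `B + 1`), after division by `φ(q)`
`x/(log x)^(B+1)`. The principal character: the sum over `n` prime to `q` differs from the full sum by
`∑_{p | q} ∑_{p^k ≤ x} log p ≤ ω(q) log x ≤ 2 log q log x` (`φ(q) ≥ 1`), for primes by `ω(q) ≤ 2 log q`. All are
`≤ x/(log x)^B` together for `x ≥ x₀`. -/
def SpecSWA : Prop := ∀ A B : ℕ, ∃ x₀ : ℝ, ∀ x : ℝ, x₀ ≤ x → ∀ q a : ℕ, 0 < q →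
  (q : ℝ) ≤ (Real.log x) ^ A → a.Coprime q →
  |∑ n ∈ (Finset.Icc 1 ⌊x⌋₊).filter (fun n => n ≡ a [MOD q]), vonMangoldt n -
    (∑ n ∈ Finset.Icc 1 ⌊x⌋₊, vonMangoldt n) / q.totient| ≤ x / (Real.log x) ^ B ∧
  |∑ p ∈ (Finset.Icc 1 ⌊x⌋₊).filter (fun p => p.Prime ∧ p ≡ a [MOD q]), Real.log p -
    (∑ p ∈ (Finset.Icc 1 ⌊x⌋₊).filter Nat.Prime, Real.log p) / q.totient| ≤ x / (Real.log x) ^ B ∧
  |(((Finset.Icc 1 ⌊x⌋₊).filter (fun p => p.Prime ∧ p ≡ a [MOD q])).card : ℝ) -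
    (((Finset.Icc 1 ⌊x⌋₊).filter Nat.Prime).card : ℝ) / q.totient| ≤ x / (Real.log x) ^ B

end Pool.Agent.Lib.SW
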