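import Pool.Agent.Lib.SW.Spec
import Pool.Agent.Lib.LP.PER
import Pool.Agent.Lib.LP.CONT

/-! # SW, module TRU: truncated upper bound of `L(s, χ)` (helper21) -/

set_option autoImplicit false

noncomputable section

namespace Pool.Agent.Lib.SW

open ArithmeticFunction DirichletCharacter MeasureTheory

namespace TRUM

/-- the partial sums -/
def S {q : ℕ} (χ : DirichletCharacter ℂ q) (n : ℕ) : ℂ := ∑ k ∈ Finset.Icc 1 n, χ (k : ZMod q)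

/-- the tail -/
def I {q : ℕ} (χ : DirichletCharacter ℂ q) (s : ℂ) (N : ℕ) : ℂ :=
  s * ∫ u in Set.Ioi (N : ℝ), S χ ⌊u⌋₊ * (u : ℂ) ^ (-(s + 1))

theorem norm_S {q : ℕ} [NeZero q] (χ : DirichletCharacter ℂ q) (hχ : χ ≠ 1) (n : ℕ) :
    ‖S χ n‖ ≤ q := LP.specPER q χ hχ n

theorem norm_pow {s : ℂ} {u : ℝ} (hu : 0 < u) : ‖(u : ℂ) ^ (-(s + 1))‖ = u ^ (-s.re - 1) := by
  rw [Complex.norm_cpow_eq_rpow_re_of_pos hu]
  congr 1
  simp only [Complex.neg_re, Complex.add_re, Complex.one_re]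
  ring

theorem bound {q : ℕ} [NeZero q] (χ : DirichletCharacter ℂ q) (hχ : χ ≠ 1) {s : ℂ} {u : ℝ}
    (hu : 0 < u) : ‖S χ ⌊u⌋₊ * (u : ℂ) ^ (-(s + 1))‖ ≤ q * u ^ (-s.re - 1) := by
  rw [norm_mul, norm_pow hu]
  exact mul_le_mul_of_nonneg_right (norm_S χ hχ _) (Real.rpow_nonneg hu.le _)

theorem meas {q : ℕ} (χ : DirichletCharacter ℂ q) (s : ℂ) :
    Measurable (fun u : ℝ => S χ ⌊u⌋₊ * (u : ℂ) ^ (-(s + 1))) :=
  (LP.CONM.measurable_sum χ).mul (Complex.measurable_ofReal.pow_const _)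

theorem integ {q : ℕ} [NeZero q] (χ : DirichletCharacter ℂ q) (hχ : χ ≠ 1) {s : ℂ}
    (hs : 0 < s.re) {c : ℝ} (hc : 0 < c) :
    IntegrableOn (fun u : ℝ => S χ ⌊u⌋₊ * (u : ℂ) ^ (-(s + 1))) (Set.Ioi c) := by
  have h1 : IntegrableOn (fun u : ℝ => (q : ℝ) * u ^ (-s.re - 1)) (Set.Ioi c) :=
    (integrableOn_Ioi_rpow_of_lt (by linarith) hc).const_mul _
  refine Integrable.mono' h1 (meas χ s).aestronglyMeasurable ?_
  refine (ae_restrict_iff' measurableSet_Ioi).2 (Filter.Eventually.of_forall fun u hu => ?_)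
  exact bound χ hχ (hc.trans hu)

theorem norm_I {q : ℕ} [NeZero q] (χ : DirichletCharacter ℂ q) (hχ : χ ≠ 1) {s : ℂ}
    (hs : 0 < s.re) {N : ℕ} (hN : 1 ≤ N) :
    ‖I χ s N‖ ≤ q * (N : ℝ) ^ (-s.re) * (‖s‖ / s.re) := by
  have hN0 : (0 : ℝ) < N := by exact_mod_cast hN
  have h1 : IntegrableOn (fun u : ℝ => (q : ℝ) * u ^ (-s.re - 1)) (Set.Ioi (N : ℝ)) :=
    (integrableOn_Ioi_rpow_of_lt (by linarith) hN0).const_mul _
  have h2 : ‖∫ u in Set.Ioi (N : ℝ), S χ ⌊u⌋₊ * (u : ℂ) ^ (-(s + 1))‖ ≤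
      ∫ u in Set.Ioi (N : ℝ), (q : ℝ) * u ^ (-s.re - 1) := by
    refine norm_integral_le_of_norm_le h1 ?_
    refine (ae_restrict_iff' measurableSet_Ioi).2 (Filter.Eventually.of_forall fun u hu => ?_)
    exact bound χ hχ (hN0.trans hu)
  have h3 : ∫ u in Set.Ioi (N : ℝ), (q : ℝ) * u ^ (-s.re - 1) = q * ((N : ℝ) ^ (-s.re) / s.re) := by
    rw [integral_const_mul, integral_Ioi_rpow_of_lt (by linarith) hN0]
    have h4 : -s.re - 1 + 1 = -s.re := by ring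
    rw [h4, neg_div_neg_eq]
  rw [I, norm_mul]
  rw [h3] at h2
  calc ‖s‖ * ‖∫ u in Set.Ioi (N : ℝ), S χ ⌊u⌋₊ * (u : ℂ) ^ (-(s + 1))‖
      ≤ ‖s‖ * (q * ((N : ℝ) ^ (-s.re) / s.re)) := mul_le_mul_of_nonneg_left h2 (norm_nonneg _)
    _ = q * (N : ℝ) ^ (-s.re) * (‖s‖ / s.re) := by
      field_simp

theorem step {q : ℕ} [NeZero q] (χ : DirichletCharacter ℂ q) (hχ : χ ≠ 1) {s : ℂ}
    (hs : 0 < s.re) {N : ℕ} (hN : 1 ≤ N) :
    I χ s N = S χ N * ((N : ℂ) ^ (-s) - ((N + 1 : ℕ) : ℂ) ^ (-s)) + I χ s (N + 1) := by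
  have hN0 : (0 : ℝ) < N := by exact_mod_cast hN
  have hNN : (N : ℝ) ≤ ((N + 1 : ℕ) : ℝ) := by
    push_cast
    linarith
  have hs0 : s ≠ 0 := by
    intro h
    rw [h] at hs
    simp at hs
  have h1 := integ χ hχ hs hN0
  have h2 : Set.Ioi (N : ℝ) = Set.Ioc (N : ℝ) ((N + 1 : ℕ) : ℝ) ∪ Set.Ioi ((N + 1 : ℕ) : ℝ) :=
    (Set.Ioc_union_Ioi_eq_Ioi hNN).symm
  have h3 : ∫ u in Set.Ioi (N : ℝ), S χ ⌊u⌋₊ * (u : ℂ) ^ (-(s + 1)) =
      (∫ u in Set.Ioc (N : ℝ) ((N + 1 : ℕ) : ℝ), S χ ⌊u⌋₊ * (u : ℂ) ^ (-(s + 1))) +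
        ∫ u in Set.Ioi ((N + 1 : ℕ) : ℝ), S χ ⌊u⌋₊ * (u : ℂ) ^ (-(s + 1)) := by
    conv_lhs => rw [h2]
    refine setIntegral_union ?_ measurableSet_Ioi ?_ ?_
    · rw [Set.disjoint_left]
      intro u hu hu2
      exact absurd hu.2 (not_le.2 hu2)
    · exact h1.mono_set Set.Ioc_subset_Ioi_self
    · exact h1.mono_set (Set.Ioi_subset_Ioi hNN)
  have h4 : ∫ u in Set.Ioc (N : ℝ) ((N + 1 : ℕ) : ℝ), S χ ⌊u⌋₊ * (u : ℂ) ^ (-(s + 1)) =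
      S χ N * ((((N + 1 : ℕ) : ℂ) ^ (-s) - (N : ℂ) ^ (-s)) / (-s)) := by
    rw [integral_Ioc_eq_integral_Ioo]
    have h5 : ∫ u in Set.Ioo (N : ℝ) ((N + 1 : ℕ) : ℝ), S χ ⌊u⌋₊ * (u : ℂ) ^ (-(s + 1)) =
        ∫ u in Set.Ioo (N : ℝ) ((N + 1 : ℕ) : ℝ), S χ N * (u : ℂ) ^ (-(s + 1)) := by
      refine setIntegral_congr_fun measurableSet_Ioo fun u hu => ?_
      have h6 : ⌊u⌋₊ = N := by
        rw [Nat.floor_eq_iff (hN0.trans hu.1).le]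
        refine ⟨hu.1.le, ?_⟩
        have := hu.2
        push_cast at this
        exact this
      change S χ ⌊u⌋₊ * (u : ℂ) ^ (-(s + 1)) = S χ N * (u : ℂ) ^ (-(s + 1))
      rw [h6]
    rw [h5, ← integral_Ioc_eq_integral_Ioo, integral_const_mul,
      ← intervalIntegral.integral_of_le hNN, integral_cpow]
    · have h7 : -(s + 1) + 1 = -s := by ring
      rw [h7]
      push_cast
      rfl
    · right
      refine ⟨?_, ?_⟩
      · intro h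
        apply hs0
        have h8 : s = -(-(s + 1)) - 1 := by ring
        rw [h8, h]
        ring
      · rw [Set.uIcc_of_le hNN]
        intro h
        exact absurd h.1 (not_le.2 hN0)
  rw [I, I, h3, mul_add, h4]
  congr 1
  field_simp
  ring

theorem main {q : ℕ} [NeZero q] (χ : DirichletCharacter ℂ q) (hχ : χ ≠ 1) {s : ℂ}
    (hs : 0 < s.re) (N : ℕ) (hN : 1 ≤ N) :
    χ.LFunction s = ∑ k ∈ Finset.Icc 1 N, χ (k : ZMod q) * (k : ℂ) ^ (-s) -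
      S χ N * (N : ℂ) ^ (-s) + I χ s N := by
  induction N, hN using Nat.le_induction with
  | base =>
    rw [LP.specCON LP.specPER q χ hχ s hs]
    have h1 : I χ s 1 = s * ∫ u in Set.Ioi (1 : ℝ),
        (∑ k ∈ Finset.Icc 1 ⌊u⌋₊, χ (k : ZMod q)) * (u : ℂ) ^ (-(s + 1)) := by
      rw [I, Nat.cast_one]
      rfl
    rw [h1, S, Finset.Icc_self, Finset.sum_singleton, Finset.sum_singleton, sub_self, zero_add]
  | succ N hN ih =>
    rw [ih, step χ hχ hs hN, Finset.sum_Icc_succ_top (by omega)]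
    have h1 : S χ (N + 1) = S χ N + χ ((N + 1 : ℕ) : ZMod q) := by
      rw [S, S, Finset.sum_Icc_succ_top (by omega)]
    rw [h1]
    ring

end TRUM

open TRUM in
theorem specTRU : SpecTRU := by
  intro q _ χ hχ s hs N hN
  have hN0 : (0 : ℝ) < N := by exact_mod_cast hN
  rw [main χ hχ hs N hN]
  have h1 : ‖∑ k ∈ Finset.Icc 1 N, χ (k : ZMod q) * (k : ℂ) ^ (-s)‖ ≤
      ∑ n ∈ Finset.Icc 1 N, (n : ℝ) ^ (-s.re) := by
    refine (norm_sum_le _ _).trans (Finset.sum_le_sum fun k hk => ?_)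
    have hk0 : 0 < k := (Finset.mem_Icc.1 hk).1
    rw [norm_mul, Complex.norm_natCast_cpow_of_pos hk0, Complex.neg_re]
    exact mul_le_of_le_one_left (Real.rpow_nonneg (Nat.cast_nonneg _) _) (χ.norm_le_one _)
  have h2 : ‖S χ N * (N : ℂ) ^ (-s)‖ ≤ q * (N : ℝ) ^ (-s.re) := by
    rw [norm_mul, Complex.norm_natCast_cpow_of_pos hN, Complex.neg_re]
    exact mul_le_mul_of_nonneg_right (norm_S χ hχ N) (Real.rpow_nonneg (Nat.cast_nonneg _) _)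
  have h3 := norm_I χ hχ hs hN
  have h4 := norm_add_le (∑ k ∈ Finset.Icc 1 N, χ (k : ZMod q) * (k : ℂ) ^ (-s) -
      S χ N * (N : ℂ) ^ (-s)) (I χ s N)
  have h5 := norm_sub_le (∑ k ∈ Finset.Icc 1 N, χ (k : ZMod q) * (k : ℂ) ^ (-s))
      (S χ N * (N : ℂ) ^ (-s))
  have h6 : (q : ℝ) * (N : ℝ) ^ (-s.re) * (1 + ‖s‖ / s.re) =
      q * (N : ℝ) ^ (-s.re) + q * (N : ℝ) ^ (-s.re) * (‖s‖ / s.re) := by ring
  rw [h6]
  linarith

end Pool.Agent.Lib.SW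

end
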