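import Pool.Agent.Lib.SW.Spec

/-!
# Siegel-Walfisz, module UNS (helper18): unsmoothing
-/

set_option autoImplicit false

noncomputable section

namespace Pool.Agent.Lib.SW

open ArithmeticFunction DirichletCharacter MeasureTheory
open Pool.Agent.Lib.LP (G F)

namespace UNSM

theorem G_nonneg (lam v : ℝ) : 0 ≤ G lam v := by
  unfold Pool.Agent.Lib.LP.G
  positivity

theorem W_nonneg {T : ℝ} (hT : 0 ≤ T) (lam X l : ℝ) :
    0 ≤ ∫ v in (X - T - l)..(X - l), G lam v :=
  intervalIntegral.integral_nonneg (by linarith) fun v _ => G_nonneg lam v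

/-- comparison of the sum over `n ≤ N` with a weighted sum. -/
theorem diff {q : ℕ} [NeZero q] (χ : DirichletCharacter ℂ q) (N : ℕ) (W : ℕ → ℝ)
    (hW : ∀ n, 0 ≤ W n) (h1 : Summable fun n : ℕ => vonMangoldt n * W n)
    (h2 : Summable fun n : ℕ => vonMangoldt n * |(if n ≤ N then (1 : ℝ) else 0) - W n|) :
    ‖(∑ n ∈ Finset.Icc 1 N, (vonMangoldt n : ℂ) * χ n) -
      ∑' n : ℕ, (vonMangoldt n : ℂ) * χ n * ((W n : ℝ) : ℂ)‖ ≤
    ∑' n : ℕ, vonMangoldt n * |(if n ≤ N then (1 : ℝ) else 0) - W n| := by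
  have hchi : ∀ n : ℕ, ‖χ (n : ZMod q)‖ ≤ 1 := fun n => DirichletCharacter.norm_le_one χ n
  have e1 : ∑ n ∈ Finset.Icc 1 N, (vonMangoldt n : ℂ) * χ n =
      ∑' n : ℕ, (vonMangoldt n : ℂ) * χ n * (((if n ≤ N then (1 : ℝ) else 0) : ℝ) : ℂ) := by
    rw [tsum_eq_sum (s := Finset.Icc 1 N)]
    · refine Finset.sum_congr rfl fun n hn => ?_
      rw [Finset.mem_Icc] at hn
      rw [if_pos hn.2, Complex.ofReal_one, mul_one]
    · intro n hn
      rw [Finset.mem_Icc, not_and_or] at hn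
      rcases hn with hn | hn
      · have h0 : n = 0 := by omega
        subst h0
        simp
      · rw [if_neg hn]
        simp
  have s1 : Summable fun n : ℕ =>
      (vonMangoldt n : ℂ) * χ n * (((if n ≤ N then (1 : ℝ) else 0) : ℝ) : ℂ) := by
    refine summable_of_ne_finset_zero (s := Finset.Icc 0 N) ?_
    intro n hn
    rw [Finset.mem_Icc, not_and_or] at hn
    have hn' : ¬ n ≤ N := by
      rcases hn with hn | hn
      · exact absurd (Nat.zero_le n) hn
      · exact hn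
    rw [if_neg hn']
    simp
  have s2 : Summable fun n : ℕ => (vonMangoldt n : ℂ) * χ n * ((W n : ℝ) : ℂ) := by
    refine Summable.of_norm_bounded h1 fun n => ?_
    rw [norm_mul, norm_mul, Complex.norm_real, Complex.norm_real, Real.norm_eq_abs,
      Real.norm_eq_abs, abs_of_nonneg vonMangoldt_nonneg, abs_of_nonneg (hW n)]
    have := hchi n
    have h3 : vonMangoldt n * ‖χ (n : ZMod q)‖ ≤ vonMangoldt n * 1 :=
      mul_le_mul_of_nonneg_left this vonMangoldt_nonneg
    rw [mul_one] at h3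
    exact mul_le_mul_of_nonneg_right h3 (hW n)
  rw [e1, ← s1.tsum_sub s2]
  refine tsum_of_norm_bounded h2.hasSum fun n => ?_
  rw [← mul_sub, ← Complex.ofReal_sub, norm_mul, norm_mul, Complex.norm_real, Complex.norm_real,
    Real.norm_eq_abs, Real.norm_eq_abs, abs_of_nonneg vonMangoldt_nonneg]
  have h3 : vonMangoldt n * ‖χ (n : ZMod q)‖ ≤ vonMangoldt n * 1 :=
    mul_le_mul_of_nonneg_left (hchi n) vonMangoldt_nonneg
  rw [mul_one] at h3
  exact mul_le_mul_of_nonneg_right h3 (abs_nonneg _)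

theorem num {T : ℝ} (hT : 1000 ≤ T) : T * Real.exp (-(2 * T)) ≤ Real.exp (-(T / 4)) / 2 := by
  have h1 : T ≤ Real.exp T := by
    have := Real.add_one_le_exp T
    linarith
  have h2 : (2 : ℝ) ≤ Real.exp (3 * T / 4) := by
    have := Real.add_one_le_exp (3 * T / 4)
    linarith
  have h3 : Real.exp T * Real.exp (-(2 * T)) * Real.exp (3 * T / 4) = Real.exp (-(T / 4)) := by
    rw [← Real.exp_add, ← Real.exp_add]
    ring_nf
  have h4 : T * Real.exp (-(2 * T)) ≤ Real.exp T * Real.exp (-(2 * T)) :=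
    mul_le_mul_of_nonneg_right h1 (Real.exp_pos _).le
  have h5 : 0 < Real.exp T * Real.exp (-(2 * T)) := by positivity
  nlinarith

end UNSM

open UNSM in
theorem specUNS (hPSE : SpecPSE) (hSMO : SpecSMO) (hWSM : SpecWSM) : SpecUNS := by
  obtain ⟨T₁, h1⟩ := hPSE
  obtain ⟨T₂, h2⟩ := hWSM
  refine ⟨max (max T₁ T₂) 1000, ?_⟩
  intro T hT q _ hq hgood χ hχ x hx0 hx1 hx2
  have hT1 : T₁ ≤ T := (le_max_left _ _).trans ((le_max_left _ _).trans hT)
  have hT2 : T₂ ≤ T := (le_max_right _ _).trans ((le_max_left _ _).trans hT)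
  have hT3 : 1000 ≤ T := (le_max_right _ _).trans hT
  have hT0 : 0 ≤ T := by linarith
  have hl1 : 6 ≤ Real.exp T := by
    have := Real.add_one_le_exp T
    linarith
  obtain ⟨s2, b2⟩ := h2 T hT2 x hx1 hx2 hx0
  obtain ⟨s3, e3⟩ := hSMO (Real.exp T) hl1 q χ (Real.log x) T hT0
  have hd := diff χ ⌊x⌋₊
    (fun n : ℕ => ∫ v in (Real.log x - T - Real.log n)..(Real.log x - Real.log n),
      G (Real.exp T) v) (fun n => W_nonneg hT0 _ _ _) s3 s2
  rw [← e3] at hd
  have hI : ‖∫ u in (Real.log x - T)..Real.log x, F (Real.exp T) χ u‖ ≤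
      x * Real.exp (-(2 * T)) * |Real.log x - (Real.log x - T)| := by
    apply intervalIntegral.norm_integral_le_of_norm_le_const
    intro u hu
    rw [Set.uIoc_of_le (by linarith)] at hu
    have h47 : T ^ 46 + T ≤ T ^ 47 := by
      have e : T ^ 47 = T ^ 46 * T := by ring
      have h46 : T ≤ T ^ 46 := le_self_pow₀ (by linarith) (by norm_num)
      have h0 : 0 ≤ T ^ 46 := by positivity
      rw [e]
      nlinarith
    have h59 : T ^ 59 ≤ T ^ 60 := pow_le_pow_right₀ (by linarith) (by norm_num)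
    refine (h1 T hT1 q hq hgood χ hχ (Real.exp T) (by linarith) le_rfl u (by linarith [hu.1])
      (by linarith [hu.2])).trans ?_
    have h5 : x * Real.exp (-(2 * T)) = Real.exp (Real.log x - 2 * T) := by
      rw [sub_eq_add_neg, Real.exp_add, Real.exp_log hx0]
    rw [h5]
    exact Real.exp_le_exp.2 (by linarith [hu.2])
  have hT' : |Real.log x - (Real.log x - T)| = T := by
    rw [sub_sub_cancel, abs_of_nonneg hT0]
  rw [hT'] at hI
  have hn := num hT3
  have htri := norm_sub_norm_le (∑ n ∈ Finset.Icc 1 ⌊x⌋₊, (vonMangoldt n : ℂ) * χ n)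
    (∫ u in (Real.log x - T)..Real.log x, F (Real.exp T) χ u)
  have hn2 : x * (T * Real.exp (-(2 * T))) ≤ x * (Real.exp (-(T / 4)) / 2) :=
    mul_le_mul_of_nonneg_left hn hx0.le
  linarith

end Pool.Agent.Lib.SW
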